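import Pool.Agent.Lib_MP_92ef0c_lb.LowP
import Pool.Agent.Lib_MP_92ef0c_spi.ClsN

/-!
# Block B: mean values in progressions
-/

set_option autoImplicit false

namespace Pool.Agent.SplB

open Finset Pool.Agent.Spl Pool.Agent.SplI MeasureTheory Filter

variable {Q : ℕ}

private theorem prog_char (m1 d : ℕ) (χ : DirichletCharacter ℂ m1) (x : ℕ) :
    (DirichletCharacter.changeLevel (Nat.dvd_mul_right m1 d) χ) (x : ZMod (m1 * d)) =
      if x.Coprime d then χ (x : ZMod m1) else 0 := by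
  by_cases hx : x.Coprime (m1 * d)
  · have hd : x.Coprime d := (Nat.coprime_mul_iff_right.1 hx).2
    rw [if_pos hd]
    have h1 := DirichletCharacter.changeLevel_eq_cast_of_dvd χ (Nat.dvd_mul_right m1 d)
      (ZMod.unitOfCoprime x hx)
    rw [ZMod.coe_unitOfCoprime] at h1
    rw [h1, ZMod.cast_natCast (Nat.dvd_mul_right m1 d)]
  · have h1 : ¬ IsUnit (x : ZMod (m1 * d)) := by
      rw [ZMod.isUnit_iff_coprime]
      exact hx
    rw [MulChar.map_nonunit _ h1]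
    by_cases hd : x.Coprime d
    · rw [if_pos hd]
      have h2 : ¬ IsUnit (x : ZMod m1) := by
        rw [ZMod.isUnit_iff_coprime]
        intro h3
        exact hx (Nat.coprime_mul_iff_right.2 ⟨h3, hd⟩)
      rw [MulChar.map_nonunit _ h2]
    · rw [if_neg hd]

private theorem prog_cls (m1 d : ℕ) (hm1 : m1 ≠ 0) (b : ℕ) (hb : b.Coprime m1) :
    ∃ (n : ℕ) (χ : Fin n → DirichletCharacter ℂ (m1 * d)) (c : Fin n → ℂ), (∀ i, ‖c i‖ ≤ 1) ∧
      ∀ x : ℕ, ∑ i, c i * χ i (x : ZMod (m1 * d)) =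
        if x ≡ b [MOD m1] ∧ x.Coprime d then 1 else 0 := by
  have : NeZero m1 := ⟨hm1⟩
  obtain ⟨n, χ, c, hc, h⟩ := cls_char_n m1 b hb
  refine ⟨n, fun i => DirichletCharacter.changeLevel (Nat.dvd_mul_right m1 d) (χ i), c, hc, ?_⟩
  intro x
  simp only [prog_char]
  by_cases hd : x.Coprime d
  · simp only [if_pos hd]
    rw [h x]
    by_cases hx : x ≡ b [MOD m1]
    · rw [if_pos hx, if_pos ⟨hx, hd⟩]
    · rw [if_neg hx, if_neg (fun h' => hx h'.1)]
  · simp only [if_neg hd, mul_zero, sum_const_zero]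
    rw [if_neg (fun h' => hd h'.2)]

private theorem prog_mod {m r x : ℕ} (hm : 0 < m) :
    (Nat.gcd r m * x ≡ r [MOD m]) ↔ x ≡ r / Nat.gcd r m [MOD m / Nat.gcd r m] := by
  have hg : Nat.gcd r m ≠ 0 := (Nat.gcd_pos_of_pos_right r hm).ne'
  have h1 : Nat.gcd r m * (r / Nat.gcd r m) = r := Nat.mul_div_cancel' (Nat.gcd_dvd_left r m)
  have h2 : Nat.gcd r m * (m / Nat.gcd r m) = m := Nat.mul_div_cancel' (Nat.gcd_dvd_right r m)
  have h3 := Nat.ModEq.mul_left_cancel_iff' (a := x) (b := r / Nat.gcd r m)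
    (m := m / Nat.gcd r m) hg
  rw [h1, h2] at h3
  exact h3

private theorem prog_sum (F : ℕ → ℂ) (m : ℕ) (hm : 0 < m) (r N : ℕ) :
    ∑ n ∈ (Icc 1 N).filter (fun n => n ≡ r [MOD m]), F n =
      ∑ k ∈ (Icc 1 (N / Nat.gcd r m)).filter (fun k => k ≡ r / Nat.gcd r m [MOD m / Nat.gcd r m]), F (Nat.gcd r m * k) := by
  have hg : 0 < Nat.gcd r m := Nat.gcd_pos_of_pos_right r hm
  have hdv : ∀ n, n ≡ r [MOD m] → Nat.gcd r m ∣ n := by
    intro n hn
    have h1 : Nat.gcd n m = Nat.gcd r m := hn.gcd_eq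
    rw [← h1]
    exact Nat.gcd_dvd_left n m
  refine sum_nbij' (fun n => n / Nat.gcd r m) (fun k => Nat.gcd r m * k) ?_ ?_ ?_ ?_ ?_
  · intro n hn
    rw [mem_filter, mem_Icc] at hn ⊢
    obtain ⟨k, hk⟩ := hdv n hn.2
    have h1 : n / Nat.gcd r m = k := by rw [hk, Nat.mul_div_cancel_left _ hg]
    have hk0 : k ≠ 0 := by
      rintro rfl
      omega
    simp only [h1]
    refine ⟨⟨Nat.pos_of_ne_zero hk0, ?_⟩, ?_⟩
    · rw [Nat.le_div_iff_mul_le hg, mul_comm, ← hk]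
      exact hn.1.2
    · rw [← prog_mod hm, ← hk]
      exact hn.2
  · intro k hk
    rw [mem_filter, mem_Icc] at hk ⊢
    refine ⟨⟨Nat.mul_pos hg (by omega), ?_⟩, (prog_mod hm).2 hk.2⟩
    have := hk.1.2
    rw [Nat.le_div_iff_mul_le hg] at this
    rw [mul_comm]
    exact this
  · intro n hn
    rw [mem_filter] at hn
    exact Nat.mul_div_cancel' (hdv n hn.2)
  · intro k _
    exact Nat.mul_div_cancel_left _ hg
  · intro n hn
    rw [mem_filter] at hn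
    rw [Nat.mul_div_cancel' (hdv n hn.2)]

/-- mean values in progressions, quantitative form -/
theorem prog_ev (q : ℕ) (hq : 0 < q) (hQ : 0 < Q) {z : ℂ} (hz : z ^ q = 1) {f : ℝ → ℕ → ℂ} (hf : FS Q z f)
    (m : ℕ) (hm : 0 < m) (r : ℕ) (c : ℝ) (hc : 0 < c) (ε : ℝ) (hε : 0 < ε) : ∀ᶠ Y : ℝ in atTop,
    ‖∑ n ∈ (Icc 1 ⌊c * Real.sqrt Y⌋₊).filter (fun n => n ≡ r [MOD m]), (f Y n - mf Q f Y * f00 Q n)‖ ≤ ε * Real.sqrt Y := by
  obtain ⟨d, hd⟩ : ∃ d, d = Nat.gcd r m := ⟨_, rfl⟩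
  have hd0 : 0 < d := by rw [hd]; exact Nat.gcd_pos_of_pos_right r hm
  have hd1 : (1 : ℝ) ≤ d := by exact_mod_cast hd0
  have hm1 : m / d ≠ 0 := by
    rw [hd]
    exact (Nat.div_pos (Nat.le_of_dvd hm (Nat.gcd_dvd_right _ _)) (Nat.gcd_pos_of_pos_right r hm)).ne'
  have hb : (r / d).Coprime (m / d) := by
    rw [hd]
    exact Nat.coprime_div_gcd_div_gcd (Nat.gcd_pos_of_pos_right r hm)
  obtain ⟨n0, χ, a, ha, hχ⟩ := prog_cls (m / d) Q hm1 (r / d) hb
  have hNZ : NeZero (m / d * Q) := ⟨mul_ne_zero hm1 hQ.ne'⟩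
  have hQW : Q ∣ m / d * Q := Dvd.intro_left _ rfl
  obtain ⟨K, hK⟩ : ∃ K : ℝ, K = max (c + 1) (2 * d / c) := ⟨_, rfl⟩
  have hKc : c + 1 ≤ K := by rw [hK]; exact le_max_left _ _
  have hKd : 2 * d / c ≤ K := by rw [hK]; exact le_max_right _ _
  have hK1 : 1 ≤ K := by linarith
  have hK0 : 0 < K := by linarith
  obtain ⟨η, hη⟩ : ∃ η : ℝ, η = ε / (2 * (n0 + 1)) := ⟨_, rfl⟩
  have hη0 : 0 < η := by rw [hη]; positivity
  -- the difference of mz and mf
  have hzm : Tendsto (fun Y => mz Q z f Y - mf Q f Y) atTop (nhds 0) := by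
    by_cases h : z = 1
    · have : (fun Y => mz Q z f Y - mf Q f Y) = fun _ => 0 := by
        funext Y
        unfold mz
        rw [if_pos h, sub_self]
      rw [this]
      exact tendsto_const_nhds
    · have h1 := (mf_zero' q hq hQ hz h hf).neg
      rw [neg_zero] at h1
      refine h1.congr fun Y => ?_
      unfold mz
      rw [if_neg h, zero_sub]
  have hag : ∀ᶠ Y : ℝ in atTop, mz Q z f Y * (f Y d - f00 Q d) = 0 := by
    by_cases h : z = 1
    · subst h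
      filter_upwards [fs_agree hQ hf d] with Y h3
      rw [h3 d hd0 le_rfl, sub_self, mul_zero]
    · refine Eventually.of_forall fun Y => ?_
      have : mz Q z f Y = 0 := by unfold mz; rw [if_neg h]
      rw [this, zero_mul]
  have hall : ∀ᶠ Y : ℝ in atTop, ∀ i : Fin n0, ∀ N : ℕ, Real.sqrt Y / K ≤ N → (N : ℝ) ≤ K * Real.sqrt Y →
      ‖∑ n ∈ Icc 1 N, (tw (f Y) (χ i) n - mz Q z f Y * χ i (n : ZMod (m / d * Q)))‖ ≤ η * Real.sqrt Y :=
    eventually_all.2 fun i => mv_all q hq hQ hz hf hQW (χ i) K η hK1 hη0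
  filter_upwards [hall, hag, (tendsto_zero_iff_norm_tendsto_zero.1 hzm).eventually (gt_mem_nhds (show 0 < ε / (2 * c) by positivity)),
    sqrt_atTop.eventually (eventually_ge_atTop (2 * d / c)), eventually_gt_atTop 0] with Y h1 h2 h3 h4 hY
  have hsY : 0 < Real.sqrt Y := Real.sqrt_pos.2 hY
  obtain ⟨N, hN⟩ : ∃ N, N = ⌊c * Real.sqrt Y⌋₊ := ⟨_, rfl⟩
  have hNle : (N : ℝ) ≤ c * Real.sqrt Y := by rw [hN]; exact Nat.floor_le (by positivity)
  rw [← hN]
  -- range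
  have hN' : ((N / d : ℕ) : ℝ) ≤ K * Real.sqrt Y := by
    calc ((N / d : ℕ) : ℝ) ≤ (N : ℝ) := by exact_mod_cast Nat.div_le_self N d
      _ ≤ c * Real.sqrt Y := hNle
      _ ≤ K * Real.sqrt Y := mul_le_mul_of_nonneg_right (by linarith) hsY.le
  have hN'' : Real.sqrt Y / K ≤ ((N / d : ℕ) : ℝ) := by
    have e0 : N / d = ⌊c * Real.sqrt Y / d⌋₊ := by rw [hN, Nat.floor_div_natCast]
    have e1 := Nat.lt_floor_add_one (c * Real.sqrt Y / d)
    rw [← e0] at e1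
    have e2 : 1 ≤ c * Real.sqrt Y / (2 * d) := by
      rw [le_div_iff₀ (by positivity)]
      rw [div_le_iff₀ hc] at h4
      linarith
    have e3 : c * Real.sqrt Y / d = c * Real.sqrt Y / (2 * d) + c * Real.sqrt Y / (2 * d) := by field_simp; ring
    have e4 : Real.sqrt Y / K ≤ c * Real.sqrt Y / (2 * d) := by
      rw [div_le_div_iff₀ hK0 (by positivity)]
      rw [div_le_iff₀ hc] at hKd
      calc Real.sqrt Y * (2 * d) ≤ Real.sqrt Y * (K * c) := mul_le_mul_of_nonneg_left hKd hsY.le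
        _ = c * Real.sqrt Y * K := by ring
    linarith
  have e1 : ∑ n ∈ (Icc 1 N).filter (fun n => n ≡ r [MOD m]), (f Y n - mf Q f Y * f00 Q n) =
      ∑ n ∈ (Icc 1 N).filter (fun n => n ≡ r [MOD m]), (f Y n - mz Q z f Y * f00 Q n) +
      (mz Q z f Y - mf Q f Y) * ∑ n ∈ (Icc 1 N).filter (fun n => n ≡ r [MOD m]), f00 Q n := by
    rw [mul_sum, ← sum_add_distrib]
    refine sum_congr rfl fun n _ => ?_
    ring
  have e2 : ‖(mz Q z f Y - mf Q f Y) * ∑ n ∈ (Icc 1 N).filter (fun n => n ≡ r [MOD m]), f00 Q n‖ ≤ ε / 2 * Real.sqrt Y := by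
    rw [norm_mul]
    have e3 : ‖∑ n ∈ (Icc 1 N).filter (fun n => n ≡ r [MOD m]), f00 Q n‖ ≤ c * Real.sqrt Y := by
      refine (norm_sum_le _ _).trans ?_
      calc ∑ n ∈ (Icc 1 N).filter (fun n => n ≡ r [MOD m]), ‖f00 Q n‖ ≤
            ∑ _n ∈ (Icc 1 N).filter (fun n => n ≡ r [MOD m]), (1 : ℝ) := sum_le_sum fun n _ => (cf_f00 Q).le n
        _ ≤ ∑ _n ∈ Icc 1 N, (1 : ℝ) := sum_le_sum_of_subset_of_nonneg (filter_subset _ _) fun _ _ _ => zero_le_one
        _ = N := by simp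
        _ ≤ c * Real.sqrt Y := hNle
    calc ‖mz Q z f Y - mf Q f Y‖ * ‖∑ n ∈ (Icc 1 N).filter (fun n => n ≡ r [MOD m]), f00 Q n‖ ≤
          ε / (2 * c) * (c * Real.sqrt Y) := mul_le_mul h3.le e3 (norm_nonneg _) (by positivity)
      _ = ε / 2 * Real.sqrt Y := by field_simp
  have e3 : ∑ n ∈ (Icc 1 N).filter (fun n => n ≡ r [MOD m]), (f Y n - mz Q z f Y * f00 Q n) =
      f Y d * ∑ i, a i * ∑ k ∈ Icc 1 (N / d), (tw (f Y) (χ i) k - mz Q z f Y * χ i (k : ZMod (m / d * Q))) := by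
    rw [prog_sum _ m hm r N, ← hd]
    simp only [mul_sum]
    rw [sum_comm, sum_filter]
    refine sum_congr rfl fun k hk => ?_
    rw [mem_Icc] at hk
    have hk0 : k ≠ 0 := by omega
    have g1 : ∑ i, f Y d * (a i * (tw (f Y) (χ i) k - mz Q z f Y * χ i (k : ZMod (m / d * Q)))) =
        f Y d * (f Y k - mz Q z f Y) * ∑ i, a i * χ i (k : ZMod (m / d * Q)) := by
      rw [mul_sum]
      refine sum_congr rfl fun i _ => ?_
      unfold tw
      ring
    rw [g1, hχ k]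
    have g2 : mz Q z f Y * f Y d = mz Q z f Y * f00 Q d := by
      have := h2
      rw [mul_sub, sub_eq_zero] at this
      exact this
    by_cases g3 : k ≡ r / d [MOD m / d]
    · rw [if_pos g3]
      by_cases g4 : k.Coprime Q
      · rw [if_pos ⟨g3, g4⟩, mul_one, (hf.cf Y).mul d k hd0.ne' hk0, (cf_f00 Q).mul d k hd0.ne' hk0, f00_coprime hk0 g4]
        linear_combination g2
      · rw [if_neg (fun h => g4 h.2), mul_zero, (hf.cf Y).mul d k hd0.ne' hk0, (cf_f00 Q).mul d k hd0.ne' hk0,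
          f00_not g4, hf.zero Y g4]
        ring
    · rw [if_neg g3, if_neg (fun h => g3 h.1), mul_zero]
  have e4 : ‖∑ n ∈ (Icc 1 N).filter (fun n => n ≡ r [MOD m]), (f Y n - mz Q z f Y * f00 Q n)‖ ≤ ε / 2 * Real.sqrt Y := by
    rw [e3, norm_mul]
    have g1 : ‖∑ i, a i * ∑ k ∈ Icc 1 (N / d), (tw (f Y) (χ i) k - mz Q z f Y * χ i (k : ZMod (m / d * Q)))‖ ≤
        ∑ _i : Fin n0, η * Real.sqrt Y := by
      refine (norm_sum_le _ _).trans (sum_le_sum fun i _ => ?_)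
      rw [norm_mul]
      calc ‖a i‖ * ‖∑ k ∈ Icc 1 (N / d), (tw (f Y) (χ i) k - mz Q z f Y * χ i (k : ZMod (m / d * Q)))‖ ≤
            1 * (η * Real.sqrt Y) := mul_le_mul (ha i) (h1 i _ hN'' hN') (norm_nonneg _) zero_le_one
        _ = η * Real.sqrt Y := one_mul _
    rw [sum_const, card_univ, Fintype.card_fin, nsmul_eq_mul] at g1
    calc ‖f Y d‖ * ‖∑ i, a i * ∑ k ∈ Icc 1 (N / d), (tw (f Y) (χ i) k - mz Q z f Y * χ i (k : ZMod (m / d * Q)))‖ ≤
          1 * (n0 * (η * Real.sqrt Y)) := mul_le_mul ((hf.cf Y).le d) g1 (norm_nonneg _) zero_le_one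
      _ ≤ (n0 + 1) * (η * Real.sqrt Y) := by
          have : 0 ≤ η * Real.sqrt Y := by positivity
          linarith
      _ = ε / 2 * Real.sqrt Y := by rw [hη]; field_simp
  rw [e1]
  refine (norm_add_le _ _).trans ?_
  linarith

/-- mean values in progressions -/
theorem mf_prog' (q : ℕ) (hq : 0 < q) (hQ : 0 < Q) {z : ℂ} (hz : z ^ q = 1) {f : ℝ → ℕ → ℂ} (hf : FS Q z f)
    (m : ℕ) (hm : 0 < m) (r : ℕ) (c : ℝ) (hc : 0 < c) :
    Tendsto (fun Y : ℝ => (∑ n ∈ (Icc 1 ⌊c * Real.sqrt Y⌋₊).filter (fun n => n ≡ r [MOD m]),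
      (f Y n - mf Q f Y * f00 Q n)) / Real.sqrt Y) atTop (nhds 0) := by
  rw [tendsto_zero_iff_norm_tendsto_zero, Metric.tendsto_nhds]
  intro ε hε
  filter_upwards [prog_ev q hq hQ hz hf m hm r c hc (ε / 2) (by positivity), eventually_gt_atTop 0] with Y h1 hY
  have hsY : 0 < Real.sqrt Y := Real.sqrt_pos.2 hY
  rw [Real.dist_eq, sub_zero, abs_of_nonneg (norm_nonneg _), norm_div, Complex.norm_real,
    Real.norm_of_nonneg hsY.le, div_lt_iff₀ hsY]
  refine lt_of_le_of_lt h1 ?_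
  nlinarith

end Pool.Agent.SplB
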