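import Pool.Agent.Lib_MP_92ef0c_lb.MRBp
import Pool.Agent.Lib_MP_92ef0c_lb.Prog

/-!
# Block B: the interface theorems
-/

set_option autoImplicit false

namespace Pool.Agent.SplB

open Finset Pool.Agent.Spl MeasureTheory Filter

/-- Matomaki-Radziwill in arcs of bounded length for pairs of families (`z1, z2` any roots of unity; `μ` any function
asymptotic to the product of the mean values, which tend to zero if `z ≠ 1`) -/
theorem mrb (q Q : ℕ) (hq : 0 < q) (hQ : 0 < Q) (z1 z2 : ℂ) (hz1 : z1 ^ q = 1) (hz2 : z2 ^ q = 1) (f g : ℝ → ℕ → ℂ)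
    (hf : FS Q z1 f) (hg : FS Q z2 g) (μ : ℝ → ℂ)
    (hμ : Tendsto (fun Y => mf Q f Y * mf Q g Y - μ Y) atTop (nhds 0)) : MRB Q f g μ :=
  mrb' q hq hQ hz1 hz2 hf hg μ hμ

/-- the mean values tend to zero if `z ≠ 1` -/
theorem mf_zero (q Q : ℕ) (hq : 0 < q) (hQ : 0 < Q) (z : ℂ) (hz : z ^ q = 1) (hz1 : z ≠ 1) (f : ℝ → ℕ → ℂ)
    (hf : FS Q z f) : Tendsto (mf Q f) atTop (nhds 0) :=
  mf_zero' q hq hQ hz hz1 hf

/-- mean values in progressions -/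
theorem mf_prog (q Q : ℕ) (hq : 0 < q) (hQ : 0 < Q) (z : ℂ) (hz : z ^ q = 1) (f : ℝ → ℕ → ℂ) (hf : FS Q z f)
    (m : ℕ) (hm : 0 < m) (r : ℕ) (c : ℝ) (hc : 0 < c) :
    Tendsto (fun Y : ℝ => (∑ n ∈ (Icc 1 ⌊c * Real.sqrt Y⌋₊).filter (fun n => n ≡ r [MOD m]),
      (f Y n - mf Q f Y * f00 Q n)) / Real.sqrt Y) atTop (nhds 0) :=
  mf_prog' q hq hQ hz hf m hm r c hc

end Pool.Agent.SplB
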