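import Pool.Agent.Lib_MP_92ef0c_lb.MVal
import Pool.Agent.Lib_MP_f1a94e_ap.Core

/-!
# Block B: asymptotic mean values
-/

set_option autoImplicit false

namespace Pool.Agent.SplB

open Finset Pool.Agent.Spl Pool.Agent.SplI MeasureTheory Filter

theorem norm_f00_sum (Q N : ℕ) : ‖∑ n ∈ Icc 1 N, f00 Q n‖ = ∑ n ∈ Icc 1 N, ‖f00 Q n‖ := by
  have h1 : ∀ n, f00 Q n = ((‖f00 Q n‖ : ℝ) : ℂ) := by
    intro n
    unfold f00
    split_ifs <;> simp
  have h2 : ∑ n ∈ Icc 1 N, f00 Q n = ((∑ n ∈ Icc 1 N, ‖f00 Q n‖ : ℝ) : ℂ) := by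
    push_cast
    exact sum_congr rfl fun n _ => h1 n
  rw [h2, Complex.norm_real, Real.norm_of_nonneg (sum_nonneg fun _ _ => norm_nonneg _)]

/-- the mean values are bounded by one -/
theorem mf_le_one {Q : ℕ} {z : ℂ} {f : ℝ → ℕ → ℂ} (hf : FS Q z f) (Y : ℝ) : ‖mf Q f Y‖ ≤ 1 := by
  unfold mf
  rw [norm_div, norm_f00_sum]
  refine div_le_one_of_le₀ ?_ (sum_nonneg fun _ _ => norm_nonneg _)
  refine (norm_sum_le _ _).trans (sum_le_sum fun n hn => ?_)
  rw [mem_Icc] at hn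
  by_cases h : n.Coprime Q
  · rw [f00_coprime (by omega) h, norm_one]
    exact hf.bd Y n
  · rw [hf.zero Y h, norm_zero]
    exact norm_nonneg _

theorem sqrt_atTop : Tendsto Real.sqrt atTop atTop := by
  have h : (fun x : ℝ => Real.sqrt x) = fun x => x ^ (1 / 2 : ℝ) := by
    funext x
    exact Real.sqrt_eq_rpow x
  have h2 : Tendsto (fun x : ℝ => x ^ (1 / 2 : ℝ)) atTop atTop := tendsto_rpow_atTop (by norm_num)
  rw [← h] at h2
  exact h2

/-- the density of the numbers coprime to `Q` -/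
theorem f00_sum {Q : ℕ} (hQ : 0 < Q) (N : ℕ) : ‖∑ n ∈ Icc 1 N, f00 Q n - N * ((Q.totient : ℂ) / Q)‖ ≤ 4 * Q := by
  have : NeZero Q := ⟨hQ.ne'⟩
  have h := chi_sum (1 : DirichletCharacter ℂ Q) N
  rw [cW_one] at h
  have h2 : ∑ n ∈ Icc 1 N, f00 Q n = ∑ n ∈ Icc 1 N, (1 : DirichletCharacter ℂ Q) (n : ZMod Q) := by
    refine sum_congr rfl fun n hn => ?_
    rw [mem_Icc] at hn
    rw [← tw_f00 dvd_rfl (1 : DirichletCharacter ℂ Q) (show n ≠ 0 by omega)]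
    unfold tw
    by_cases h : n.Coprime Q
    · rw [MulChar.one_apply ((ZMod.isUnit_iff_coprime n Q).2 h), mul_one]
    · rw [f00_not h, zero_mul]
  rw [h2]
  exact h

/-- lower bound for the denominators -/
theorem f00_low {Q : ℕ} (hQ : 0 < Q) : ∃ c : ℝ, 0 < c ∧ ∀ᶠ Y : ℝ in atTop,
    c * Real.sqrt Y ≤ ‖∑ n ∈ Icc 1 ⌊Real.sqrt Y⌋₊, f00 Q n‖ := by
  have hQr : (0 : ℝ) < Q := by exact_mod_cast hQ
  have hφ : (0 : ℝ) < Q.totient := by exact_mod_cast Nat.totient_pos.2 hQ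
  set c0 : ℝ := (Q.totient : ℝ) / Q with hc0
  have hc0p : 0 < c0 := by positivity
  refine ⟨c0 / 2, by positivity, ?_⟩
  filter_upwards [sqrt_atTop.eventually (eventually_ge_atTop ((4 * Q + c0) / (c0 / 2)))] with Y hY
  rw [div_le_iff₀ (by positivity)] at hY
  have h := f00_sum hQ ⌊Real.sqrt Y⌋₊
  have h1 : ‖((⌊Real.sqrt Y⌋₊ : ℕ) : ℂ) * ((Q.totient : ℂ) / Q)‖ = ⌊Real.sqrt Y⌋₊ * c0 := by
    rw [norm_mul, norm_div, Complex.norm_natCast, Complex.norm_natCast, Complex.norm_natCast]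
  have h2 := norm_sub_norm_le (((⌊Real.sqrt Y⌋₊ : ℕ) : ℂ) * ((Q.totient : ℂ) / Q)) (∑ n ∈ Icc 1 ⌊Real.sqrt Y⌋₊, f00 Q n)
  rw [h1, norm_sub_rev] at h2
  have h3 := Nat.lt_floor_add_one (Real.sqrt Y)
  have h4 : (Real.sqrt Y - 1) * c0 ≤ ⌊Real.sqrt Y⌋₊ * c0 := mul_le_mul_of_nonneg_right (by linarith) hc0p.le
  linarith

section one

variable {Q : ℕ} {f : ℝ → ℕ → ℂ}

/-- the parameters of a family with `z = 1` -/
private theorem fs_par (hQ : 0 < Q) (hf : FS Q 1 f) : ∃ κ : ℝ, 0 < κ ∧ ∀ Y : ℝ, 1 ≤ Y → CF (f Y) ∧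
    (∀ p : ℕ, p.Prime → p ∣ Q → f Y p = 0) ∧ (∀ p : ℕ, p.Prime → ¬ p ∣ Q → (p : ℝ) ≤ Y ^ κ → f Y p = 1) := by
  obtain ⟨κ, hκ, _, h⟩ := hf.cls hQ
  exact ⟨κ, hκ, fun Y hY => ⟨hf.cf Y, hf.zr Y, (h Y hY).1⟩⟩

theorem HS_ev (hQ : 0 < Q) (hf : FS Q 1 f) (K η : ℝ) (hK : 1 ≤ K) (hη : 0 < η) : ∀ᶠ Y : ℝ in atTop, ∀ N : ℕ,
    (N : ℝ) ≤ K * Real.sqrt Y → HS Q (f Y) N ≤ η * Real.sqrt Y := by
  obtain ⟨κ, hκ, hpar⟩ := fs_par hQ hf
  have hK0 : 0 < K := by linarith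
  obtain ⟨P, V0, hP, hV0, h⟩ := HS_small (1 / κ) (η / K) (by positivity)
  filter_upwards [eventually_ge_atTop 1, sqrt_atTop.eventually (eventually_ge_atTop (max V0 K)),
    (tendsto_rpow_atTop hκ).eventually (eventually_ge_atTop P)] with Y hY1 hY2 hY3 N hN
  have hY0 : 0 < Y := by linarith
  obtain ⟨h1, h2, h3⟩ := hpar Y hY1
  have hs0 : 0 ≤ Real.sqrt Y := Real.sqrt_nonneg Y
  have hVa : V0 ≤ Real.sqrt Y := (le_max_left _ _).trans hY2
  have hVb : K ≤ Real.sqrt Y := (le_max_right _ _).trans hY2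
  have hV1 : V0 ≤ K * Real.sqrt Y := by nlinarith
  have hV2 : K * Real.sqrt Y ≤ (Y ^ κ) ^ (1 / κ) := by
    rw [← Real.rpow_mul hY0.le, mul_one_div_cancel hκ.ne', Real.rpow_one]
    have := Real.mul_self_sqrt hY0.le
    nlinarith
  have h4 := h Q (K * Real.sqrt Y) hV1 (Y ^ κ) hY3 hV2 (f Y) h1 h2 h3 N hN
  refine h4.trans (le_of_eq ?_)
  field_simp

theorem mv_ev (hQ : 0 < Q) (hf : FS Q 1 f) {W : ℕ} [NeZero W] (hQW : Q ∣ W) (χ : DirichletCharacter ℂ W) (K η : ℝ)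
    (hK : 1 ≤ K) (hη : 0 < η) : ∀ᶠ Y : ℝ in atTop, ∀ N : ℕ, (N : ℝ) ≤ K * Real.sqrt Y →
    ‖∑ n ∈ Icc 1 N, tw (f Y) χ n - cW χ * N * HX Q (f Y) χ N‖ ≤ η * Real.sqrt Y := by
  have hW : (0 : ℝ) < W := by exact_mod_cast NeZero.pos W
  filter_upwards [HS_ev hQ hf K (η / (5 * W)) hK (by positivity)] with Y hY N hN
  refine (mv_main hQW χ N).trans ?_
  have h1 := mul_le_mul_of_nonneg_left (hY N hN) (show 0 ≤ 5 * (W : ℝ) by positivity)
  refine h1.trans (le_of_eq ?_)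
  field_simp

theorem HX_bd (hQ : 0 < Q) [NeZero Q] (hf : FS Q 1 f) (K : ℝ) (hK : 1 ≤ K) : ∃ B : ℝ, 0 < B ∧ ∀ᶠ Y : ℝ in atTop, ∀ N : ℕ,
    Real.sqrt Y / K ≤ N → (N : ℝ) ≤ K * Real.sqrt Y → ‖HX Q (f Y) (1 : DirichletCharacter ℂ Q) N‖ ≤ B := by
  have hQr : (0 : ℝ) < Q := by exact_mod_cast hQ
  have hφ : (0 : ℝ) < Q.totient := by exact_mod_cast Nat.totient_pos.2 hQ
  have hK0 : 0 < K := by linarith
  set c0 : ℝ := (Q.totient : ℝ) / Q with hc0
  have hc0p : 0 < c0 := by positivity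
  refine ⟨(1 + K) / c0, by positivity, ?_⟩
  filter_upwards [mv_ev hQ hf dvd_rfl (1 : DirichletCharacter ℂ Q) K 1 hK one_pos,
    sqrt_atTop.eventually (eventually_ge_atTop 1)] with Y hY hY1 N hN1 hN2
  have h1 := hY N hN2
  rw [cW_one, one_mul] at h1
  have hs : 0 < Real.sqrt Y := by linarith
  have hNp : (0 : ℝ) < N := lt_of_lt_of_le (by positivity) hN1
  have h2 : ‖∑ n ∈ Icc 1 N, tw (f Y) (1 : DirichletCharacter ℂ Q) n‖ ≤ N := by
    refine (norm_sum_le _ _).trans ?_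
    calc ∑ n ∈ Icc 1 N, ‖tw (f Y) (1 : DirichletCharacter ℂ Q) n‖ ≤ ∑ _n ∈ Icc 1 N, (1 : ℝ) :=
          sum_le_sum fun n _ => (cf_tw (hf.cf Y) _).le n
      _ = N := by simp
  have h3 := norm_sub_norm_le ((Q.totient : ℂ) / Q * N * HX Q (f Y) (1 : DirichletCharacter ℂ Q) N)
    (∑ n ∈ Icc 1 N, tw (f Y) (1 : DirichletCharacter ℂ Q) n)
  rw [norm_sub_rev] at h3
  have h4 : ‖(Q.totient : ℂ) / Q * N * HX Q (f Y) (1 : DirichletCharacter ℂ Q) N‖ =
      c0 * N * ‖HX Q (f Y) (1 : DirichletCharacter ℂ Q) N‖ := by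
    rw [norm_mul, norm_mul, norm_div, Complex.norm_natCast, Complex.norm_natCast, Complex.norm_natCast]
  rw [h4] at h3
  have h5 : Real.sqrt Y ≤ K * N := by
    rw [div_le_iff₀ hK0] at hN1
    linarith
  have h6 : c0 * N * ‖HX Q (f Y) (1 : DirichletCharacter ℂ Q) N‖ ≤ (1 + K) * N := by linarith
  rw [le_div_iff₀ hc0p]
  have h7 : (c0 * ‖HX Q (f Y) (1 : DirichletCharacter ℂ Q) N‖) * N ≤ (1 + K) * N := by linarith
  have h8 := le_of_mul_le_mul_right h7 hNp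
  linarith

theorem mf_HX (hQ : 0 < Q) [NeZero Q] (hf : FS Q 1 f) (η : ℝ) (hη : 0 < η) : ∀ᶠ Y : ℝ in atTop,
    ‖HX Q (f Y) (1 : DirichletCharacter ℂ Q) ⌊Real.sqrt Y⌋₊ - mf Q f Y‖ ≤ η := by
  obtain ⟨B, hB, hbd⟩ := HX_bd hQ hf 2 (by norm_num)
  obtain ⟨c, hc, hlow⟩ := f00_low hQ
  filter_upwards [hbd, hlow, mv_ev hQ hf dvd_rfl (1 : DirichletCharacter ℂ Q) 1 (η * c / 2) le_rfl (by positivity),
    sqrt_atTop.eventually (eventually_ge_atTop (max 2 (B * (4 * Q) / (η * c / 2))))] with Y h1 h2 h3 h4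
  have hs2 : 2 ≤ Real.sqrt Y := (le_max_left _ _).trans h4
  have hs3 : B * (4 * Q) / (η * c / 2) ≤ Real.sqrt Y := (le_max_right _ _).trans h4
  rw [div_le_iff₀ (by positivity)] at hs3
  have hfl := Nat.floor_le (show 0 ≤ Real.sqrt Y by linarith)
  have hfl2 := Nat.lt_floor_add_one (Real.sqrt Y)
  set N := ⌊Real.sqrt Y⌋₊ with hN
  have hb := h1 N (by linarith) (by linarith)
  have hm := h3 N (by linarith)
  rw [cW_one] at hm
  have hf1 : ∑ n ∈ Icc 1 N, tw (f Y) (1 : DirichletCharacter ℂ Q) n = ∑ n ∈ Icc 1 N, f Y n :=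
    sum_congr rfl fun n _ => tw_one hf Y n
  rw [hf1] at hm
  have h00 := f00_sum hQ N
  set S := ∑ n ∈ Icc 1 N, f Y n with hS
  set S0 := ∑ n ∈ Icc 1 N, f00 Q n with hS0
  set H := HX Q (f Y) (1 : DirichletCharacter ℂ Q) N with hH
  have hS0p : 0 < ‖S0‖ := lt_of_lt_of_le (by positivity) h2
  have hS0n : S0 ≠ 0 := norm_pos_iff.1 hS0p
  have e1 : H - mf Q f Y = (H * S0 - S) / S0 := by
    unfold mf
    rw [← hN, ← hS, ← hS0]
    field_simp
  have e2 : H * S0 - S = H * (S0 - N * ((Q.totient : ℂ) / Q)) - (S - (Q.totient : ℂ) / Q * N * H) := by ring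
  rw [e1, norm_div, div_le_iff₀ hS0p, e2]
  refine (norm_sub_le _ _).trans ?_
  rw [norm_mul]
  have h5 : ‖H‖ * ‖S0 - N * ((Q.totient : ℂ) / Q)‖ ≤ B * (4 * Q) :=
    mul_le_mul hb h00 (norm_nonneg _) hB.le
  have h6 : η * (c * Real.sqrt Y) ≤ η * ‖S0‖ := mul_le_mul_of_nonneg_left h2 hη.le
  nlinarith

/-- mean values with characters, `z = 1` -/
theorem mv_one (hQ : 0 < Q) (hf : FS Q 1 f) {W : ℕ} [NeZero W] (hQW : Q ∣ W) (χ : DirichletCharacter ℂ W) (K η : ℝ)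
    (hK : 1 ≤ K) (hη : 0 < η) : ∀ᶠ Y : ℝ in atTop, ∀ N : ℕ, Real.sqrt Y / K ≤ N → (N : ℝ) ≤ K * Real.sqrt Y →
    ‖∑ n ∈ Icc 1 N, (tw (f Y) χ n - mf Q f Y * χ (n : ZMod W))‖ ≤ η * Real.sqrt Y := by
  have hQn : NeZero Q := ⟨hQ.ne'⟩
  have hW : (0 : ℝ) < W := by exact_mod_cast NeZero.pos W
  have hK0 : 0 < K := by linarith
  by_cases hχ : χ = 1
  · subst hχ
    obtain ⟨κ, hκ, hpar⟩ := fs_par hQ hf
    filter_upwards [mv_ev hQ hf hQW (1 : DirichletCharacter ℂ W) K (η / 4) hK (by positivity),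
      mf_HX hQ hf (η / (4 * K)) (by positivity), HS_ev hQ hf (max K 1) (η / (8 * K * (K + 1))) (le_max_right _ _) (by positivity),
      eventually_ge_atTop 1, (tendsto_rpow_atTop hκ).eventually (eventually_ge_atTop (max (W : ℝ) Q)),
      sqrt_atTop.eventually (eventually_ge_atTop (max 2 ((4 * W) / (η / 4))))] with Y h1 h2 h3 h4 h5 h6 N hN1 hN2
    have hs2 : 2 ≤ Real.sqrt Y := (le_max_left _ _).trans h6
    have hs3 : (4 * W) / (η / 4) ≤ Real.sqrt Y := (le_max_right _ _).trans h6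
    rw [div_le_iff₀ (by positivity)] at hs3
    have hfl := Nat.floor_le (show 0 ≤ Real.sqrt Y by linarith)
    have hfl2 := Nat.lt_floor_add_one (Real.sqrt Y)
    obtain ⟨hcf, hzr, hpr⟩ := hpar Y h4
    set N0 := ⌊Real.sqrt Y⌋₊ with hN0
    have hHW := HX_one hcf hzr hpr ((le_max_left _ _).trans h5) ((le_max_right _ _).trans h5) (W := W) N
    have hmain := h1 N hN2
    rw [hHW] at hmain
    have hchi := chi_sum (1 : DirichletCharacter ℂ W) N
    have hmfb := mf_le_one hf Y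
    have hcWb := cW_le (NeZero.pos W) (1 : DirichletCharacter ℂ W)
    -- slow variation
    have hKr : Real.sqrt Y / K ≤ Real.sqrt Y := div_le_self (by linarith) hK
    have hslow : ‖HX Q (f Y) (1 : DirichletCharacter ℂ Q) N - HX Q (f Y) (1 : DirichletCharacter ℂ Q) N0‖ ≤ η / (4 * K) := by
      have hmk : 1 ≤ max K 1 := le_max_right _ _
      have hHSb : ∀ M : ℕ, (M : ℝ) ≤ max K 1 * Real.sqrt Y → ∀ M' : ℕ, Real.sqrt Y / (2 * K) ≤ M' →
          HS Q (f Y) M / M' ≤ η / (4 * K) := by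
        intro M hM M' hM'
        have hM'p : (0 : ℝ) < M' := lt_of_lt_of_le (by positivity) hM'
        rw [div_le_iff₀ hM'p]
        refine (h3 M hM).trans ?_
        have e1 : η / (8 * K * (K + 1)) * Real.sqrt Y ≤ η / (8 * K) * (Real.sqrt Y / K) := by
          have : η / (8 * K * (K + 1)) * Real.sqrt Y = η / (8 * K) * (Real.sqrt Y / (K + 1)) := by
            field_simp
          rw [this]
          refine mul_le_mul_of_nonneg_left ?_ (by positivity)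
          exact div_le_div_of_nonneg_left (by linarith) hK0 (by linarith)
        have e2 : η / (8 * K) * (Real.sqrt Y / K) = η / (4 * K) * (Real.sqrt Y / (2 * K)) := by
          field_simp
          ring
        rw [e2] at e1
        exact e1.trans (mul_le_mul_of_nonneg_left hM' (by positivity))
      have hN0a : Real.sqrt Y / (2 * K) ≤ N0 := by
        rw [div_le_iff₀ (by positivity)]
        nlinarith
      have hNa : Real.sqrt Y / (2 * K) ≤ N := by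
        refine le_trans ?_ hN1
        exact div_le_div_of_nonneg_left (by linarith) hK0 (by linarith)
      have hN0p : 1 ≤ N0 := by
        have : (0 : ℝ) < N0 := by linarith
        exact_mod_cast this
      have hNp : 1 ≤ N := by
        have : (0 : ℝ) < N := lt_of_lt_of_le (by positivity) hN1
        exact_mod_cast this
      have hNb : (N : ℝ) ≤ max K 1 * Real.sqrt Y :=
        hN2.trans (mul_le_mul_of_nonneg_right (le_max_left _ _) (by linarith))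
      have hN0b : (N0 : ℝ) ≤ max K 1 * Real.sqrt Y :=
        hfl.trans (le_mul_of_one_le_left (by linarith) hmk)
      rcases le_total N0 N with hle | hle
      · exact (HX_slow Q (f Y) _ hN0p hle).trans (hHSb N hNb N0 hN0a)
      · rw [norm_sub_rev]
        exact (HX_slow Q (f Y) _ hNp hle).trans (hHSb N0 hN0b N hNa)
    have hH : ‖HX Q (f Y) (1 : DirichletCharacter ℂ Q) N - mf Q f Y‖ ≤ η / (2 * K) := by
      have e1 : HX Q (f Y) (1 : DirichletCharacter ℂ Q) N - mf Q f Y =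
          (HX Q (f Y) (1 : DirichletCharacter ℂ Q) N - HX Q (f Y) (1 : DirichletCharacter ℂ Q) N0) +
          (HX Q (f Y) (1 : DirichletCharacter ℂ Q) N0 - mf Q f Y) := by ring
      rw [e1]
      refine (norm_add_le _ _).trans ?_
      have e2 : η / (2 * K) = η / (4 * K) + η / (4 * K) := by
        field_simp
        ring
      rw [e2]
      exact add_le_add hslow h2
    rw [sum_sub_distrib, ← mul_sum]
    set S := ∑ n ∈ Icc 1 N, tw (f Y) (1 : DirichletCharacter ℂ W) n with hS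
    set S1 := ∑ n ∈ Icc 1 N, (1 : DirichletCharacter ℂ W) (n : ZMod W) with hS1
    set H := HX Q (f Y) (1 : DirichletCharacter ℂ Q) N with hHd
    set cw := cW (1 : DirichletCharacter ℂ W) with hcw
    have e1 : S - mf Q f Y * S1 = (S - cw * N * H) + cw * N * (H - mf Q f Y) + mf Q f Y * (-(S1 - N * cw)) := by ring
    rw [e1]
    refine (norm_add_le _ _).trans ?_
    refine (add_le_add (norm_add_le _ _) le_rfl).trans ?_
    rw [norm_mul, norm_mul, norm_mul, norm_neg, Complex.norm_natCast]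
    have h7 : ‖cw‖ * N * ‖H - mf Q f Y‖ ≤ 1 * (K * Real.sqrt Y) * (η / (2 * K)) := by
      gcongr
    have h8 : 1 * (K * Real.sqrt Y) * (η / (2 * K)) = η / 2 * Real.sqrt Y := by
      field_simp
    have h9 : ‖mf Q f Y‖ * ‖S1 - N * cw‖ ≤ 1 * (4 * W) :=
      mul_le_mul hmfb hchi (norm_nonneg _) zero_le_one
    linarith
  · filter_upwards [mv_ev hQ hf hQW χ K (η / 2) hK (by positivity),
      sqrt_atTop.eventually (eventually_ge_atTop ((4 * W) / (η / 2)))] with Y h1 h2 N _ hN2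
    rw [div_le_iff₀ (by positivity)] at h2
    have hmain := h1 N hN2
    rw [cW_zero χ hχ, zero_mul, zero_mul, sub_zero] at hmain
    have hchi := chi_sum χ N
    rw [cW_zero χ hχ, mul_zero, sub_zero] at hchi
    have hmfb := mf_le_one hf Y
    rw [sum_sub_distrib, ← mul_sum]
    refine (norm_sub_le _ _).trans ?_
    rw [norm_mul]
    have h9 : ‖mf Q f Y‖ * ‖∑ n ∈ Icc 1 N, χ (n : ZMod W)‖ ≤ 1 * (4 * W) :=
      mul_le_mul hmfb hchi (norm_nonneg _) zero_le_one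
    linarith

end one

end Pool.Agent.SplB
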