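import Pool.Agent.Lib_MP_92ef0c_sp.SDefs0
import Pool.Agent.Lib_MP_f1a94e_mr.Basic

/-!
# MP_92ef0c_nt, split twin of the joint law: families and the interface of block B
-/

set_option autoImplicit false

namespace Pool.Agent.SplB

open Finset Pool.Agent.Spl MeasureTheory Filter

/-- families of completely multiplicative functions bounded by one, zero at the primes dividing `Q`, equal to `z` at the
other primes up to a power of the index -/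
structure FS (Q : ℕ) (z : ℂ) (f : ℝ → ℕ → ℂ) : Prop where
  mul : ∀ Y m n, f Y (m * n) = f Y m * f Y n
  bd : ∀ Y n, ‖f Y n‖ ≤ 1
  one : ∀ Y, f Y 1 = 1
  zr : ∀ Y (p : ℕ), p.Prime → p ∣ Q → f Y p = 0
  pr : ∃ κ : ℝ, 0 < κ ∧ ∀ Y : ℝ, 1 ≤ Y → ∀ p : ℕ, p.Prime → ¬ p ∣ Q → (p : ℝ) ≤ Y ^ κ → f Y p = z

open Classical in
/-- the indicator of the numbers coprime to `Q` -/
noncomputable def f00 (Q : ℕ) (n : ℕ) : ℂ := if n = 0 ∨ ¬ n.Coprime Q then 0 else 1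

/-- the mean value of `f Y` relative to `f00 Q` at `√Y` -/
noncomputable def mf (Q : ℕ) (f : ℝ → ℕ → ℂ) (Y : ℝ) : ℂ :=
  (∑ n ∈ Icc 1 ⌊Real.sqrt Y⌋₊, f Y n) / ∑ n ∈ Icc 1 ⌊Real.sqrt Y⌋₊, f00 Q n

/-- the sum over an arc and a residue class -/
noncomputable def S2 (F : ℕ × ℕ → ℂ) (m : ℕ) (b : ℕ × ℕ) (C D δ τ : ℝ) : ℂ :=
  ∑ z ∈ (PB C D).filter (fun z => (z.1 ≡ b.1 [MOD m] ∧ z.2 ≡ b.2 [MOD m]) ∧ τ ≤ dirn z ∧ dirn z < τ + δ), F z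

/-- product function on pairs -/
def pf (f g : ℕ → ℂ) (z : ℕ × ℕ) : ℂ := f z.1 * g z.2

/-- Matomaki-Radziwill in arcs for the centred product of two families -/
def MRB (Q : ℕ) (f g : ℝ → ℕ → ℂ) (μ : ℝ → ℂ) : Prop :=
  ∀ m : ℕ, 0 < m → ∀ b : ℕ × ℕ, ∀ K : ℝ, 1 ≤ K → ∀ ε : ℝ, 0 < ε → ∃ H0 : ℝ, 0 < H0 ∧ ∀ H : ℝ, H0 ≤ H →
    ∀ a : ℝ, 0 < a → ∀ᶠ X : ℝ in atTop,
    ∫ τ, ‖S2 (fun z => pf (f (a * X)) (g (a * X)) z - μ (a * X) * pf (f00 Q) (f00 Q) z) m b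
      (Real.sqrt X) (K * Real.sqrt X) (H / X) τ‖ ^ 2 ≤ ε * H ^ 2

end Pool.Agent.SplB
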