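import Pool.Agent.Lib_MP_92ef0c_lb.BDefs

/-!
# Block B: the statements of `ptw_u` and `low_pair` (only to keep the import graph flat)
-/

set_option autoImplicit false

namespace Pool.Agent.SplB

open Finset Pool.Agent.Spl Pool.Agent.SplI MeasureTheory Filter

/-- the centring constant: zero if `z ≠ 1` -/
noncomputable def mz (Q : ℕ) (z : ℂ) (f : ℝ → ℕ → ℂ) (Y : ℝ) : ℂ := open Classical in if z = 1 then mf Q f Y else 0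

/-- the statement of `ptw_u` -/
def PtwUS : Prop :=
  ∀ (q : ℕ) (hq : 0 < q) (z : ℂ) (hz : z ^ q = 1) (M : ℕ) [NeZero M] (χ : DirichletCharacter ℂ M)
    (P0 κ : ℝ) (hκ : 0 < κ) (ε : ℝ) (hε : 0 < ε),
    ∃ N0 T1 : ℝ, 1 < N0 ∧ 0 < T1 ∧ ∀ N : ℝ, N0 ≤ N → ∀ f : ℕ → ℂ, Cls z P0 κ N f → ∀ t : ℝ, |t| ≤ N ^ 3 →
      (z = 1 → T1 ≤ |t|) → ‖∑ n ∈ Icc 1 ⌊N⌋₊, tw f χ n * et t n‖ ≤ ε * N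

/-- the statement of `low_pair` -/
def LowPairS : Prop :=
  ∀ {Q : ℕ} (q : ℕ) (hq : 0 < q) (hQ : 0 < Q) {z1 z2 : ℂ} (hz1 : z1 ^ q = 1) (hz2 : z2 ^ q = 1)
    {f g : ℝ → ℕ → ℂ} (hf : FS Q z1 f) (hg : FS Q z2 g) {W1 W2 : ℕ} [NeZero W1] [NeZero W2]
    (hQW1 : Q ∣ W1) (hQW2 : Q ∣ W2) (χ : DirichletCharacter ℂ W1) (ψ : DirichletCharacter ℂ W2) (K T2 ε : ℝ)
    (hT2 : 0 ≤ T2) (hK : 1 ≤ K) (hε : 0 < ε) (a : ℝ) (ha : 0 < a), ∀ᶠ X : ℝ in atTop, ∀ C D : ℝ,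
    Real.sqrt X / K ≤ C → C ≤ K * Real.sqrt X → Real.sqrt X / K ≤ D → D ≤ K * Real.sqrt X → ∀ t : ℝ, |t| ≤ T2 →
    ‖Ps (tw (f (a * X)) χ) (tw (g (a * X)) ψ) C D t - mz Q z1 f (a * X) * mz Q z2 g (a * X) *
      Ps (tw (f00 Q) χ) (tw (f00 Q) ψ) C D t‖ ≤ ε * X

/-- the statement of `hm_large` -/
def HmS : Prop :=
  ∃ δ C X0 : ℝ, 0 < δ ∧ 0 < C ∧ 1 < X0 ∧ ∀ X N : ℝ, X0 ≤ X → X ^ (1 / 4 : ℝ) ≤ N → ∀ S : Finset ℝ, (∀ t ∈ S, |t| ≤ X) →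
    (∀ t ∈ S, ∀ t' ∈ S, t ≠ t' → 1 ≤ |t - t'|) → (S.card : ℝ) ≤ X ^ δ → ∀ a : ℕ → ℂ,
    ∑ t ∈ S, ‖∑ n ∈ Icc 1 ⌊N⌋₊, a n * et t n‖ ^ 2 ≤ C * N * ∑ n ∈ Icc 1 ⌊N⌋₊, ‖a n‖ ^ 2

open Pool.Agent.GaussMR in
/-- the statement of `chainS_st` -/
def ChainStS : Prop :=
  ∀ (ε δ K : ℝ) (hε : 0 < ε) (hδ : 0 < δ) (hK : 1 ≤ K), ∃ Q0 X0 : ℝ, 1 ≤ Q0 ∧ 1 < X0 ∧ ∀ X : ℝ, X0 ≤ X →
    ∀ f g : ℕ → ℂ, (∀ m n, f (m * n) = f m * f n) → (∀ n, ‖f n‖ ≤ 1) → (∀ n, ‖g n‖ ≤ 1) →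
    ∀ C D : ℝ, Real.sqrt X / K ≤ C → C ≤ K * Real.sqrt X → Real.sqrt X / K ≤ D → D ≤ K * Real.sqrt X →
    ∀ N : ℕ, Real.log X ≤ N → (N : ℝ) ≤ 2 * Real.log X → ∀ T : ℕ, (T : ℝ) ≤ N * X / Q0 →
    ∃ S : Finset ℤ, S ⊆ fr T ∧ (S.card : ℝ) ≤ X ^ δ ∧ ∑ k ∈ fr T \ S, ‖Ps f g C D (k / N)‖ ^ 2 ≤ ε * N * X ^ 2

/-- the inputs of block B -/
structure CH : Prop where
  hm : HmS
  chain : ChainStS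
  ptw : PtwUS
  low : LowPairS

end Pool.Agent.SplB
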