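import Pool.Agent.Lib_MP_92ef0c_lb.FewU
import Pool.Agent.Lib_MP_92ef0c_lb.CHyp
import Pool.Agent.Lib_MP_92ef0c_spi.Disc
import Pool.Agent.Lib_MP_f1a94e_ecc.Defs
import Pool.Agent.Lib_MP_f1a94e_mr.SmallJ

/-!
# Block B: mean square of the polynomial of a box, uniform version (port of spi/MeanS.lean)
-/

set_option autoImplicit false

namespace Pool.Agent.SplB

open Finset Pool.Agent.Spl Pool.Agent.SplI MeasureTheory

/-- a continuous cut-off: zero for `|t| ≤ T1`, one for `|t| ≥ T1 + 1` -/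
noncomputable def ct (T1 t : ℝ) : ℝ := max 0 (min 1 (|t| - T1))

theorem ct_nonneg (T1 t : ℝ) : 0 ≤ ct T1 t := le_max_left _ _

theorem ct_le_one (T1 t : ℝ) : ct T1 t ≤ 1 := max_le zero_le_one (min_le_left _ _)

theorem ct_zero {T1 t : ℝ} (h : |t| ≤ T1) : ct T1 t = 0 := by
  unfold ct
  refine max_eq_left ((min_le_right _ _).trans ?_)
  linarith

theorem ct_one {T1 t : ℝ} (h : T1 + 1 ≤ |t|) : ct T1 t = 1 := by
  unfold ct
  rw [min_eq_left (by linarith), max_eq_right zero_le_one]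

theorem ct_cont (T1 : ℝ) : Continuous (ct T1) := by
  unfold ct
  fun_prop

private theorem msu_exp (t : ℝ) (z : ℕ × ℕ) : Complex.exp (((t * dirn z : ℝ) : ℂ) * Complex.I) = et t z.1 * et (-t) z.2 := by
  unfold et dirn
  rw [← Complex.exp_add]
  congr 1
  push_cast
  ring

private theorem msu_add (t u : ℝ) (z : ℕ × ℕ) : Complex.exp ((((t + u) * dirn z : ℝ) : ℂ) * Complex.I) =
    Complex.exp (((t * dirn z : ℝ) : ℂ) * Complex.I) * (et u z.1 * et (-u) z.2) := by
  rw [← msu_exp, ← Complex.exp_add]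
  congr 1
  push_cast
  ring

private theorem msu_shift (f g : ℕ → ℂ) (C D t u : ℝ) : Ps f g C D (t + u) =
    Ps (fun n => if n = 0 then 0 else f n * et u n) (fun n => if n = 0 then 0 else g n * et (-u) n) C D t := by
  unfold Ps
  refine sum_congr rfl fun z hz => ?_
  rw [mem_PB] at hz
  simp only [if_neg hz.1.1.ne', if_neg hz.2.1.1.ne', msu_add]
  ring

open Pool.Agent.GaussMR in
/-- uniform version of `mean_small` -/
theorem mean_u (H : CH) (K ε : ℝ) (hK : 1 ≤ K) (hε : 0 < ε) : ∃ ε1 Q0 X0 : ℝ, 0 < ε1 ∧ 1 ≤ Q0 ∧ 1 < X0 ∧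
    ∀ X : ℝ, X0 ≤ X → ∀ f g : ℕ → ℂ, CF f → CF g → ∀ C D : ℝ, Real.sqrt X / K ≤ C → C ≤ K * Real.sqrt X →
    Real.sqrt X / K ≤ D → D ≤ K * Real.sqrt X → ∀ T1 : ℝ,
    (∀ t : ℝ, T1 ≤ |t| → |t| ≤ X → ∀ N : ℝ, X ^ (1 / 4 : ℝ) ≤ N → N ≤ D → X ≤ N ^ 3 →
      ‖∑ n ∈ Icc 1 ⌊N⌋₊, g n * et t n‖ ≤ ε1 * N) →
    ∫ t in (-(X / Q0))..(X / Q0), ct T1 t * ‖Ps f g C D t‖ ^ 2 ≤ ε * X ^ 2 := by
  classical
  obtain ⟨ε1, δ, X1, hε1, hδ, hX1, hfew⟩ := few_u H K (ε / 4) hK (by positivity)
  obtain ⟨Q1, X2, hQ1, hX2, hch⟩ := H.chain (ε / 4) δ K (by positivity) hδ hK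
  refine ⟨ε1, 4 * Q1, max (max X1 X2) (max (4 * Q1) 4), hε1, by linarith, lt_max_of_lt_left (lt_max_of_lt_left hX1), ?_⟩
  intro X hX f g hf hg C D hC1 hC2 hD1 hD2 T1 hptw
  have hXX1 : X1 ≤ X := ((le_max_left _ _).trans (le_max_left _ _)).trans hX
  have hXX2 : X2 ≤ X := ((le_max_right _ _).trans (le_max_left _ _)).trans hX
  have hXQ : 4 * Q1 ≤ X := ((le_max_left _ _).trans (le_max_right _ _)).trans hX
  have hX4 : 4 ≤ X := ((le_max_right _ _).trans (le_max_right _ _)).trans hX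
  have hX0 : 0 < X := by linarith
  have hQ10 : 0 < Q1 := by linarith
  have hlog : 1 ≤ Real.log X := by
    rw [Real.le_log_iff_exp_le hX0]
    linarith [Real.exp_one_lt_d9]
  set N : ℕ := ⌈Real.log X⌉₊ with hN
  have hN1 : Real.log X ≤ N := Nat.le_ceil _
  have hN2 : (N : ℝ) ≤ 2 * Real.log X := by
    have := Nat.ceil_lt_add_one (show 0 ≤ Real.log X by linarith)
    rw [← hN] at this
    linarith
  have hNr : (1 : ℝ) ≤ N := hlog.trans hN1
  have hNpos : 0 < N := by
    have : (0 : ℝ) < N := by linarith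
    exact_mod_cast this
  set T : ℕ := ⌈(N : ℝ) * (X / (4 * Q1))⌉₊ with hT
  have hT1 : (N : ℝ) * (X / (4 * Q1)) ≤ T := Nat.le_ceil _
  have hT2 : (T : ℝ) < (N : ℝ) * (X / (4 * Q1)) + 1 := Nat.ceil_lt_add_one (by positivity)
  have hXQ1 : 1 ≤ X / (4 * Q1) := by rw [le_div_iff₀ (by positivity)]; linarith
  have hNX : 1 ≤ (N : ℝ) * (X / (4 * Q1)) := by nlinarith
  have hT3 : (T : ℝ) ≤ N * X / Q1 := by
    have h1 : (N : ℝ) * X / Q1 = 4 * (N * (X / (4 * Q1))) := by field_simp
    rw [h1]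
    linarith
  have hXq : X / (4 * Q1) ≤ X / 4 := by
    apply div_le_div_of_nonneg_left hX0.le (by norm_num)
    linarith
  have hTN : ((T : ℝ) + 1) / N ≤ X := by
    rw [div_le_iff₀ (by linarith)]
    have h1 : (T : ℝ) + 1 ≤ 3 * (N * (X / (4 * Q1))) := by linarith
    have h2 : (N : ℝ) * (X / (4 * Q1)) ≤ N * (X / 4) := mul_le_mul_of_nonneg_left hXq (by linarith)
    nlinarith
  have hM : ∀ s : ℝ, 0 ≤ s → s ≤ 1 → ∑ k ∈ fr T, ct T1 ((k + s) / N) * ‖Ps f g C D ((k + s) / N)‖ ^ 2 ≤ ε / 2 * N * X ^ 2 := by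
    intro s hs0 hs1
    set fs : ℕ → ℂ := fun n => if n = 0 then 0 else f n * et (s / N) n with hfs
    set gs : ℕ → ℂ := fun n => if n = 0 then 0 else g n * et (-(s / N)) n with hgs
    have hfm : ∀ m n, fs (m * n) = fs m * fs n := by
      intro m n
      simp only [hfs]
      by_cases hm : m = 0
      · simp [hm]
      by_cases hn : n = 0
      · simp [hn]
      rw [if_neg (mul_ne_zero hm hn), if_neg hm, if_neg hn, hf.mul m n hm hn, et_mul _ hm hn]
      ring
    have hfb : ∀ n, ‖fs n‖ ≤ 1 := by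
      intro n
      simp only [hfs]
      split_ifs
      · simp
      · rw [norm_mul, norm_et, mul_one]; exact hf.le n
    have hgb : ∀ n, ‖gs n‖ ≤ 1 := by
      intro n
      simp only [hgs]
      split_ifs
      · simp
      · rw [norm_mul, norm_et, mul_one]; exact hg.le n
    obtain ⟨S, hS, hSc, hSs⟩ := hch X hXX2 fs gs hfm hfb hgb C D hC1 hC2 hD1 hD2 N hN1 hN2 T hT3
    have hsh : ∀ k : ℤ, Ps f g C D ((k + s) / N) = Ps fs gs C D (k / N) := by
      intro k
      rw [add_div, msu_shift]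
    have h1 : ∑ k ∈ fr T \ S, ct T1 ((k + s) / N) * ‖Ps f g C D ((k + s) / N)‖ ^ 2 ≤ ε / 4 * N * X ^ 2 := by
      refine (sum_le_sum fun k _ => ?_).trans hSs
      rw [← hsh]
      exact mul_le_of_le_one_left (by positivity) (ct_le_one _ _)
    set S' : Finset ℤ := S.filter (fun k => T1 ≤ |((k : ℝ) + s) / N|) with hS'
    have hS'S : S' ⊆ S := filter_subset _ _
    have h1' : ∑ k ∈ S, ct T1 ((k + s) / N) * ‖Ps f g C D ((k + s) / N)‖ ^ 2 ≤
        ∑ k ∈ S', ‖Ps f g C D ((k + s) / N)‖ ^ 2 := by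
      rw [hS', sum_filter]
      refine sum_le_sum fun k _ => ?_
      split_ifs with hk
      · exact mul_le_of_le_one_left (by positivity) (ct_le_one _ _)
      · rw [ct_zero (not_le.1 hk).le, zero_mul]
    -- the exceptional frequencies
    have h2 : ∑ k ∈ S', ‖Ps f g C D ((k + s) / N)‖ ^ 2 ≤ ε / 4 * N * X ^ 2 := by
      have h3 : ∑ k ∈ S', ‖Ps f g C D ((k + s) / N)‖ ^ 2 =
          ∑ r ∈ range N, ∑ k ∈ S'.filter (fun k => (k % (N : ℤ)).toNat = r), ‖Ps f g C D ((k + s) / N)‖ ^ 2 := by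
        rw [sum_fiberwise_of_maps_to]
        intro k _
        rw [mem_range]
        have h4 := Int.emod_lt_of_pos k (show (0 : ℤ) < N by exact_mod_cast hNpos)
        have h5 := Int.emod_nonneg k (show (N : ℤ) ≠ 0 by exact_mod_cast hNpos.ne')
        omega
      rw [h3]
      have h4 : ∀ r ∈ range N, ∑ k ∈ S'.filter (fun k => (k % (N : ℤ)).toNat = r), ‖Ps f g C D ((k + s) / N)‖ ^ 2 ≤ ε / 4 * X ^ 2 := by
        intro r _
        have hinj : Function.Injective (fun k : ℤ => ((k : ℝ) + s) / N) := by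
          intro k k' hkk
          simp only at hkk
          rw [div_left_inj' (by linarith)] at hkk
          have : (k : ℝ) = k' := by linarith
          exact_mod_cast this
        have h5 := hfew X hXX1 f g hf hg C D hC1 hC2 hD1 hD2
          ((S'.filter (fun k => (k % (N : ℤ)).toNat = r)).image (fun k : ℤ => ((k : ℝ) + s) / N)) ?_ ?_ ?_ ?_
        · rwa [sum_image (fun k _ k' _ h => hinj h)] at h5
        · intro t ht
          rw [mem_image] at ht
          obtain ⟨k, hk, rfl⟩ := ht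
          have h6 := mem_fr.1 (hS (hS'S (mem_filter.1 hk).1))
          have h7 : -(T : ℝ) ≤ k := by exact_mod_cast h6.1
          have h8 : (k : ℝ) ≤ T := by exact_mod_cast h6.2
          rw [abs_div, abs_of_pos (show (0 : ℝ) < N by linarith)]
          refine (div_le_div_of_nonneg_right ?_ (by linarith)).trans hTN
          rw [abs_le]
          constructor <;> linarith
        · intro t ht t' ht' hne
          rw [mem_image] at ht ht'
          obtain ⟨k, hk, rfl⟩ := ht
          obtain ⟨k', hk', rfl⟩ := ht'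
          have hkk : k ≠ k' := by
            rintro rfl
            exact hne rfl
          have h6 := (mem_filter.1 hk).2
          have h7 := (mem_filter.1 hk').2
          have h8 : k % (N : ℤ) = k' % (N : ℤ) := by
            have a1 := Int.emod_nonneg k (show (N : ℤ) ≠ 0 by exact_mod_cast hNpos.ne')
            have a2 := Int.emod_nonneg k' (show (N : ℤ) ≠ 0 by exact_mod_cast hNpos.ne')
            omega
          have h9 : (N : ℤ) ∣ k - k' := by
            exact Int.dvd_of_emod_eq_zero (by rw [Int.sub_emod, h8]; simp)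
          have h10 : (N : ℤ) ≤ |k - k'| := Int.le_of_dvd (abs_pos.2 (sub_ne_zero.2 hkk)) ((dvd_abs _ _).2 h9)
          have h11 : (N : ℝ) ≤ |(k : ℝ) - k'| := by exact_mod_cast h10
          have h12 : ((k : ℝ) + s) / N - ((k' : ℝ) + s) / N = ((k : ℝ) - k') / N := by ring
          rw [h12, abs_div, abs_of_pos (show (0 : ℝ) < N by linarith), le_div_iff₀ (by linarith), one_mul]
          exact h11
        · refine le_trans ?_ hSc
          exact_mod_cast (card_image_le.trans (card_filter_le _ _)).trans (card_le_card hS'S)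
        · intro t ht M hM1 hM2 hM3
          rw [mem_image] at ht
          obtain ⟨k, hk, rfl⟩ := ht
          have h6 := mem_fr.1 (hS (hS'S (mem_filter.1 hk).1))
          have h7 : -(T : ℝ) ≤ k := by exact_mod_cast h6.1
          have h8 : (k : ℝ) ≤ T := by exact_mod_cast h6.2
          have h9 : |((k : ℝ) + s) / N| ≤ X := by
            rw [abs_div, abs_of_pos (show (0 : ℝ) < N by linarith)]
            refine (div_le_div_of_nonneg_right ?_ (by linarith)).trans hTN
            rw [abs_le]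
            constructor <;> linarith
          have h10 : T1 ≤ |((k : ℝ) + s) / N| := (mem_filter.1 (mem_filter.1 hk).1).2
          exact hptw _ (by rw [abs_neg]; exact h10) (by rw [abs_neg]; exact h9) M hM1 hM2 hM3
      calc ∑ r ∈ range N, ∑ k ∈ S'.filter (fun k => (k % (N : ℤ)).toNat = r), ‖Ps f g C D ((k + s) / N)‖ ^ 2
          ≤ ∑ _r ∈ range N, ε / 4 * X ^ 2 := sum_le_sum h4
        _ = ε / 4 * N * X ^ 2 := by rw [sum_const, card_range, nsmul_eq_mul]; ring
    rw [← sum_sdiff hS]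
    linarith
  have hfin := disc (fun t => ct T1 t * ‖Ps f g C D t‖ ^ 2) ((ct_cont T1).mul ((ps_cont f g C D).norm.pow 2))
    (fun t => mul_nonneg (ct_nonneg _ _) (sq_nonneg _)) N T hNpos
    (X / (4 * Q1)) (by positivity) hT1 (ε / 2 * N * X ^ 2) hM
  refine hfin.trans ?_
  rw [div_le_iff₀ (by linarith)]
  have : 0 ≤ ε / 2 * N * X ^ 2 := by positivity
  nlinarith

end Pool.Agent.SplB
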