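import Pool.Agent.Lib_MP_92ef0c_lb.CHyp
import Pool.Agent.Lib_MP_92ef0c_lb.MVal2
import Pool.Agent.Lib_MP_92ef0c_lb.MeanU

/-!
# Block B: mean square of the centred polynomial of a box, arcs of bounded length
-/

set_option autoImplicit false

namespace Pool.Agent.SplB

open Finset Pool.Agent.Spl Pool.Agent.SplI MeasureTheory Filter

variable {Q : ℕ}

/-- high frequencies, uniform in the class -/
theorem high_cls (H : CH) (q : ℕ) (hq : 0 < q) {z : ℂ} (hz : z ^ q = 1) {M : ℕ} [NeZero M] (ψ : DirichletCharacter ℂ M)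
    (P0 κ K ε : ℝ) (hκ : 0 < κ) (hK : 1 ≤ K) (hε : 0 < ε) : ∃ Q0 T1 X0 : ℝ, 1 ≤ Q0 ∧ 0 < T1 ∧ 1 < X0 ∧ ∀ X : ℝ, X0 ≤ X →
    ∀ f g : ℕ → ℂ, CF f → Cls z P0 κ (K * Real.sqrt X) g → ∀ C D : ℝ, Real.sqrt X / K ≤ C → C ≤ K * Real.sqrt X →
    Real.sqrt X / K ≤ D → D ≤ K * Real.sqrt X → ∀ T : ℝ, T1 ≤ T →
    ∫ t in (-(X / Q0))..(X / Q0), ct T t * ‖Ps f (tw g ψ) C D t‖ ^ 2 ≤ ε * X ^ 2 := by
  obtain ⟨ε1, Q0, X1, hε1, hQ0, hX1, h1⟩ := mean_u H K ε hK hε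
  obtain ⟨N0, T1, hN0, hT1, h2⟩ := H.ptw q hq z hz M ψ P0 κ hκ ε1 hε1
  refine ⟨Q0, T1, max X1 (N0 ^ 4), hQ0, hT1, lt_max_of_lt_left hX1, fun X hX f g hf hg C D hC1 hC2 hD1 hD2 T hT => ?_⟩
  have hXX1 : X1 ≤ X := (le_max_left _ _).trans hX
  have hXN : N0 ^ 4 ≤ X := (le_max_right _ _).trans hX
  have hX0 : 0 < X := by linarith
  refine h1 X hXX1 f (tw g ψ) hf (cf_tw hg.cf ψ) C D hC1 hC2 hD1 hD2 T fun t ht1 ht2 N hN1 hN2 hN3 => ?_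
  have hN0N : N0 ≤ N := by
    refine le_trans ?_ hN1
    have h3 : (N0 ^ 4) ^ (1 / 4 : ℝ) = N0 := by
      rw [← Real.rpow_natCast, ← Real.rpow_mul (by linarith)]
      norm_num
    rw [← h3]
    exact Real.rpow_le_rpow (by positivity) hXN (by norm_num)
  refine h2 N hN0N g (hg.mono (by linarith) hκ.le (hN2.trans hD2)) t (ht2.trans hN3) fun _ => hT.trans ht1

theorem cls_f00 (hQ : 0 < Q) (κ N : ℝ) : Cls 1 Q κ N (f00 Q) := by
  refine ⟨cf_f00 Q, fun p hp h1 _ => f00_coprime hp.ne_zero ?_⟩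
  rw [Nat.Prime.coprime_iff_not_dvd hp]
  intro hpQ
  have h2 := Nat.le_of_dvd hQ hpQ
  have h3 : Q < p := by exact_mod_cast h1
  omega

private theorem core_low (T L : ℝ) : ∫ t in (-L)..L, (1 + (T + 1) ^ 2) * (1 / (1 + t ^ 2)) ≤ 4 * (1 + (T + 1) ^ 2) := by
  rw [intervalIntegral.integral_const_mul, integral_one_div_one_add_sq]
  have h1 := Real.arctan_lt_pi_div_two L
  have h2 := Real.neg_pi_div_two_lt_arctan (-L)
  have h3 := Real.pi_le_four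
  have h4 : 0 ≤ 1 + (T + 1) ^ 2 := by positivity
  nlinarith

private theorem core_ct (T t : ℝ) (hT : 0 ≤ T) : 1 - ct T t ≤ (1 + (T + 1) ^ 2) * (1 / (1 + t ^ 2)) := by
  have h0 : (0 : ℝ) < 1 + t ^ 2 := by positivity
  by_cases h : T + 1 ≤ |t|
  · rw [ct_one h, sub_self]
    positivity
  · push Not at h
    have h1 : t ^ 2 ≤ (T + 1) ^ 2 := by
      rw [← sq_abs t]
      exact pow_le_pow_left₀ (abs_nonneg _) h.le 2
    have h2 : 1 ≤ (1 + (T + 1) ^ 2) * (1 / (1 + t ^ 2)) := by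
      rw [mul_one_div, le_div_iff₀ h0]
      linarith
    have h3 := ct_nonneg T t
    linarith

theorem core_mz_le {Q : ℕ} {z : ℂ} {f : ℝ → ℕ → ℂ} (hf : FS Q z f) (Y : ℝ) : ‖mz Q z f Y‖ ≤ 1 := by
  unfold mz
  split_ifs
  · exact mf_le_one hf Y
  · simp

/-- mean square of the centred polynomial of a box -/
theorem core (H : CH) (q : ℕ) (hq : 0 < q) (hQ : 0 < Q) {z1 z2 : ℂ} (hz1 : z1 ^ q = 1) (hz2 : z2 ^ q = 1)
    {f g : ℝ → ℕ → ℂ} (hf : FS Q z1 f) (hg : FS Q z2 g) {W1 W2 : ℕ} [NeZero W1] [NeZero W2]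
    (hQW1 : Q ∣ W1) (hQW2 : Q ∣ W2) (χ : DirichletCharacter ℂ W1) (ψ : DirichletCharacter ℂ W2) (K ε : ℝ)
    (hK : 1 ≤ K) (hε : 0 < ε) : ∃ Q0 : ℝ, 1 ≤ Q0 ∧ ∀ a : ℝ, 0 < a → ∀ᶠ X : ℝ in atTop, ∀ C D : ℝ,
    Real.sqrt X / K ≤ C → C ≤ K * Real.sqrt X → Real.sqrt X / K ≤ D → D ≤ K * Real.sqrt X →
    ∫ t in (-(X / Q0))..(X / Q0), ‖Ps (tw (f (a * X)) χ) (tw (g (a * X)) ψ) C D t - mz Q z1 f (a * X) * mz Q z2 g (a * X) *
      Ps (tw (f00 Q) χ) (tw (f00 Q) ψ) C D t‖ ^ 2 ≤ ε * X ^ 2 := by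
  obtain ⟨κ, hκ, _, hcls⟩ := hg.cls hQ
  obtain ⟨Q1, T1, X1, hQ1, hT1, hX1, h1⟩ := high_cls H q hq hz2 ψ Q κ K (ε / 8) hκ hK (by positivity)
  obtain ⟨Q2, T2, X2, hQ2, hT2, hX2, h2⟩ := high_cls H 1 one_pos (one_pow 1) ψ Q κ K (ε / 8) hκ hK (by positivity)
  obtain ⟨T, hT⟩ : ∃ T, T = max T1 T2 := ⟨_, rfl⟩
  have hTT1 : T1 ≤ T := by rw [hT]; exact le_max_left _ _
  have hTT2 : T2 ≤ T := by rw [hT]; exact le_max_right _ _
  have hT0 : 0 < T := by linarith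
  obtain ⟨Q0, hQ0⟩ : ∃ Q0, Q0 = max Q1 Q2 := ⟨_, rfl⟩
  have hQ01 : Q1 ≤ Q0 := by rw [hQ0]; exact le_max_left _ _
  have hQ02 : Q2 ≤ Q0 := by rw [hQ0]; exact le_max_right _ _
  obtain ⟨ε2, hε2⟩ : ∃ ε2, ε2 = min 1 (ε / (8 * (1 + (T + 1) ^ 2))) := ⟨_, rfl⟩
  have hε20 : 0 < ε2 := by rw [hε2]; exact lt_min one_pos (by positivity)
  have hε21 : ε2 ≤ 1 := by rw [hε2]; exact min_le_left _ _
  have hε22 : ε2 * (8 * (1 + (T + 1) ^ 2)) ≤ ε := by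
    have : ε2 ≤ ε / (8 * (1 + (T + 1) ^ 2)) := by rw [hε2]; exact min_le_right _ _
    rwa [le_div_iff₀ (by positivity)] at this
  refine ⟨Q0, hQ1.trans hQ01, fun a ha => ?_⟩
  filter_upwards [H.low q hq hQ hz1 hz2 hf hg hQW1 hQW2 χ ψ K (T + 1) ε2 (by linarith) hK hε20 a ha,
    eventually_ge_atTop X1, eventually_ge_atTop X2, eventually_ge_atTop (1 / a),
    sqrt_atTop.eventually (eventually_ge_atTop (K / a))] with X hlow hXX1 hXX2 hXa hXs C D hC1 hC2 hD1 hD2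
  have hX0 : 0 < X := by linarith
  have hsX : 0 < Real.sqrt X := Real.sqrt_pos.2 hX0
  have haX : 1 ≤ a * X := by
    rw [div_le_iff₀ ha] at hXa
    linarith
  have hKaX : K * Real.sqrt X ≤ a * X := by
    rw [div_le_iff₀ ha] at hXs
    calc K * Real.sqrt X ≤ (Real.sqrt X * a) * Real.sqrt X := mul_le_mul_of_nonneg_right hXs hsX.le
      _ = a * (Real.sqrt X * Real.sqrt X) := by ring
      _ = a * X := by rw [Real.mul_self_sqrt hX0.le]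
  have hgc : Cls z2 Q κ (K * Real.sqrt X) (g (a * X)) := (hcls _ haX).2 _ (by positivity) hKaX
  obtain ⟨m, hm⟩ : ∃ m, m = mz Q z1 f (a * X) * mz Q z2 g (a * X) := ⟨_, rfl⟩
  have hm1 : ‖m‖ ≤ 1 := by
    rw [hm, norm_mul]
    exact mul_le_one₀ (core_mz_le hf _) (norm_nonneg _) (core_mz_le hg _)
  rw [← hm] at hlow ⊢
  obtain ⟨F, hF⟩ : ∃ F : ℝ → ℂ, F = Ps (tw (f (a * X)) χ) (tw (g (a * X)) ψ) C D := ⟨_, rfl⟩
  obtain ⟨G, hG⟩ : ∃ G : ℝ → ℂ, G = Ps (tw (f00 Q) χ) (tw (f00 Q) ψ) C D := ⟨_, rfl⟩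
  have hFc : Continuous F := by rw [hF]; exact ps_cont _ _ _ _
  have hGc : Continuous G := by rw [hG]; exact ps_cont _ _ _ _
  have i1 := h1 X hXX1 _ _ (cf_tw (hf.cf (a * X)) χ) hgc C D hC1 hC2 hD1 hD2 T hTT1
  have i2 := h2 X hXX2 _ _ (cf_tw (cf_f00 Q) χ) (cls_f00 hQ κ (K * Real.sqrt X)) C D hC1 hC2 hD1 hD2 T hTT2
  have i3 := hlow C D hC1 hC2 hD1 hD2
  rw [← hF] at i1
  rw [← hG] at i2
  rw [← hF, ← hG] at i3
  simp only [← hF, ← hG]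
  obtain ⟨L, hL⟩ : ∃ L, L = X / Q0 := ⟨_, rfl⟩
  have hL0 : 0 < L := by rw [hL]; exact div_pos hX0 (by linarith)
  have hLi : ∀ (P : ℝ → ℂ) (Q' : ℝ), Continuous P → 1 ≤ Q' → Q' ≤ Q0 → ∫ t in (-L)..L, ct T t * ‖P t‖ ^ 2 ≤
      ∫ t in (-(X / Q'))..(X / Q'), ct T t * ‖P t‖ ^ 2 := by
    intro P Q' hP hQ'1 hQ'2
    have e1 : L ≤ X / Q' := by
      rw [hL]
      exact div_le_div_of_nonneg_left hX0.le (by linarith) hQ'2
    refine intervalIntegral.integral_mono_interval (by linarith) (by linarith) e1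
      (Filter.Eventually.of_forall fun t => mul_nonneg (ct_nonneg _ _) (sq_nonneg _)) ?_
    exact ((ct_cont T).mul (hP.norm.pow 2)).intervalIntegrable _ _
  have j1 := (hLi F Q1 hFc hQ1 hQ01).trans i1
  have j2 := (hLi G Q2 hGc hQ2 hQ02).trans i2
  rw [← hL]
  have hpt : ∀ t : ℝ, ‖F t - m * G t‖ ^ 2 ≤ 2 * (ct T t * ‖F t‖ ^ 2) + 2 * (ct T t * ‖G t‖ ^ 2) +
      (ε2 * X) ^ 2 * ((1 + (T + 1) ^ 2) * (1 / (1 + t ^ 2))) := by
    intro t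
    have e1 : ‖F t - m * G t‖ ^ 2 ≤ 2 * ‖F t‖ ^ 2 + 2 * ‖G t‖ ^ 2 := by
      have e2 : ‖F t - m * G t‖ ≤ ‖F t‖ + ‖G t‖ := by
        refine (norm_sub_le _ _).trans ?_
        rw [norm_mul]
        have := mul_le_of_le_one_left (norm_nonneg (G t)) hm1
        linarith
      have e3 := pow_le_pow_left₀ (norm_nonneg _) e2 2
      nlinarith [sq_nonneg (‖F t‖ - ‖G t‖)]
    have e4 : (1 - ct T t) * ‖F t - m * G t‖ ^ 2 ≤ (ε2 * X) ^ 2 * ((1 + (T + 1) ^ 2) * (1 / (1 + t ^ 2))) := by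
      have e5 : (1 - ct T t) * ‖F t - m * G t‖ ^ 2 ≤ (1 - ct T t) * (ε2 * X) ^ 2 := by
        by_cases h : T + 1 ≤ |t|
        · rw [ct_one h, sub_self, zero_mul, zero_mul]
        · push Not at h
          exact mul_le_mul_of_nonneg_left (pow_le_pow_left₀ (norm_nonneg _) (i3 t h.le) 2)
            (by linarith [ct_le_one T t])
      refine e5.trans ?_
      rw [mul_comm]
      exact mul_le_mul_of_nonneg_left (core_ct T t hT0.le) (by positivity)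
    have e6 : ct T t * ‖F t - m * G t‖ ^ 2 ≤ ct T t * (2 * ‖F t‖ ^ 2 + 2 * ‖G t‖ ^ 2) :=
      mul_le_mul_of_nonneg_left e1 (ct_nonneg T t)
    calc ‖F t - m * G t‖ ^ 2 = ct T t * ‖F t - m * G t‖ ^ 2 + (1 - ct T t) * ‖F t - m * G t‖ ^ 2 := by ring
      _ ≤ ct T t * (2 * ‖F t‖ ^ 2 + 2 * ‖G t‖ ^ 2) + (ε2 * X) ^ 2 * ((1 + (T + 1) ^ 2) * (1 / (1 + t ^ 2))) :=
        add_le_add e6 e4
      _ = _ := by ring
  have c1 : Continuous (fun t => 2 * (ct T t * ‖F t‖ ^ 2)) := continuous_const.mul ((ct_cont T).mul (hFc.norm.pow 2))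
  have c2 : Continuous (fun t => 2 * (ct T t * ‖G t‖ ^ 2)) := continuous_const.mul ((ct_cont T).mul (hGc.norm.pow 2))
  have c3 : Continuous (fun t : ℝ => (ε2 * X) ^ 2 * ((1 + (T + 1) ^ 2) * (1 / (1 + t ^ 2)))) := by
    refine continuous_const.mul (continuous_const.mul (continuous_const.div (by fun_prop) fun t => ?_))
    positivity
  have k1 : ∫ t in (-L)..L, ‖F t - m * G t‖ ^ 2 ≤ ∫ t in (-L)..L, (2 * (ct T t * ‖F t‖ ^ 2) + 2 * (ct T t * ‖G t‖ ^ 2) +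
      (ε2 * X) ^ 2 * ((1 + (T + 1) ^ 2) * (1 / (1 + t ^ 2)))) := by
    refine intervalIntegral.integral_mono (by linarith) ?_ ?_ hpt
    · exact ((hFc.sub (continuous_const.mul hGc)).norm.pow 2).intervalIntegrable _ _
    · exact ((c1.add c2).add c3).intervalIntegrable _ _
  refine k1.trans ?_
  have c12 : Continuous (fun t => 2 * (ct T t * ‖F t‖ ^ 2) + 2 * (ct T t * ‖G t‖ ^ 2)) := c1.add c2
  rw [intervalIntegral.integral_add (c12.intervalIntegrable _ _) (c3.intervalIntegrable _ _),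
    intervalIntegral.integral_add (c1.intervalIntegrable _ _) (c2.intervalIntegrable _ _),
    intervalIntegral.integral_const_mul, intervalIntegral.integral_const_mul, intervalIntegral.integral_const_mul]
  have k2 := core_low T L
  have k3 : (ε2 * X) ^ 2 * (∫ t in (-L)..L, (1 + (T + 1) ^ 2) * (1 / (1 + t ^ 2))) ≤ ε / 2 * X ^ 2 := by
    calc (ε2 * X) ^ 2 * (∫ t in (-L)..L, (1 + (T + 1) ^ 2) * (1 / (1 + t ^ 2))) ≤
          (ε2 * X) ^ 2 * (4 * (1 + (T + 1) ^ 2)) := mul_le_mul_of_nonneg_left k2 (sq_nonneg _)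
      _ = ε2 * (ε2 * (8 * (1 + (T + 1) ^ 2))) / 2 * X ^ 2 := by ring
      _ ≤ 1 * ε / 2 * X ^ 2 := by gcongr
      _ = ε / 2 * X ^ 2 := by ring
  nlinarith

end Pool.Agent.SplB
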