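import Pool.Agent.Lib_MP_92ef0c_lb.BDefs
import Pool.Agent.Lib_MP_92ef0c_spi.Disc
import Pool.Agent.Lib_MP_92ef0c_spm.ArcS
import Pool.Agent.Lib_MP_f1a94e_ecm.MDefs

/-!
# Block B: Parseval on the line and the trivial bound, general functions on pairs
-/

set_option autoImplicit false

namespace Pool.Agent.SplB

open Finset Pool.Agent.Spl Pool.Agent.SplI MeasureTheory

open Pool.Agent.GaussMR in
/-- the sum over the shifts is an integral (cf. `disc`) -/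
private theorem lg_disc (h : ℝ → ℝ) (hc : Continuous h) (N T : ℕ) (hN : 0 < N) :
    ∫ s in (0 : ℝ)..1, ∑ k ∈ fr T, h ((k + s) / N) = N * ∫ x in (-(T : ℝ) / N)..((T + 1) / N), h x := by
  have hN0 : (0 : ℝ) < N := by exact_mod_cast hN
  have hInt : ∀ a b : ℝ, IntervalIntegrable h MeasureTheory.volume a b := fun a b => hc.intervalIntegrable a b
  let a : ℕ → ℝ := fun j => ((j : ℝ) - T) / N
  have h2 : ∑ k ∈ range (2 * T + 1), ∫ x in (a k)..(a (k + 1)), h x = ∫ x in (a 0)..(a (2 * T + 1)), h x :=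
    intervalIntegral.sum_integral_adjacent_intervals (fun k _ => hInt _ _)
  have h3 : ∀ k : ℕ, ∫ x in (a k)..(a (k + 1)), h x = (1 / N) * ∫ s in (0:ℝ)..1, h ((((k : ℝ) - T) + s) / N) := by
    intro k
    have h4 := intervalIntegral.integral_comp_mul_add (a := 0) (b := 1) h (c := 1 / (N : ℝ)) (by positivity) (((k : ℝ) - T) / N)
    have e1 : (fun s : ℝ => h ((((k : ℝ) - T) + s) / N)) = fun s => h (1 / (N : ℝ) * s + ((k : ℝ) - T) / N) := by
      funext s; congr 1; ring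
    rw [e1, h4, smul_eq_mul]
    have e2 : 1 / (N : ℝ) * 0 + ((k : ℝ) - T) / N = a k := by simp only [a]; ring
    have e3 : 1 / (N : ℝ) * 1 + ((k : ℝ) - T) / N = a (k + 1) := by simp only [a]; push_cast; ring
    rw [e2, e3]
    field_simp
  have h5 : ∫ x in (a 0)..(a (2 * T + 1)), h x = (1 / N) * ∫ s in (0:ℝ)..1, ∑ k ∈ range (2 * T + 1), h ((((k : ℝ) - T) + s) / N) := by
    rw [← h2, intervalIntegral.integral_finsetSum (fun k _ => (by
      refine Continuous.intervalIntegrable ?_ _ _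
      exact hc.comp (by fun_prop)))]
    rw [mul_sum]
    exact sum_congr rfl fun k _ => h3 k
  have e0 : a 0 = -(T : ℝ) / N := by simp [a]
  have e1 : a (2 * T + 1) = ((T : ℝ) + 1) / N := by simp only [a]; push_cast; ring
  rw [e0, e1] at h5
  have h6 : ∀ s : ℝ, ∑ k ∈ fr T, h ((k + s) / N) = ∑ k ∈ range (2 * T + 1), h ((((k : ℝ) - T) + s) / N) :=
    fun s => disc_sum T (fun x => h ((x + s) / N))
  simp_rw [h6]
  rw [h5]
  field_simp

open Pool.Agent.GaussMR in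
/-- Parseval on the line and the mean value theorem -/
theorem line_gen (K : ℝ) (hK : 1 ≤ K) : ∃ C0 : ℝ, 0 < C0 ∧ ∀ X : ℝ, 1 ≤ X → ∀ F : ℕ × ℕ → ℂ, (∀ z, ‖F z‖ ≤ 1) →
    ∀ C D : ℝ, 1 ≤ C → C ≤ K * Real.sqrt X → 1 ≤ D → D ≤ K * Real.sqrt X → ∀ w T : ℝ, 0 < w → 1 ≤ T → T ≤ X →
    ∫ τ, ‖SgF F C D w τ‖ ^ 2 ≤ w ^ 2 * (∫ t in (-T)..T, ‖PsF F C D t‖ ^ 2) + C0 * (X / T) ^ 2 := by
  obtain ⟨A, hA, h⟩ := SplM.arcS
  refine ⟨A * (9 * K ^ 4), by positivity, ?_⟩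
  intro X hX F hF C D hC1 hC2 hD1 hD2 w T hw hT1 hTX
  have hK0 : 0 < K := by linarith
  have hX0 : 0 < X := by linarith
  have hK2 : 1 ≤ K ^ 2 := one_le_pow₀ hK
  have hX' : X ≤ K ^ 2 * X := by nlinarith
  have hCD : C * D ≤ K ^ 2 * X := by
    calc C * D ≤ (K * Real.sqrt X) * (K * Real.sqrt X) := mul_le_mul hC2 hD2 (by linarith) (by positivity)
      _ = K ^ 2 * (Real.sqrt X * Real.sqrt X) := by ring
      _ = K ^ 2 * X := by rw [Real.mul_self_sqrt hX0.le]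
  set N : ℕ := ⌈Real.log (K ^ 2 * X) + w⌉₊ + 3 with hN
  have hN1 : Real.log (K ^ 2 * X) + w ≤ N := by
    rw [hN]
    push_cast
    have := Nat.le_ceil (Real.log (K ^ 2 * X) + w)
    linarith
  have hN3 : (3 : ℝ) ≤ N := by
    rw [hN]
    push_cast
    have : (0 : ℝ) ≤ (⌈Real.log (K ^ 2 * X) + w⌉₊ : ℝ) := Nat.cast_nonneg _
    linarith
  have hN0 : (0 : ℝ) < N := by linarith
  have hNpos : 0 < N := by exact_mod_cast hN0
  have hTN : 3 ≤ T * N := by nlinarith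
  set T' : ℕ := ⌊T * N⌋₊ - 1 with hT'
  have hfl3 : 3 ≤ ⌊T * N⌋₊ := Nat.le_floor (by exact_mod_cast hTN)
  have hT'1 : 1 ≤ T' := by omega
  have hT'e : (T' : ℝ) + 1 = ⌊T * N⌋₊ := by
    have : T' + 1 = ⌊T * N⌋₊ := by omega
    exact_mod_cast this
  have hfl := Nat.floor_le (show 0 ≤ T * N by positivity)
  have hfl2 := Nat.lt_floor_add_one (T * N)
  have hT'u : (T' : ℝ) + 1 ≤ T * N := by rw [hT'e]; exact hfl
  have hT'l : T * N / 3 ≤ T' := by linarith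
  have hT'0 : (0 : ℝ) < T' := by exact_mod_cast hT'1
  set I : ℝ := ∫ τ, ‖SgF F C D w τ‖ ^ 2 with hI
  set B : ℝ := A * (9 * K ^ 4) * (X / T) ^ 2 with hB
  have hmain : ∀ s : ℝ, 0 ≤ s → s ≤ 1 → I ≤ w ^ 2 / N * ∑ k ∈ fr T', ‖PsF F C D ((k + s) / N)‖ ^ 2 + B := by
    intro s hs0 hs1
    have h1 := h F hF C D (K ^ 2 * X) w s N T' (hX.trans hX') (by linarith) (by linarith)
      hCD (by linarith) hNpos hw (by rw [abs_le]; constructor <;> linarith) hT'1 (by nlinarith)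
    refine h1.trans (add_le_add le_rfl ?_)
    rw [hB, mul_assoc A]
    refine mul_le_mul_of_nonneg_left ?_ hA.le
    have h2 : N * (K ^ 2 * X) / T' ≤ 3 * K ^ 2 * (X / T) := by
      rw [div_le_iff₀ hT'0]
      have h3 : 3 * K ^ 2 * (X / T) * (T * N / 3) = N * (K ^ 2 * X) := by
        field_simp
      rw [← h3]
      gcongr
    calc (N * (K ^ 2 * X) / T') ^ 2 ≤ (3 * K ^ 2 * (X / T)) ^ 2 := by gcongr
      _ = 9 * K ^ 4 * (X / T) ^ 2 := by ring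
  have hc : Continuous (fun t => ‖PsF F C D t‖ ^ 2) := (psF_cont F C D).norm.pow 2
  have h4 : I ≤ ∫ s in (0 : ℝ)..1, (w ^ 2 / N * ∑ k ∈ fr T', ‖PsF F C D ((k + s) / N)‖ ^ 2 + B) := by
    have h5 : ∫ s in (0 : ℝ)..1, I = I := by simp
    rw [← h5]
    refine intervalIntegral.integral_mono_on (by norm_num) (by simp) ?_ fun s hs => hmain s hs.1 hs.2
    refine Continuous.intervalIntegrable ?_ _ _
    refine Continuous.add (Continuous.mul continuous_const (continuous_finsetSum _ fun k _ => ?_)) continuous_const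
    exact hc.comp (by fun_prop)
  have h6 : ∫ s in (0 : ℝ)..1, (w ^ 2 / N * ∑ k ∈ fr T', ‖PsF F C D ((k + s) / N)‖ ^ 2 + B) =
      w ^ 2 / N * (∫ s in (0 : ℝ)..1, ∑ k ∈ fr T', ‖PsF F C D ((k + s) / N)‖ ^ 2) + B := by
    rw [intervalIntegral.integral_add]
    · rw [intervalIntegral.integral_const_mul]
      simp
    · refine Continuous.intervalIntegrable ?_ _ _
      refine Continuous.mul continuous_const (continuous_finsetSum _ fun k _ => ?_)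
      exact hc.comp (by fun_prop)
    · simp
  have h7 := lg_disc (fun t => ‖PsF F C D t‖ ^ 2) hc N T' hNpos
  have h8 : ∫ x in (-(T' : ℝ) / N)..((T' + 1) / N), ‖PsF F C D x‖ ^ 2 ≤ ∫ t in (-T)..T, ‖PsF F C D t‖ ^ 2 := by
    refine intervalIntegral.integral_mono_interval ?_ ?_ ?_
      (Filter.Eventually.of_forall fun t => by positivity) (hc.intervalIntegrable _ _)
    · rw [le_div_iff₀ hN0]
      linarith
    · rw [div_le_div_iff_of_pos_right hN0]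
      linarith
    · rw [div_le_iff₀ hN0]
      exact hT'u
  calc I ≤ w ^ 2 / N * (∫ s in (0 : ℝ)..1, ∑ k ∈ fr T', ‖PsF F C D ((k + s) / N)‖ ^ 2) + B := by
        rw [← h6]; exact h4
    _ = w ^ 2 * (∫ x in (-(T' : ℝ) / N)..((T' + 1) / N), ‖PsF F C D x‖ ^ 2) + B := by
        rw [h7]
        field_simp
    _ ≤ w ^ 2 * (∫ t in (-T)..T, ‖PsF F C D t‖ ^ 2) + B := by gcongr

private theorem lg_ch (t u : ℝ) (z : ℕ × ℕ) : SplM.ch (t + u) z = SplM.ch t z * SplM.ch u z := by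
  unfold SplM.ch
  rw [← Complex.exp_add]
  congr 1
  push_cast
  ring

open Pool.Agent.GaussMR in
/-- mean value theorem for the polynomial of a box -/
theorem psF_mv : ∃ A : ℝ, 0 < A ∧ ∀ Y : ℝ, 1 ≤ Y → ∀ F : ℕ × ℕ → ℂ, (∀ z, ‖F z‖ ≤ 1) → ∀ C D : ℝ, 0 ≤ C → 0 ≤ D →
    C * D ≤ Y → ∫ t in (-Y)..Y, ‖PsF F C D t‖ ^ 2 ≤ A * Y ^ 2 := by
  obtain ⟨A, hA, h⟩ := SplM.lsB
  refine ⟨4 * A, by positivity, fun Y hY F hF C D hC hD hCD => ?_⟩
  have hlogY : 0 ≤ Real.log Y := Real.log_nonneg hY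
  set N : ℕ := ⌈Real.log Y⌉₊ + 1 with hN
  have hN1 : 1 ≤ N := by omega
  have hN1r : (1 : ℝ) ≤ N := by exact_mod_cast hN1
  have hNlog : Real.log Y ≤ 3 * N := by
    have h1 := Nat.le_ceil (Real.log Y)
    have h2 : (N : ℝ) = ⌈Real.log Y⌉₊ + 1 := by rw [hN]; push_cast; ring
    rw [h2]
    linarith
  set T : ℕ := ⌈(N : ℝ) * Y⌉₊ with hT
  have hT1 : (N : ℝ) * Y ≤ T := Nat.le_ceil _
  have hT2 : (T : ℝ) < N * Y + 1 := Nat.ceil_lt_add_one (by positivity)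
  have hNY : 1 ≤ (N : ℝ) * Y := by nlinarith
  have hM : ∀ s : ℝ, 0 ≤ s → s ≤ 1 → ∑ k ∈ fr T, ‖PsF F C D ((k + s) / N)‖ ^ 2 ≤ 4 * A * N * Y ^ 2 := by
    intro s _ _
    have h1 := h N C D Y T (fun z => F z * SplM.ch (s / N) z) hN1 hY hCD hNlog
    have h2 : ∀ k : ℤ, PsF F C D ((k + s) / N) =
        ∑ z ∈ PB C D, (F z * SplM.ch (s / N) z) * SplM.ch ((k : ℝ) / N) z := by
      intro k
      unfold PsF
      refine sum_congr rfl fun z _ => ?_
      have h3 : Complex.exp (((((k : ℝ) + s) / N * dirn z : ℝ) : ℂ) * Complex.I) = SplM.ch (((k : ℝ) + s) / N) z := rfl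
      rw [h3, add_div, lg_ch]
      ring
    simp only [h2]
    refine h1.trans ?_
    have h4 : ∑ z ∈ PB C D, ‖F z * SplM.ch (s / N) z‖ ^ 2 ≤ Y := by
      calc ∑ z ∈ PB C D, ‖F z * SplM.ch (s / N) z‖ ^ 2 ≤ ∑ _z ∈ PB C D, (1 : ℝ) := by
            refine sum_le_sum fun z _ => ?_
            rw [norm_mul, SplM.norm_ch, mul_one]
            exact pow_le_one₀ (norm_nonneg _) (hF z)
        _ = ((PB C D).card : ℝ) := by simp
        _ ≤ C * D := SplM.card_PB_le C D hC hD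
        _ ≤ Y := hCD
    calc A * (T + N * Y) * ∑ z ∈ PB C D, ‖F z * SplM.ch (s / N) z‖ ^ 2 ≤ A * (4 * (N * Y)) * Y := by
          refine mul_le_mul (mul_le_mul_of_nonneg_left ?_ hA.le) h4 (sum_nonneg fun z _ => by positivity)
            (by positivity)
          linarith
      _ = 4 * A * N * Y ^ 2 := by ring
  have hfin := disc (fun t => ‖PsF F C D t‖ ^ 2) ((psF_cont F C D).norm.pow 2) (fun t => sq_nonneg _) N T (by omega)
    Y (by linarith) hT1 _ hM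
  refine hfin.trans (le_of_eq ?_)
  field_simp

/-- the trivial bound for arcs -/
theorem triv_arc (K : ℝ) (hK : 1 ≤ K) : ∃ A : ℝ, 0 < A ∧ ∀ X : ℝ, 1 ≤ X → ∀ F : ℕ × ℕ → ℂ, (∀ z, ‖F z‖ ≤ 1) →
    ∀ C D : ℝ, 1 ≤ C → C ≤ K * Real.sqrt X → 1 ≤ D → D ≤ K * Real.sqrt X → ∀ H : ℝ, 1 ≤ H →
    ∫ τ, ‖SgF F C D (H / X) τ‖ ^ 2 ≤ A * H ^ 2 := by
  obtain ⟨C0, hC0, hl⟩ := line_gen K hK
  obtain ⟨A, hA, hm⟩ := psF_mv
  refine ⟨A * K ^ 4 + C0, by positivity, fun X hX F hF C D hC1 hC2 hD1 hD2 H hH => ?_⟩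
  have hX0 : 0 < X := by linarith
  have hK2 : 1 ≤ K ^ 2 := one_le_pow₀ hK
  have hCD : C * D ≤ K ^ 2 * X := by
    calc C * D ≤ (K * Real.sqrt X) * (K * Real.sqrt X) := mul_le_mul hC2 hD2 (by linarith) (by positivity)
      _ = K ^ 2 * (Real.sqrt X * Real.sqrt X) := by ring
      _ = K ^ 2 * X := by rw [Real.mul_self_sqrt hX0.le]
  have hXY : X ≤ K ^ 2 * X := by nlinarith
  have h1 := hl X hX F hF C D hC1 hC2 hD1 hD2 (H / X) X (by positivity) hX le_rfl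
  have h2 := hm (K ^ 2 * X) (by linarith) F hF C D (by linarith) (by linarith) hCD
  have h3 : ∫ t in (-X)..X, ‖PsF F C D t‖ ^ 2 ≤ ∫ t in (-(K ^ 2 * X))..(K ^ 2 * X), ‖PsF F C D t‖ ^ 2 := by
    refine intervalIntegral.integral_mono_interval (by linarith) (by linarith) hXY
      (Filter.Eventually.of_forall fun t => by positivity) ?_
    exact (((psF_cont F C D).norm.pow 2).intervalIntegrable _ _)
  have h4 : (H / X) ^ 2 * (∫ t in (-X)..X, ‖PsF F C D t‖ ^ 2) ≤ (H / X) ^ 2 * (A * (K ^ 2 * X) ^ 2) :=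
    mul_le_mul_of_nonneg_left (h3.trans h2) (sq_nonneg _)
  have h5 : (H / X) ^ 2 * (A * (K ^ 2 * X) ^ 2) = A * K ^ 4 * H ^ 2 := by field_simp
  have h6 : C0 * (X / X) ^ 2 ≤ C0 * H ^ 2 := by
    rw [div_self hX0.ne', one_pow]
    exact mul_le_mul_of_nonneg_left (one_le_pow₀ hH) hC0.le
  calc ∫ τ, ‖SgF F C D (H / X) τ‖ ^ 2 ≤ A * K ^ 4 * H ^ 2 + C0 * H ^ 2 := by linarith
    _ = (A * K ^ 4 + C0) * H ^ 2 := by ring

end Pool.Agent.SplB
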