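import Pool.Agent.Lib_MP_92ef0c_lb.MVal3
import Pool.Agent.Lib_MP_92ef0c_spi.Mob

/-!
# Block B: low frequencies, pairs
-/

set_option autoImplicit false

namespace Pool.Agent.SplB

open Finset Pool.Agent.Spl Pool.Agent.SplI MeasureTheory Filter

variable {Q : ℕ}

/-- two completely multiplicative functions which agree at the primes up to `K` agree up to `K` -/
theorem cf_agree {f g : ℕ → ℂ} (hf : CF f) (hg : CF g) (K : ℕ) (h : ∀ p : ℕ, p.Prime → p ≤ K → f p = g p) (k : ℕ)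
    (hk1 : 1 ≤ k) (hk : k ≤ K) : f k = g k := by
  induction k using Nat.strong_induction_on with
  | _ k ih =>
    by_cases h1 : k = 1
    · subst h1
      rw [hf.one, hg.one]
    · have hp := Nat.minFac_prime h1
      have hd := Nat.minFac_dvd k
      obtain ⟨m, hm⟩ := hd
      have hm0 : m ≠ 0 := by
        rintro rfl
        omega
      have hmk : m < k := by
        have h2 := hp.two_le
        have h3 : 0 < m := Nat.pos_of_ne_zero hm0
        nlinarith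
      have hpk : k.minFac ≤ K := (Nat.minFac_le (by omega)).trans hk
      have e1 := ih m hmk (Nat.pos_of_ne_zero hm0) (hmk.le.trans hk)
      have e2 := h _ hp hpk
      rw [hm, hf.mul _ _ hp.ne_zero hm0, hg.mul _ _ hp.ne_zero hm0, e1]
      rw [e2]

theorem fs_agree (hQ : 0 < Q) {f : ℝ → ℕ → ℂ} (hf : FS Q 1 f) (K : ℕ) : ∀ᶠ Y : ℝ in atTop, ∀ k : ℕ, 1 ≤ k → k ≤ K →
    f Y k = f00 Q k := by
  obtain ⟨κ, hκ, _, h⟩ := hf.cls hQ
  filter_upwards [eventually_ge_atTop 1, (tendsto_rpow_atTop hκ).eventually (eventually_ge_atTop (K : ℝ))] with Y hY1 hY2 k hk1 hk2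
  refine cf_agree (hf.cf Y) (cf_f00 Q) K (fun p hp hpK => ?_) k hk1 hk2
  by_cases hpQ : p ∣ Q
  · rw [hf.zr Y p hp hpQ, f00_not]
    rw [Nat.Prime.coprime_iff_not_dvd hp]
    exact fun h' => h' hpQ
  · have h3 : (p : ℝ) ≤ Y ^ κ := le_trans (by exact_mod_cast hpK) hY2
    rw [(h Y hY1).1 p hp hpQ h3, f00_coprime hp.ne_zero ((Nat.Prime.coprime_iff_not_dvd hp).2 hpQ)]

private theorem lp_tail (n : ℕ) (y : ℝ) (hy : 0 < y) :
    ∑ k ∈ (Icc 1 n).filter (fun k : ℕ => y < (k : ℝ)), ((k : ℝ) ^ 2)⁻¹ ≤ 2 / y := by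
  have h := sum_Ioo_inv_sq_le (α := ℝ) ⌊y⌋₊ (n + 1)
  have h1 : (Icc 1 n).filter (fun k : ℕ => y < (k : ℝ)) ⊆ Ioo ⌊y⌋₊ (n + 1) := by
    intro k hk
    rw [mem_filter, mem_Icc] at hk
    rw [mem_Ioo]
    exact ⟨(Nat.floor_lt hy.le).2 hk.2, by omega⟩
  have h2 : (2 : ℝ) / ((⌊y⌋₊ : ℝ) + 1) ≤ 2 / y :=
    div_le_div_of_nonneg_left (by norm_num) hy (Nat.lt_floor_add_one y).le
  refine le_trans (Finset.sum_le_sum_of_subset_of_nonneg h1 fun k _ _ => by positivity) ?_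
  exact h.trans h2

private theorem lp_triv (f : ℕ → ℂ) (hf : CF f) (t N : ℝ) (hN : 0 ≤ N) :
    ‖∑ n ∈ Icc 1 ⌊N⌋₊, f n * et t n‖ ≤ N := by
  refine (norm_sum_le _ _).trans ?_
  calc ∑ n ∈ Icc 1 ⌊N⌋₊, ‖f n * et t n‖ ≤ ∑ n ∈ Icc 1 ⌊N⌋₊, (1 : ℝ) := by
        refine Finset.sum_le_sum fun n _ => ?_
        rw [norm_mul, norm_et, mul_one]
        exact hf.le n
    _ = (⌊N⌋₊ : ℝ) := by simp
    _ ≤ N := Nat.floor_le hN

/-- the abstract estimate -/
private theorem lp_core (n : ℕ) (y C D E m : ℝ) (hy : 0 < y) (hC : 0 ≤ C) (hD : 0 ≤ D) (u v : ℕ → ℂ) (A B A0 B0 : ℕ → ℂ)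
    (m1 m2 : ℂ) (hm1 : ‖m1‖ ≤ 1) (hm2 : ‖m2‖ ≤ 1) (hu : ∀ k, ‖u k‖ ≤ 1) (hv : ∀ k, ‖v k‖ ≤ 1)
    (hA : ∀ k ∈ Icc 1 n, ‖A k‖ ≤ C / k) (hB : ∀ k ∈ Icc 1 n, ‖B k‖ ≤ D / k)
    (hA0 : ∀ k ∈ Icc 1 n, ‖A0 k‖ ≤ C / k) (hB0 : ∀ k ∈ Icc 1 n, ‖B0 k‖ ≤ D / k) (hE : 0 ≤ E)
    (h1 : ∀ k ∈ Icc 1 n, (k : ℝ) ≤ y → ‖A k - m1 * A0 k‖ ≤ E) (h2 : ∀ k ∈ Icc 1 n, (k : ℝ) ≤ y → ‖B k - m2 * B0 k‖ ≤ E)
    (h3 : ∀ k ∈ Icc 1 n, (k : ℝ) ≤ y → m1 * m2 * (u k - v k) = 0) (hm : y ≤ m) :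
    ‖∑ k ∈ Icc 1 n, (u k * (A k * B k) - m1 * m2 * (v k * (A0 k * B0 k)))‖ ≤ m * (E * (C + D)) + 4 * (C * D) / y := by
  rw [← sum_filter_add_sum_filter_not (Icc 1 n) (fun k : ℕ => (k : ℝ) ≤ y)]
  refine (norm_add_le _ _).trans (add_le_add ?_ ?_)
  · refine (norm_sum_le _ _).trans ?_
    have hterm : ∀ k ∈ (Icc 1 n).filter (fun k : ℕ => (k : ℝ) ≤ y),
        ‖u k * (A k * B k) - m1 * m2 * (v k * (A0 k * B0 k))‖ ≤ E * (C + D) := by
      intro k hk
      rw [mem_filter] at hk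
      have hk1 : (1 : ℝ) ≤ k := by exact_mod_cast (mem_Icc.1 hk.1).1
      have e1 : u k * (A k * B k) - m1 * m2 * (v k * (A0 k * B0 k)) =
          u k * ((A k - m1 * A0 k) * B k + m1 * A0 k * (B k - m2 * B0 k)) + (m1 * m2 * (u k - v k)) * (A0 k * B0 k) := by
        ring
      rw [e1, h3 k hk.1 hk.2, zero_mul, add_zero, norm_mul]
      have e2 : ‖(A k - m1 * A0 k) * B k + m1 * A0 k * (B k - m2 * B0 k)‖ ≤ E * D + C * E := by
        refine (norm_add_le _ _).trans (add_le_add ?_ ?_)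
        · rw [norm_mul]
          exact mul_le_mul (h1 k hk.1 hk.2) ((hB k hk.1).trans (div_le_self hD hk1)) (norm_nonneg _) hE
        · rw [norm_mul, norm_mul]
          refine mul_le_mul ?_ (h2 k hk.1 hk.2) (norm_nonneg _) hC
          calc ‖m1‖ * ‖A0 k‖ ≤ 1 * (C / k) := mul_le_mul hm1 (hA0 k hk.1) (norm_nonneg _) zero_le_one
            _ ≤ C := by rw [one_mul]; exact div_le_self hC hk1
      calc ‖u k‖ * _ ≤ 1 * (E * D + C * E) := mul_le_mul (hu k) e2 (norm_nonneg _) zero_le_one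
        _ = E * (C + D) := by ring
    refine (sum_le_card_nsmul _ _ _ hterm).trans ?_
    rw [nsmul_eq_mul]
    refine mul_le_mul_of_nonneg_right ?_ (by positivity)
    have h5 : (Icc 1 n).filter (fun k : ℕ => (k : ℝ) ≤ y) ⊆ Icc 1 ⌊y⌋₊ := by
      intro k hk
      rw [mem_filter, mem_Icc] at hk
      rw [mem_Icc]
      exact ⟨hk.1.1, Nat.le_floor hk.2⟩
    have h6 := card_le_card h5
    rw [Nat.card_Icc] at h6
    have h7 : (((Icc 1 n).filter (fun k : ℕ => (k : ℝ) ≤ y)).card : ℝ) ≤ ⌊y⌋₊ := by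
      exact_mod_cast (by omega : ((Icc 1 n).filter (fun k : ℕ => (k : ℝ) ≤ y)).card ≤ ⌊y⌋₊)
    exact (h7.trans (Nat.floor_le hy.le)).trans hm
  · refine (norm_sum_le _ _).trans ?_
    have hset : (Icc 1 n).filter (fun k : ℕ => ¬ (k : ℝ) ≤ y) = (Icc 1 n).filter (fun k : ℕ => y < (k : ℝ)) := by
      refine filter_congr fun k _ => ?_
      exact not_le
    rw [hset]
    have hterm : ∀ k ∈ (Icc 1 n).filter (fun k : ℕ => y < (k : ℝ)),
        ‖u k * (A k * B k) - m1 * m2 * (v k * (A0 k * B0 k))‖ ≤ 2 * (C * D) * ((k : ℝ) ^ 2)⁻¹ := by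
      intro k hk
      rw [mem_filter] at hk
      have hk1 : (0 : ℝ) < k := hy.trans hk.2
      have e3 : (C / k) * (D / k) = (C * D) * ((k : ℝ) ^ 2)⁻¹ := by field_simp
      have e1 : ‖u k * (A k * B k)‖ ≤ (C / k) * (D / k) := by
        rw [norm_mul, norm_mul]
        calc ‖u k‖ * (‖A k‖ * ‖B k‖) ≤ 1 * ((C / k) * (D / k)) := by
              refine mul_le_mul (hu k) ?_ (by positivity) zero_le_one
              exact mul_le_mul (hA k hk.1) (hB k hk.1) (norm_nonneg _) (by positivity)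
          _ = _ := one_mul _
      have e2 : ‖m1 * m2 * (v k * (A0 k * B0 k))‖ ≤ (C / k) * (D / k) := by
        rw [norm_mul, norm_mul, norm_mul, norm_mul]
        calc ‖m1‖ * ‖m2‖ * (‖v k‖ * (‖A0 k‖ * ‖B0 k‖)) ≤ (1 * 1) * (1 * ((C / k) * (D / k))) := by
              refine mul_le_mul (mul_le_mul hm1 hm2 (norm_nonneg _) zero_le_one) ?_ (by positivity) (by norm_num)
              refine mul_le_mul (hv k) ?_ (by positivity) zero_le_one
              exact mul_le_mul (hA0 k hk.1) (hB0 k hk.1) (norm_nonneg _) (by positivity)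
          _ = _ := by ring
      refine (norm_sub_le _ _).trans ?_
      rw [e3] at e1 e2
      linarith
    refine (sum_le_sum hterm).trans ?_
    rw [← mul_sum]
    refine (mul_le_mul_of_nonneg_left (lp_tail n y hy) (by positivity)).trans (le_of_eq ?_)
    ring

/-- low frequencies for pairs -/
theorem low_pair (q : ℕ) (hq : 0 < q) (hQ : 0 < Q) {z1 z2 : ℂ} (hz1 : z1 ^ q = 1) (hz2 : z2 ^ q = 1)
    {f g : ℝ → ℕ → ℂ} (hf : FS Q z1 f) (hg : FS Q z2 g) {W1 W2 : ℕ} [NeZero W1] [NeZero W2]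
    (hQW1 : Q ∣ W1) (hQW2 : Q ∣ W2) (χ : DirichletCharacter ℂ W1) (ψ : DirichletCharacter ℂ W2) (K T2 ε : ℝ)
    (hT2 : 0 ≤ T2) (hK : 1 ≤ K) (hε : 0 < ε) (a : ℝ) (ha : 0 < a) : ∀ᶠ X : ℝ in atTop, ∀ C D : ℝ,
    Real.sqrt X / K ≤ C → C ≤ K * Real.sqrt X → Real.sqrt X / K ≤ D → D ≤ K * Real.sqrt X → ∀ t : ℝ, |t| ≤ T2 →
    ‖Ps (tw (f (a * X)) χ) (tw (g (a * X)) ψ) C D t - mz Q z1 f (a * X) * mz Q z2 g (a * X) *
      Ps (tw (f00 Q) χ) (tw (f00 Q) ψ) C D t‖ ≤ ε * X := by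
  have hK0 : 0 < K := by linarith
  obtain ⟨k0, hk0⟩ : ∃ k0 : ℕ, 8 * K ^ 2 / ε + 1 ≤ k0 := exists_nat_ge _
  have hk0p : (0 : ℝ) < k0 := lt_of_lt_of_le (by positivity) hk0
  have hk0a : 8 * K ^ 2 / ε ≤ k0 := by linarith
  have hk01 : (1 : ℝ) ≤ k0 := by
    have : 0 ≤ 8 * K ^ 2 / ε := by positivity
    linarith
  obtain ⟨s, hs⟩ : ∃ s, s = Real.sqrt a := ⟨_, rfl⟩
  have hs0 : 0 < s := by rw [hs]; exact Real.sqrt_pos.2 ha
  obtain ⟨ε1, hε1⟩ : ∃ ε1, ε1 = ε / (4 * k0 * K * s) := ⟨_, rfl⟩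
  have hε10 : 0 < ε1 := by rw [hε1]; positivity
  obtain ⟨K', hK'⟩ : ∃ K', K' = max (2 * K * k0 * s) (K / s) + 1 := ⟨_, rfl⟩
  have hK'a : 2 * K * k0 * s ≤ K' := by
    rw [hK']
    have := le_max_left (2 * K * k0 * s) (K / s)
    linarith
  have hK'b : K / s ≤ K' := by
    rw [hK']
    have := le_max_right (2 * K * k0 * s) (K / s)
    linarith
  have hK'1 : 1 ≤ K' := by
    rw [hK']
    have h1 : 0 ≤ max (2 * K * k0 * s) (K / s) := le_max_of_le_left (by positivity)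
    linarith
  have hT : Tendsto (fun X : ℝ => a * X) atTop atTop := tendsto_id.const_mul_atTop ha
  have hag : ∀ᶠ Y : ℝ in atTop, ∀ k : ℕ, 1 ≤ k → k ≤ k0 →
      mz Q z1 f Y * mz Q z2 g Y * (f Y k * g Y k - f00 Q k * f00 Q k) = 0 := by
    by_cases h1 : z1 = 1
    · by_cases h2 : z2 = 1
      · subst h1 h2
        filter_upwards [fs_agree hQ hf k0, fs_agree hQ hg k0] with Y h3 h4 k hk1 hk2
        rw [h3 k hk1 hk2, h4 k hk1 hk2, sub_self, mul_zero]
      · refine Eventually.of_forall fun Y k _ _ => ?_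
        have : mz Q z2 g Y = 0 := by unfold mz; rw [if_neg h2]
        rw [this, mul_zero, zero_mul]
    · refine Eventually.of_forall fun Y k _ _ => ?_
      have : mz Q z1 f Y = 0 := by unfold mz; rw [if_neg h1]
      rw [this, zero_mul, zero_mul]
  filter_upwards [hT.eventually (low_one q hq hQ hz1 hf hQW1 χ K' T2 ε1 hT2 hK'1 hε10),
    hT.eventually (low_one q hq hQ hz2 hg hQW2 ψ K' T2 ε1 hT2 hK'1 hε10), hT.eventually hag,
    sqrt_atTop.eventually (eventually_ge_atTop (2 * K * k0)), eventually_gt_atTop 0] with X h1 h2 h3 h4 hX C D hC1 hC2 hD1 hD2 t ht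
  have hsX : 0 < Real.sqrt X := Real.sqrt_pos.2 hX
  have hsY : Real.sqrt (a * X) = s * Real.sqrt X := by rw [hs]; exact Real.sqrt_mul ha.le X
  rw [hsY] at h1 h2
  have hC : 0 ≤ C := le_trans (by positivity) hC1
  have hD : 0 ≤ D := le_trans (by positivity) hD1
  have hm1 := mz_le hf (a * X)
  have hm2 := mz_le hg (a * X)
  have hFc := cf_tw (hf.cf (a * X)) χ
  have hGc := cf_tw (hg.cf (a * X)) ψ
  have hF0c := cf_tw (cf_f00 Q) χ
  have hG0c := cf_tw (cf_f00 Q) ψ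
  -- range of the truncated sums
  have hrange : ∀ E : ℝ, Real.sqrt X / K ≤ E → E ≤ K * Real.sqrt X → ∀ k : ℕ, 1 ≤ k → (k : ℝ) ≤ k0 →
      s * Real.sqrt X / K' ≤ (⌊E / k⌋₊ : ℝ) ∧ ((⌊E / k⌋₊ : ℕ) : ℝ) ≤ K' * (s * Real.sqrt X) := by
    intro E hE1 hE2 k hk1 hk2
    have hkp : (1 : ℝ) ≤ k := by exact_mod_cast hk1
    have hE0 : 0 ≤ E := le_trans (by positivity) hE1
    constructor
    · have e1 : Real.sqrt X / (K * k0) ≤ E / k := by
        have : Real.sqrt X / (K * k0) = (Real.sqrt X / K) / k0 := by rw [div_div]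
        rw [this]
        exact div_le_div₀ hE0 hE1 (by linarith) hk2
      have e2 := Nat.lt_floor_add_one (E / k)
      have e3 : 2 ≤ Real.sqrt X / (K * k0) := by
        rw [le_div_iff₀ (by positivity)]
        linarith
      have e4 : s * Real.sqrt X / K' ≤ Real.sqrt X / (2 * (K * k0)) := by
        rw [div_le_div_iff₀ (by linarith) (by positivity)]
        calc s * Real.sqrt X * (2 * (K * k0)) = Real.sqrt X * (2 * K * k0 * s) := by ring
          _ ≤ Real.sqrt X * K' := mul_le_mul_of_nonneg_left hK'a hsX.le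
      have e5 : Real.sqrt X / (2 * (K * k0)) = (Real.sqrt X / (K * k0)) / 2 := by field_simp
      linarith
    · have e1 : ((⌊E / k⌋₊ : ℕ) : ℝ) ≤ E / k := Nat.floor_le (by positivity)
      have e2 : E / k ≤ E := div_le_self hE0 hkp
      rw [div_le_iff₀ hs0] at hK'b
      calc ((⌊E / k⌋₊ : ℕ) : ℝ) ≤ K * Real.sqrt X := by linarith
        _ ≤ (K' * s) * Real.sqrt X := mul_le_mul_of_nonneg_right hK'b hsX.le
        _ = K' * (s * Real.sqrt X) := by ring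
  rw [ps_mob _ _ hFc hGc, ps_mob _ _ hF0c hG0c, mul_sum, ← sum_sub_distrib]
  have hcore := lp_core ⌊C⌋₊ k0 C D (ε1 * (s * Real.sqrt X)) k0 hk0p hC hD
    (fun k => ((ArithmeticFunction.moebius k : ℤ) : ℂ) * (tw (f (a * X)) χ k * tw (g (a * X)) ψ k))
    (fun k => ((ArithmeticFunction.moebius k : ℤ) : ℂ) * (tw (f00 Q) χ k * tw (f00 Q) ψ k))
    (fun k => ∑ x ∈ Icc 1 ⌊C / k⌋₊, tw (f (a * X)) χ x * et t x)
    (fun k => ∑ y ∈ Icc 1 ⌊D / k⌋₊, tw (g (a * X)) ψ y * et (-t) y)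
    (fun k => ∑ x ∈ Icc 1 ⌊C / k⌋₊, tw (f00 Q) χ x * et t x)
    (fun k => ∑ y ∈ Icc 1 ⌊D / k⌋₊, tw (f00 Q) ψ y * et (-t) y)
    (mz Q z1 f (a * X)) (mz Q z2 g (a * X)) hm1 hm2
    (fun k => by
      rw [norm_mul, norm_mul]
      have e1 : ‖((ArithmeticFunction.moebius k : ℤ) : ℂ)‖ ≤ 1 := by
        rw [Complex.norm_intCast]
        exact_mod_cast ArithmeticFunction.abs_moebius_le_one
      exact mul_le_one₀ e1 (by positivity) (mul_le_one₀ (hFc.le _) (norm_nonneg _) (hGc.le _)))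
    (fun k => by
      rw [norm_mul, norm_mul]
      have e1 : ‖((ArithmeticFunction.moebius k : ℤ) : ℂ)‖ ≤ 1 := by
        rw [Complex.norm_intCast]
        exact_mod_cast ArithmeticFunction.abs_moebius_le_one
      exact mul_le_one₀ e1 (by positivity) (mul_le_one₀ (hF0c.le _) (norm_nonneg _) (hG0c.le _)))
    (fun k _ => lp_triv _ hFc t _ (by positivity)) (fun k _ => lp_triv _ hGc (-t) _ (by positivity))
    (fun k _ => lp_triv _ hF0c t _ (by positivity)) (fun k _ => lp_triv _ hG0c (-t) _ (by positivity))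
    (by positivity)
    (fun k hk hky => by
      obtain ⟨r1, r2⟩ := hrange C hC1 hC2 k (mem_Icc.1 hk).1 hky
      have e1 := h1 _ r1 r2 t ht
      refine le_trans (le_of_eq ?_) e1
      congr 1
      rw [mul_sum, ← sum_sub_distrib]
      refine sum_congr rfl fun n hn => ?_
      rw [mem_Icc] at hn
      rw [tw_f00 hQW1 χ (show n ≠ 0 by omega)]
      ring)
    (fun k hk hky => by
      obtain ⟨r1, r2⟩ := hrange D hD1 hD2 k (mem_Icc.1 hk).1 hky
      have e1 := h2 _ r1 r2 (-t) (by rw [abs_neg]; exact ht)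
      refine le_trans (le_of_eq ?_) e1
      congr 1
      rw [mul_sum, ← sum_sub_distrib]
      refine sum_congr rfl fun n hn => ?_
      rw [mem_Icc] at hn
      rw [tw_f00 hQW2 ψ (show n ≠ 0 by omega)]
      ring)
    (fun k hk hky => by
      have e1 := h3 k (mem_Icc.1 hk).1 (by exact_mod_cast hky)
      have e2 : mz Q z1 f (a * X) * mz Q z2 g (a * X) *
          (((ArithmeticFunction.moebius k : ℤ) : ℂ) * (tw (f (a * X)) χ k * tw (g (a * X)) ψ k) -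
            ((ArithmeticFunction.moebius k : ℤ) : ℂ) * (tw (f00 Q) χ k * tw (f00 Q) ψ k)) =
          ((ArithmeticFunction.moebius k : ℤ) : ℂ) * (χ (k : ZMod W1) * ψ (k : ZMod W2)) *
          (mz Q z1 f (a * X) * mz Q z2 g (a * X) * (f (a * X) k * g (a * X) k - f00 Q k * f00 Q k)) := by
        unfold tw
        ring
      rw [e2, e1, mul_zero]) le_rfl
  refine le_trans (le_of_eq ?_) (hcore.trans ?_)
  · congr 1
  · have hCD : C * D ≤ K ^ 2 * X := by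
      calc C * D ≤ (K * Real.sqrt X) * (K * Real.sqrt X) := mul_le_mul hC2 hD2 hD (by positivity)
        _ = K ^ 2 * (Real.sqrt X * Real.sqrt X) := by ring
        _ = K ^ 2 * X := by rw [Real.mul_self_sqrt hX.le]
    have e1 : (k0 : ℝ) * (ε1 * (s * Real.sqrt X) * (C + D)) ≤ ε / 2 * X := by
      have e2 : C + D ≤ 2 * K * Real.sqrt X := by linarith
      calc (k0 : ℝ) * (ε1 * (s * Real.sqrt X) * (C + D)) ≤ k0 * (ε1 * (s * Real.sqrt X) * (2 * K * Real.sqrt X)) := by gcongr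
        _ = (k0 * ε1 * s * 2 * K) * (Real.sqrt X * Real.sqrt X) := by ring
        _ = ε / 2 * X := by
            rw [Real.mul_self_sqrt hX.le, hε1]
            field_simp
            ring
    have e3 : 4 * (C * D) / k0 ≤ ε / 2 * X := by
      rw [div_le_iff₀ hk0p]
      rw [div_le_iff₀ hε] at hk0a
      calc 4 * (C * D) ≤ 4 * (K ^ 2 * X) := by linarith
        _ = (8 * K ^ 2) * (X / 2) := by ring
        _ ≤ (k0 * ε) * (X / 2) := mul_le_mul_of_nonneg_right hk0a (by positivity)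
        _ = ε / 2 * X * k0 := by ring
    linarith

end Pool.Agent.SplB
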