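import Pool.Agent.Lib_MP_92ef0c_lb.NonPretU
import Pool.Agent.Lib_MP_92ef0c_spi.ZSumB

/-!
# Block B: pointwise bounds, final form
-/

set_option autoImplicit false

namespace Pool.Agent.SplB

open Finset Pool.Agent.Spl Pool.Agent.SplI MeasureTheory

theorem ptw_u (q : ℕ) (hq : 0 < q) (z : ℂ) (hz : z ^ q = 1) (M : ℕ) [NeZero M] (χ : DirichletCharacter ℂ M)
    (P0 κ : ℝ) (hκ : 0 < κ) (ε : ℝ) (hε : 0 < ε) :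
    ∃ N0 T1 : ℝ, 1 < N0 ∧ 0 < T1 ∧ ∀ N : ℝ, N0 ≤ N → ∀ f : ℕ → ℂ, Cls z P0 κ N f → ∀ t : ℝ, |t| ≤ N ^ 3 →
      (z = 1 → T1 ≤ |t|) → ‖∑ n ∈ Icc 1 ⌊N⌋₊, tw f χ n * et t n‖ ≤ ε * N :=
  ptw_u' zs_log q hq z hz M χ P0 κ hκ ε hε

end Pool.Agent.SplB
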