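import Pool.Agent.Lib_MP_92ef0c_lb.FDefs
import Pool.Agent.Lib_MP_92ef0c_spi.PDefs
import Pool.Agent.Lib_MP_92ef0c_spm.SMDefs
import Pool.Agent.Lib_MP_f1a94e_ecm.DTwoG
import Pool.Agent.Lib_MP_f1a94e_eq.NpT
import Pool.Agent.Lib_MP_f1a94e_mr.SmallJ
import Pool.Agent.Lib_MP_f1a94e_mr.VAsymp

/-!
# MP_92ef0c_nt, split twin of the joint law, block B: definitions

Matomaki-Radziwill in arcs of bounded length for `f(c) g(d)` over coprime pairs, with completely multiplicative `f`, `g`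
depending on the scale.
-/

set_option autoImplicit false

namespace Pool.Agent.SplB

open Finset Pool.Agent.Spl Pool.Agent.SplI MeasureTheory

/-- completely multiplicative functions bounded by one, equal to `z` at the primes in `(P0, N ^ κ]` -/
structure Cls (z : ℂ) (P0 κ N : ℝ) (f : ℕ → ℂ) : Prop where
  cf : CF f
  pr : ∀ p : ℕ, p.Prime → P0 < (p : ℝ) → (p : ℝ) ≤ N ^ κ → f p = z

/-- `f χ` -/
noncomputable def tw (f : ℕ → ℂ) {M : ℕ} (χ : DirichletCharacter ℂ M) (n : ℕ) : ℂ := f n * χ (n : ZMod M)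

/-- sum over an arc, general function -/
noncomputable def SgF (F : ℕ × ℕ → ℂ) (C D δ τ : ℝ) : ℂ :=
  ∑ z ∈ (PB C D).filter (fun z => τ ≤ dirn z ∧ dirn z < τ + δ), F z

/-- the polynomial of a box, general function -/
noncomputable def PsF (F : ℕ × ℕ → ℂ) (C D t : ℝ) : ℂ :=
  ∑ z ∈ PB C D, F z * Complex.exp (((t * dirn z : ℝ) : ℂ) * Complex.I)

theorem Cls.mono {z : ℂ} {P0 κ N N' : ℝ} {f : ℕ → ℂ} (h : Cls z P0 κ N f) (hN' : 0 ≤ N') (hκ : 0 ≤ κ)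
    (hN : N' ≤ N) : Cls z P0 κ N' f :=
  ⟨h.cf, fun p hp h1 h2 => h.pr p hp h1 (h2.trans (Real.rpow_le_rpow hN' hN hκ))⟩

theorem cf_tw {f : ℕ → ℂ} (hf : CF f) {M : ℕ} (χ : DirichletCharacter ℂ M) : CF (tw f χ) := by
  refine ⟨?_, fun m n hm hn => ?_, fun n => ?_⟩
  · simp [tw, hf.one]
  · unfold tw
    rw [hf.mul m n hm hn, Nat.cast_mul, map_mul]
    ring
  · unfold tw
    rw [norm_mul]
    exact mul_le_one₀ (hf.le n) (norm_nonneg _) (χ.norm_le_one _)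

theorem ps_eq (f g : ℕ → ℂ) (C D t : ℝ) : PsF (pf f g) C D t = Ps f g C D t := rfl

theorem sg_eq (f g : ℕ → ℂ) (C D δ τ : ℝ) : SgF (pf f g) C D δ τ = Sg f g C D δ τ := rfl

theorem psF_cont (F : ℕ × ℕ → ℂ) (C D : ℝ) : Continuous (PsF F C D) := by
  unfold PsF
  refine continuous_finsetSum _ fun z _ => ?_
  fun_prop

theorem mem_PB_pos {C D : ℝ} {z : ℕ × ℕ} (h : z ∈ PB C D) : z.1 ≠ 0 ∧ z.2 ≠ 0 := by
  rw [mem_PB] at h
  exact ⟨h.1.1.ne', h.2.1.1.ne'⟩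

end Pool.Agent.SplB
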