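import Pool.Agent.Lib_MP_92ef0c_spi.IDefs

/-!
# Block B: the convolution quotient of two completely multiplicative functions
-/

set_option autoImplicit false

namespace Pool.Agent.SplB

open Finset Pool.Agent.SplI

/-- as an arithmetic function -/
noncomputable def toA (f : ℕ → ℂ) : ArithmeticFunction ℂ := ⟨fun n => if n = 0 then 0 else f n, by simp⟩

theorem toA_apply (f : ℕ → ℂ) {n : ℕ} (hn : n ≠ 0) : toA f n = f n := by
  change (if n = 0 then 0 else f n) = f n
  rw [if_neg hn]

/-- `f * (μ f0)` -/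
noncomputable def hA (f f0 : ℕ → ℂ) : ArithmeticFunction ℂ :=
  toA f * ((ArithmeticFunction.moebius : ArithmeticFunction ℤ) : ArithmeticFunction ℂ).pmul (toA f0)

theorem toA_mult {f : ℕ → ℂ} (hf : CF f) : (toA f).IsMultiplicative := by
  rw [ArithmeticFunction.IsMultiplicative.iff_ne_zero]
  refine ⟨?_, fun {m n} hm hn _ => ?_⟩
  · rw [toA_apply f one_ne_zero, hf.one]
  · rw [toA_apply f (mul_ne_zero hm hn), toA_apply f hm, toA_apply f hn, hf.mul m n hm hn]

theorem hA_mult {f f0 : ℕ → ℂ} (hf : CF f) (hf0 : CF f0) : (hA f f0).IsMultiplicative := by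
  unfold hA
  exact (toA_mult hf).mul (ArithmeticFunction.isMultiplicative_moebius.intCast.pmul (toA_mult hf0))

/-- `μ f0` is the inverse of `f0` -/
theorem mu_inv {f0 : ℕ → ℂ} (hf0 : CF f0) :
    ((ArithmeticFunction.moebius : ArithmeticFunction ℤ) : ArithmeticFunction ℂ).pmul (toA f0) * toA f0 = 1 := by
  ext n
  by_cases hn : n = 0
  · subst hn
    simp
  rw [ArithmeticFunction.mul_apply]
  have h1 : ∀ x ∈ n.divisorsAntidiagonal,
      ((ArithmeticFunction.moebius : ArithmeticFunction ℤ) : ArithmeticFunction ℂ).pmul (toA f0) x.1 * toA f0 x.2 =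
        f0 n * (((ArithmeticFunction.moebius : ArithmeticFunction ℤ) : ArithmeticFunction ℂ) x.1 *
          ((ArithmeticFunction.zeta : ArithmeticFunction ℕ) : ArithmeticFunction ℂ) x.2) := by
    intro x hx
    rw [Nat.mem_divisorsAntidiagonal] at hx
    have hx1 : x.1 ≠ 0 := by
      rintro h
      rw [h, zero_mul] at hx
      exact hn hx.1.symm
    have hx2 : x.2 ≠ 0 := by
      rintro h
      rw [h, mul_zero] at hx
      exact hn hx.1.symm
    rw [ArithmeticFunction.pmul_apply, toA_apply f0 hx1, toA_apply f0 hx2, ← hx.1, hf0.mul _ _ hx1 hx2,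
      ArithmeticFunction.natCoe_apply, ArithmeticFunction.zeta_apply_ne hx2]
    push_cast
    ring
  rw [sum_congr rfl h1, ← mul_sum, ← ArithmeticFunction.mul_apply,
    ArithmeticFunction.coe_moebius_mul_coe_zeta]
  by_cases h : n = 1
  · subst h
    rw [ArithmeticFunction.one_one, hf0.one, one_mul]
  · rw [ArithmeticFunction.one_apply_ne h, mul_zero]

theorem hA_conv {f f0 : ℕ → ℂ} (hf0 : CF f0) : hA f f0 * toA f0 = toA f := by
  unfold hA
  rw [mul_assoc, mu_inv hf0, mul_one]

/-- hyperbola identity -/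
theorem conv_sum {f f0 : ℕ → ℂ} (hf0 : CF f0) (N : ℕ) :
    ∑ n ∈ Icc 1 N, f n = ∑ d ∈ Icc 1 N, hA f f0 d * ∑ e ∈ Icc 1 (N / d), f0 e := by
  have h := ArithmeticFunction.sum_Ioc_mul_eq_sum_sum (hA f f0) (toA f0) N
  rw [hA_conv hf0] at h
  have e1 : ∀ M : ℕ, Ioc 0 M = Icc 1 M := by
    intro M
    ext x
    simp only [mem_Ioc, mem_Icc]
    omega
  have e2 : ∀ (g : ℕ → ℂ) (M : ℕ), ∑ n ∈ Icc 1 M, toA g n = ∑ n ∈ Icc 1 M, g n := by
    intro g M
    refine sum_congr rfl fun n hn => toA_apply g ?_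
    rw [mem_Icc] at hn
    omega
  rw [e1, e2] at h
  rw [h]
  refine sum_congr rfl fun n _ => ?_
  rw [e1, e2]

/-- the values at prime powers -/
theorem hA_pp {f f0 : ℕ → ℂ} (hf : CF f) (hf0 : CF f0) {p : ℕ} (hp : p.Prime) (k : ℕ) :
    hA f f0 (p ^ (k + 1)) = f p ^ k * (f p - f0 p) := by
  have hp0 : p ≠ 0 := hp.ne_zero
  have hpow : ∀ (g : ℕ → ℂ), CF g → ∀ j : ℕ, g (p ^ j) = g p ^ j := by
    intro g hg j
    induction j with
    | zero => simp [hg.one]
    | succ j ih => rw [pow_succ, hg.mul _ _ (pow_ne_zero _ hp0) hp0, ih, pow_succ]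
  unfold hA
  rw [mul_comm, ArithmeticFunction.mul_apply,
    Nat.sum_divisorsAntidiagonal (f := fun a b =>
      ((ArithmeticFunction.moebius : ArithmeticFunction ℤ) : ArithmeticFunction ℂ).pmul (toA f0) a * toA f b),
    Nat.sum_divisors_prime_pow hp, Finset.sum_range_succ', Finset.sum_range_succ']
  have hz : ∑ x ∈ range k, ((ArithmeticFunction.moebius : ArithmeticFunction ℤ) : ArithmeticFunction ℂ).pmul (toA f0)
      (p ^ (x + 1 + 1)) * toA f (p ^ (k + 1) / p ^ (x + 1 + 1)) = 0 := by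
    refine sum_eq_zero fun x _ => ?_
    rw [ArithmeticFunction.pmul_apply, ArithmeticFunction.intCoe_apply,
      ArithmeticFunction.moebius_apply_prime_pow hp (by omega), if_neg (by omega)]
    simp
  rw [hz, zero_add, zero_add, pow_zero, pow_one, Nat.div_one]
  have h1 : p ^ (k + 1) / p = p ^ k := by
    rw [pow_succ]
    exact Nat.mul_div_cancel _ hp.pos
  rw [h1, ArithmeticFunction.pmul_apply, ArithmeticFunction.pmul_apply, ArithmeticFunction.intCoe_apply,
    ArithmeticFunction.intCoe_apply, ArithmeticFunction.moebius_apply_prime hp,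
    ArithmeticFunction.moebius_apply_one, toA_apply f0 hp0, toA_apply f0 one_ne_zero, hf0.one,
    toA_apply f (pow_ne_zero _ hp0), toA_apply f (pow_ne_zero _ hp0), hpow f hf, hpow f hf]
  push_cast
  ring

/-- support -/
theorem hA_supp {f f0 : ℕ → ℂ} (hf : CF f) (hf0 : CF f0) {p n : ℕ} (hp : p.Prime) (hpn : p ∣ n) (hn : n ≠ 0)
    (h : f p = f0 p) : hA f f0 n = 0 := by
  obtain ⟨k, m, hm, rfl⟩ := Nat.exists_eq_pow_mul_and_not_dvd hn p hp.ne_one
  have hk : k ≠ 0 := by
    rintro rfl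
    rw [pow_zero, one_mul] at hpn
    exact hm hpn
  obtain ⟨j, rfl⟩ := Nat.exists_eq_succ_of_ne_zero hk
  have hc : (p ^ (j + 1)).Coprime m := Nat.Coprime.pow_left _ ((Nat.Prime.coprime_iff_not_dvd hp).2 hm)
  rw [(hA_mult hf hf0).map_mul_of_coprime hc, hA_pp hf hf0 hp, h, sub_self, mul_zero, zero_mul]

/-- norm bound -/
theorem hA_le {f f0 : ℕ → ℂ} (hf : CF f) (hf0 : CF f0) {n : ℕ} (hn : n ≠ 0) :
    ‖hA f f0 n‖ ≤ 2 ^ ArithmeticFunction.cardFactors n := by
  have h1 : ‖hA f f0 n‖ ≤ (n.divisors.card : ℝ) := by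
    unfold hA
    rw [ArithmeticFunction.mul_apply,
      Nat.sum_divisorsAntidiagonal (f := fun a b => toA f a *
      ((ArithmeticFunction.moebius : ArithmeticFunction ℤ) : ArithmeticFunction ℂ).pmul (toA f0) b)]
    refine (norm_sum_le _ _).trans ?_
    calc ∑ i ∈ n.divisors, ‖toA f i *
          ((ArithmeticFunction.moebius : ArithmeticFunction ℤ) : ArithmeticFunction ℂ).pmul (toA f0) (n / i)‖
        ≤ ∑ _i ∈ n.divisors, (1 : ℝ) := by
          refine sum_le_sum fun i hi => ?_
          have hi' := Nat.mem_divisors.1 hi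
          have hi0 : i ≠ 0 := by
            rintro rfl
            exact hn (Nat.eq_zero_of_zero_dvd hi'.1)
          have hni : n / i ≠ 0 := (Nat.div_pos (Nat.le_of_dvd (Nat.pos_of_ne_zero hn) hi'.1)
            (Nat.pos_of_ne_zero hi0)).ne'
          rw [ArithmeticFunction.pmul_apply, toA_apply f hi0, toA_apply f0 hni, ArithmeticFunction.intCoe_apply,
            norm_mul, norm_mul]
          have h2 : ‖((ArithmeticFunction.moebius (n / i) : ℤ) : ℂ)‖ ≤ 1 := by
            rw [Complex.norm_intCast]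
            exact_mod_cast ArithmeticFunction.abs_moebius_le_one
          exact mul_le_one₀ (hf.le _) (by positivity) (mul_le_one₀ h2 (norm_nonneg _) (hf0.le _))
      _ = (n.divisors.card : ℝ) := by simp
  have h2 : n.divisors.card ≤ 2 ^ ArithmeticFunction.cardFactors n := by
    rw [Nat.card_divisors hn, ArithmeticFunction.cardFactors_eq_sum_factorization, Finsupp.sum,
      ← Finset.prod_pow_eq_pow_sum, Nat.support_factorization]
    refine Finset.prod_le_prod' fun p _ => ?_
    exact Nat.lt_two_pow_self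
  refine h1.trans ?_
  exact_mod_cast h2

/-- dependence on a twist -/
theorem hA_twist {f f0 χ : ℕ → ℂ} (hχ : CF χ) {n : ℕ} (hn : n ≠ 0) :
    hA (fun n => f n * χ n) (fun n => f0 n * χ n) n = χ n * hA f f0 n := by
  unfold hA
  rw [ArithmeticFunction.mul_apply, ArithmeticFunction.mul_apply, mul_sum]
  refine sum_congr rfl fun x hx => ?_
  rw [Nat.mem_divisorsAntidiagonal] at hx
  have hx1 : x.1 ≠ 0 := by
    rintro h
    rw [h, zero_mul] at hx
    exact hn hx.1.symm
  have hx2 : x.2 ≠ 0 := by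
    rintro h
    rw [h, mul_zero] at hx
    exact hn hx.1.symm
  rw [ArithmeticFunction.pmul_apply, ArithmeticFunction.pmul_apply, toA_apply _ hx1, toA_apply _ hx2,
    toA_apply _ hx1, toA_apply _ hx2, ← hx.1, hχ.mul _ _ hx1 hx2]
  ring

end Pool.Agent.SplB
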