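import Pool.Agent.Lib_MP_92ef0c_lb.CHyp
import Pool.Agent.Lib_MP_92ef0c_spi.Mob
import Pool.Agent.Lib_MP_92ef0c_spm.SMDefs
import Pool.Agent.Lib_MP_f1a94e_eq.NpT

/-!
# Block B: few frequencies carry little, uniform version (port of spi/FewS.lean)
-/

set_option autoImplicit false

namespace Pool.Agent.SplB

open Finset Pool.Agent.Spl Pool.Agent.SplI MeasureTheory

/-- sums of inverse squares -/
private theorem fwu_sq (n : ℕ) : ∑ k ∈ Icc 1 n, ((k : ℝ) ^ 2)⁻¹ ≤ 2 := by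
  have h := sum_Ioo_inv_sq_le (α := ℝ) 0 (n + 1)
  have e : Ioo 0 (n + 1) = Icc 1 n := by
    ext k
    simp only [mem_Ioo, mem_Icc]
    omega
  rw [e] at h
  have h2 : (2 : ℝ) / (((0 : ℕ) : ℝ) + 1) = 2 := by norm_num
  rw [h2] at h
  exact h

/-- tails of sums of inverse squares -/
private theorem fwu_tail (n : ℕ) (y : ℝ) (hy : 0 < y) :
    ∑ k ∈ (Icc 1 n).filter (fun k : ℕ => y < (k : ℝ)), ((k : ℝ) ^ 2)⁻¹ ≤ 2 / y := by
  have h := sum_Ioo_inv_sq_le (α := ℝ) ⌊y⌋₊ (n + 1)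
  have h1 : (Icc 1 n).filter (fun k : ℕ => y < (k : ℝ)) ⊆ Ioo ⌊y⌋₊ (n + 1) := by
    intro k hk
    rw [mem_filter, mem_Icc] at hk
    rw [mem_Ioo]
    exact ⟨(Nat.floor_lt hy.le).2 hk.2, by omega⟩
  have h2 : (2 : ℝ) / ((⌊y⌋₊ : ℝ) + 1) ≤ 2 / y :=
    div_le_div_of_nonneg_left (by norm_num) hy (Nat.lt_floor_add_one y).le
  refine le_trans (Finset.sum_le_sum_of_subset_of_nonneg h1 fun k _ _ => by positivity) ?_
  exact h.trans h2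

/-- weighted Cauchy inequality -/
private theorem fwu_cs (n : ℕ) (a : ℕ → ℝ) :
    (∑ k ∈ Icc 1 n, a k) ^ 2 ≤ 2 * ∑ k ∈ Icc 1 n, (k : ℝ) ^ 2 * a k ^ 2 := by
  have h := Finset.sum_mul_sq_le_sq_mul_sq (Icc 1 n) (fun k : ℕ => ((k : ℝ))⁻¹)
    (fun k => (k : ℝ) * a k)
  have e1 : ∑ k ∈ Icc 1 n, ((k : ℝ))⁻¹ * ((k : ℝ) * a k) = ∑ k ∈ Icc 1 n, a k := by
    refine Finset.sum_congr rfl fun k hk => ?_
    rw [mem_Icc] at hk
    have hk0 : (k : ℝ) ≠ 0 := by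
      have : k ≠ 0 := by omega
      exact_mod_cast this
    rw [← mul_assoc, inv_mul_cancel₀ hk0, one_mul]
  have e2 : ∑ k ∈ Icc 1 n, (((k : ℝ))⁻¹) ^ 2 = ∑ k ∈ Icc 1 n, ((k : ℝ) ^ 2)⁻¹ :=
    Finset.sum_congr rfl fun k _ => by rw [inv_pow]
  have e3 : ∑ k ∈ Icc 1 n, ((k : ℝ) * a k) ^ 2 = ∑ k ∈ Icc 1 n, (k : ℝ) ^ 2 * a k ^ 2 :=
    Finset.sum_congr rfl fun k _ => by rw [mul_pow]
  rw [e1, e2, e3] at h
  exact h.trans (mul_le_mul_of_nonneg_right (fwu_sq n)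
    (Finset.sum_nonneg fun k _ => by positivity))

/-- trivial bound -/
private theorem fwu_triv (f : ℕ → ℂ) (hf : CF f) (t N : ℝ) (hN : 0 ≤ N) :
    ‖∑ n ∈ Icc 1 ⌊N⌋₊, f n * et t n‖ ≤ N := by
  refine (norm_sum_le _ _).trans ?_
  calc ∑ n ∈ Icc 1 ⌊N⌋₊, ‖f n * et t n‖ ≤ ∑ n ∈ Icc 1 ⌊N⌋₊, (1 : ℝ) := by
        refine Finset.sum_le_sum fun n _ => ?_
        rw [norm_mul, norm_et, mul_one]
        exact hf.le n
    _ = (⌊N⌋₊ : ℝ) := by simp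
    _ ≤ N := Nat.floor_le hN

/-- the abstract estimate -/
private theorem fwu_core (n : ℕ) (S : Finset ℝ) (P : ℝ → ℂ) (A B : ℕ → ℝ → ℂ) (y C D c0 e1 : ℝ)
    (hy : 0 < y) (hC : 0 ≤ C) (hD : 0 ≤ D) (hc0 : 0 ≤ c0)
    (hP : ∀ t, ‖P t‖ ≤ ∑ k ∈ Icc 1 n, ‖A k t‖ * ‖B k t‖)
    (hA : ∀ k ∈ Icc 1 n, ∀ t, ‖A k t‖ ≤ C / k) (hB : ∀ k ∈ Icc 1 n, ∀ t, ‖B k t‖ ≤ D / k)
    (h1 : ∀ k ∈ Icc 1 n, (k : ℝ) ≤ y → ∀ t ∈ S, ‖B k t‖ ≤ e1 * (D / k))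
    (h2 : ∀ k ∈ Icc 1 n, (k : ℝ) ≤ y → ∑ t ∈ S, ‖A k t‖ ^ 2 ≤ c0 * (C / k) ^ 2) :
    ∑ t ∈ S, ‖P t‖ ^ 2 ≤ 4 * (e1 ^ 2 * c0 * (C * D) ^ 2) + 4 * (S.card * (C * D) ^ 2 / y) := by
  have hterm : ∀ k ∈ Icc 1 n, (k : ℝ) ^ 2 * ∑ t ∈ S, (‖A k t‖ * ‖B k t‖) ^ 2 ≤
      (e1 ^ 2 * c0 * (C * D) ^ 2) * ((k : ℝ) ^ 2)⁻¹ +
        (if y < (k : ℝ) then (S.card * (C * D) ^ 2) * ((k : ℝ) ^ 2)⁻¹ else 0) := by
    intro k hk
    have hk' := mem_Icc.1 hk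
    have hk0 : (0 : ℝ) < k := by
      have : 0 < k := by omega
      exact_mod_cast this
    by_cases hky : y < (k : ℝ)
    · rw [if_pos hky]
      have hs : ∑ t ∈ S, (‖A k t‖ * ‖B k t‖) ^ 2 ≤ ∑ _t ∈ S, ((C / k) * (D / k)) ^ 2 := by
        refine Finset.sum_le_sum fun t _ => ?_
        exact pow_le_pow_left₀ (by positivity)
          (mul_le_mul (hA k hk t) (hB k hk t) (norm_nonneg _) (by positivity)) 2
      rw [Finset.sum_const, nsmul_eq_mul] at hs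
      have h3 : (k : ℝ) ^ 2 * (S.card * ((C / k) * (D / k)) ^ 2) =
          (S.card * (C * D) ^ 2) * ((k : ℝ) ^ 2)⁻¹ := by
        field_simp
      have h4 : (0 : ℝ) ≤ (e1 ^ 2 * c0 * (C * D) ^ 2) * ((k : ℝ) ^ 2)⁻¹ := by positivity
      have h5 := mul_le_mul_of_nonneg_left hs (by positivity : (0 : ℝ) ≤ (k : ℝ) ^ 2)
      rw [h3] at h5
      linarith
    · rw [if_neg hky, add_zero]
      have hky' : (k : ℝ) ≤ y := not_lt.1 hky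
      have hs : ∑ t ∈ S, (‖A k t‖ * ‖B k t‖) ^ 2 ≤ ∑ t ∈ S, ‖A k t‖ ^ 2 * (e1 * (D / k)) ^ 2 := by
        refine Finset.sum_le_sum fun t ht => ?_
        rw [mul_pow]
        exact mul_le_mul_of_nonneg_left
          (pow_le_pow_left₀ (norm_nonneg _) (h1 k hk hky' t ht) 2) (by positivity)
      rw [← Finset.sum_mul] at hs
      have hs2 := mul_le_mul_of_nonneg_right (h2 k hk hky')
        (by positivity : (0 : ℝ) ≤ (e1 * (D / k)) ^ 2)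
      have h5 := mul_le_mul_of_nonneg_left (hs.trans hs2) (by positivity : (0 : ℝ) ≤ (k : ℝ) ^ 2)
      have h3 : (k : ℝ) ^ 2 * (c0 * (C / k) ^ 2 * (e1 * (D / k)) ^ 2) =
          (e1 ^ 2 * c0 * (C * D) ^ 2) * ((k : ℝ) ^ 2)⁻¹ := by
        field_simp
      rw [h3] at h5
      exact h5
  calc ∑ t ∈ S, ‖P t‖ ^ 2
      ≤ ∑ t ∈ S, 2 * ∑ k ∈ Icc 1 n, (k : ℝ) ^ 2 * (‖A k t‖ * ‖B k t‖) ^ 2 := by
        refine Finset.sum_le_sum fun t _ => ?_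
        exact (pow_le_pow_left₀ (norm_nonneg _) (hP t) 2).trans (fwu_cs n _)
    _ = 2 * ∑ k ∈ Icc 1 n, (k : ℝ) ^ 2 * ∑ t ∈ S, (‖A k t‖ * ‖B k t‖) ^ 2 := by
        rw [← Finset.mul_sum, Finset.sum_comm]
        congr 1
        exact Finset.sum_congr rfl fun k _ => by rw [Finset.mul_sum]
    _ ≤ 2 * ∑ k ∈ Icc 1 n, ((e1 ^ 2 * c0 * (C * D) ^ 2) * ((k : ℝ) ^ 2)⁻¹ +
        (if y < (k : ℝ) then (S.card * (C * D) ^ 2) * ((k : ℝ) ^ 2)⁻¹ else 0)) :=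
        mul_le_mul_of_nonneg_left (Finset.sum_le_sum hterm) (by norm_num)
    _ = 2 * ((e1 ^ 2 * c0 * (C * D) ^ 2) * ∑ k ∈ Icc 1 n, ((k : ℝ) ^ 2)⁻¹ +
        (S.card * (C * D) ^ 2) *
          ∑ k ∈ (Icc 1 n).filter (fun k : ℕ => y < (k : ℝ)), ((k : ℝ) ^ 2)⁻¹) := by
        rw [Finset.sum_add_distrib, ← Finset.mul_sum, ← Finset.sum_filter, ← Finset.mul_sum]
    _ ≤ 2 * ((e1 ^ 2 * c0 * (C * D) ^ 2) * 2 + (S.card * (C * D) ^ 2) * (2 / y)) := by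
        refine mul_le_mul_of_nonneg_left (add_le_add ?_ ?_) (by norm_num)
        · exact mul_le_mul_of_nonneg_left (fwu_sq n) (by positivity)
        · exact mul_le_mul_of_nonneg_left (fwu_tail n y hy) (by positivity)
    _ = 4 * (e1 ^ 2 * c0 * (C * D) ^ 2) + 4 * (S.card * (C * D) ^ 2 / y) := by ring

theorem few_u (H : CH) (K ε : ℝ) (hK : 1 ≤ K) (hε : 0 < ε) : ∃ ε1 δ X0 : ℝ, 0 < ε1 ∧ 0 < δ ∧ 1 < X0 ∧ ∀ X : ℝ, X0 ≤ X →
    ∀ f g : ℕ → ℂ, CF f → CF g → ∀ C D : ℝ, Real.sqrt X / K ≤ C → C ≤ K * Real.sqrt X → Real.sqrt X / K ≤ D → D ≤ K * Real.sqrt X →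
    ∀ S : Finset ℝ, (∀ t ∈ S, |t| ≤ X) → (∀ t ∈ S, ∀ t' ∈ S, t ≠ t' → 1 ≤ |t - t'|) → (S.card : ℝ) ≤ X ^ δ →
    (∀ t ∈ S, ∀ N : ℝ, X ^ (1 / 4 : ℝ) ≤ N → N ≤ D → X ≤ N ^ 3 → ‖∑ n ∈ Icc 1 ⌊N⌋₊, g n * et (-t) n‖ ≤ ε1 * N) →
    ∑ t ∈ S, ‖Ps f g C D t‖ ^ 2 ≤ ε * X ^ 2 := by
  obtain ⟨δ1, C0, X1, hδ1, hC0, hX1, hm⟩ := H.hm
  have hK0 : 0 < K := by linarith
  have he1 : 0 < ε / (8 * C0 * K ^ 4) := by positivity
  have ev : ∀ᶠ X : ℝ in Filter.atTop, X1 ≤ X ∧ K ^ 3 ≤ X ^ (1 / 8 : ℝ) ∧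
      8 * K ^ 4 / ε ≤ X ^ (1 / 16 : ℝ) := by
    refine (Filter.eventually_ge_atTop X1).and (((tendsto_rpow_atTop (by norm_num)).eventually
      (Filter.eventually_ge_atTop _)).and ((tendsto_rpow_atTop (by norm_num)).eventually
      (Filter.eventually_ge_atTop _)))
  obtain ⟨X2, hX2⟩ := Filter.eventually_atTop.1 ev
  refine ⟨Real.sqrt (ε / (8 * C0 * K ^ 4)), min δ1 (1 / 16), max X2 2, Real.sqrt_pos.2 he1,
    lt_min hδ1 (by norm_num), lt_of_lt_of_le one_lt_two (le_max_right _ _), ?_⟩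
  intro X hX f g hf hg C D hC1 hC2 hD1 hD2 S hS1 hS2 hS3 hptw
  obtain ⟨hXa, hXb, hXd⟩ := hX2 X (le_trans (le_max_left _ _) hX)
  have hX2' : (2 : ℝ) ≤ X := le_trans (le_max_right _ _) hX
  have hXpos : 0 < X := by linarith
  have hX1' : (1 : ℝ) ≤ X := by linarith
  have hC : 0 ≤ C := le_trans (by positivity) hC1
  have hD : 0 ≤ D := le_trans (by positivity) hD1
  have hK3 : K ≤ K ^ 3 := by
    calc K = K ^ 1 := (pow_one K).symm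
      _ ≤ K ^ 3 := pow_le_pow_right₀ hK (by norm_num)
  have hKX : K ≤ X ^ (1 / 8 : ℝ) := hK3.trans hXb
  have hsqrt : Real.sqrt X = X ^ (1 / 2 : ℝ) := Real.sqrt_eq_rpow X
  have hlow : ∀ E : ℝ, Real.sqrt X / K ≤ E → ∀ k : ℕ, 1 ≤ k → (k : ℝ) ≤ X ^ (1 / 8 : ℝ) →
      X ^ (3 / 8 : ℝ) / K ≤ E / k := by
    intro E hE k hk1 hk
    have hk0 : (0 : ℝ) < k := by exact_mod_cast hk1
    have h1 : X ^ (3 / 8 : ℝ) = Real.sqrt X / X ^ (1 / 8 : ℝ) := by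
      rw [hsqrt, ← Real.rpow_sub hXpos]
      norm_num
    rw [h1, div_right_comm]
    exact div_le_div₀ (le_trans (by positivity) hE) hE hk0 hk
  have h38 : X ^ (1 / 4 : ℝ) ≤ X ^ (3 / 8 : ℝ) / K := by
    rw [le_div_iff₀ hK0]
    calc X ^ (1 / 4 : ℝ) * K ≤ X ^ (1 / 4 : ℝ) * X ^ (1 / 8 : ℝ) :=
          mul_le_mul_of_nonneg_left hKX (by positivity)
      _ = X ^ (3 / 8 : ℝ) := by
          rw [← Real.rpow_add hXpos]
          norm_num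
  have hcube : X ≤ (X ^ (3 / 8 : ℝ) / K) ^ 3 := by
    rw [div_pow, le_div_iff₀ (by positivity)]
    have h1 : (X ^ (3 / 8 : ℝ)) ^ 3 = X * X ^ (1 / 8 : ℝ) := by
      rw [← Real.rpow_natCast, ← Real.rpow_mul hXpos.le]
      nth_rewrite 2 [← Real.rpow_one X]
      rw [← Real.rpow_add hXpos]
      norm_num
    rw [h1]
    exact mul_le_mul_of_nonneg_left hXb hXpos.le
  have hcore := fwu_core ⌊C⌋₊ S (fun t => Ps f g C D t)
    (fun k t => ∑ x ∈ Icc 1 ⌊C / k⌋₊, f x * et t x)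
    (fun k t => ∑ y ∈ Icc 1 ⌊D / k⌋₊, g y * et (-t) y)
    (X ^ (1 / 8 : ℝ)) C D C0 (Real.sqrt (ε / (8 * C0 * K ^ 4))) (by positivity) hC hD hC0.le
    (by
      intro t
      show ‖Ps f g C D t‖ ≤ _
      rw [ps_mob f g hf hg C D t]
      refine (norm_sum_le _ _).trans (Finset.sum_le_sum fun k _ => ?_)
      rw [norm_mul, norm_mul, norm_mul (f k)]
      have h1 : ‖((ArithmeticFunction.moebius k : ℤ) : ℂ)‖ ≤ 1 := by
        rw [Complex.norm_intCast]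
        exact_mod_cast ArithmeticFunction.abs_moebius_le_one
      have h2 : ‖f k‖ * ‖g k‖ ≤ 1 * 1 :=
        mul_le_mul (hf.le k) (hg.le k) (norm_nonneg _) zero_le_one
      have h3 : ‖((ArithmeticFunction.moebius k : ℤ) : ℂ)‖ * (‖f k‖ * ‖g k‖) ≤ 1 * (1 * 1) :=
        mul_le_mul h1 h2 (by positivity) zero_le_one
      rw [mul_one, mul_one] at h3
      have h4 := mul_le_mul_of_nonneg_right h3
        (norm_nonneg ((∑ x ∈ Icc 1 ⌊C / k⌋₊, f x * et t x) *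
          ∑ y ∈ Icc 1 ⌊D / k⌋₊, g y * et (-t) y))
      rw [one_mul] at h4
      exact h4.trans_eq (norm_mul _ _))
    (fun k _ t => fwu_triv f hf t (C / k) (by positivity))
    (fun k _ t => fwu_triv g hg (-t) (D / k) (by positivity))
    (by
      intro k hk hky t ht
      have hk1 := (mem_Icc.1 hk).1
      have h1 := hlow D hD1 k hk1 hky
      refine hptw t ht (D / k) (h38.trans h1) (div_le_self hD (by exact_mod_cast hk1)) ?_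
      exact hcube.trans (pow_le_pow_left₀ (by positivity) h1 3))
    (by
      intro k hk hky
      have hk1 := (mem_Icc.1 hk).1
      have hk0 : (0 : ℝ) < k := by exact_mod_cast hk1
      have h1 := hlow C hC1 k hk1 hky
      have h2 := hm X (C / k) hXa (h38.trans h1) S hS1 hS2
        (hS3.trans (Real.rpow_le_rpow_of_exponent_le hX1' (min_le_left _ _))) f
      refine h2.trans ?_
      have h3 : ∑ n ∈ Icc 1 ⌊C / k⌋₊, ‖f n‖ ^ 2 ≤ C / k := by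
        calc ∑ n ∈ Icc 1 ⌊C / k⌋₊, ‖f n‖ ^ 2 ≤ ∑ n ∈ Icc 1 ⌊C / k⌋₊, (1 : ℝ) :=
              Finset.sum_le_sum fun n _ => pow_le_one₀ (norm_nonneg _) (hf.le n)
          _ = (⌊C / k⌋₊ : ℝ) := by simp
          _ ≤ C / k := Nat.floor_le (by positivity)
      calc C0 * (C / k) * ∑ n ∈ Icc 1 ⌊C / k⌋₊, ‖f n‖ ^ 2 ≤ C0 * (C / k) * (C / k) :=
            mul_le_mul_of_nonneg_left h3 (by positivity)
        _ = C0 * (C / k) ^ 2 := by ring)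
  refine hcore.trans ?_
  rw [Real.sq_sqrt he1.le]
  have hCD : (C * D) ^ 2 ≤ K ^ 4 * X ^ 2 := by
    have h1 : C * D ≤ (K * Real.sqrt X) * (K * Real.sqrt X) := mul_le_mul hC2 hD2 hD (by positivity)
    have h2 : (K * Real.sqrt X) * (K * Real.sqrt X) = K ^ 2 * X := by
      have := Real.mul_self_sqrt hXpos.le
      calc (K * Real.sqrt X) * (K * Real.sqrt X) = K ^ 2 * (Real.sqrt X * Real.sqrt X) := by ring
        _ = K ^ 2 * X := by rw [this]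
    rw [h2] at h1
    calc (C * D) ^ 2 ≤ (K ^ 2 * X) ^ 2 := pow_le_pow_left₀ (by positivity) h1 2
      _ = K ^ 4 * X ^ 2 := by ring
  have hp1 : 4 * (ε / (8 * C0 * K ^ 4) * C0 * (C * D) ^ 2) ≤ ε / 2 * X ^ 2 := by
    calc 4 * (ε / (8 * C0 * K ^ 4) * C0 * (C * D) ^ 2)
        ≤ 4 * (ε / (8 * C0 * K ^ 4) * C0 * (K ^ 4 * X ^ 2)) := by gcongr
      _ = ε / 2 * X ^ 2 := by
          field_simp
          ring
  have hp2 : 4 * (S.card * (C * D) ^ 2 / X ^ (1 / 8 : ℝ)) ≤ ε / 2 * X ^ 2 := by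
    have hcard : (S.card : ℝ) ≤ X ^ (1 / 16 : ℝ) :=
      hS3.trans (Real.rpow_le_rpow_of_exponent_le hX1' (min_le_right _ _))
    have h1 : (S.card : ℝ) * (C * D) ^ 2 ≤ X ^ (1 / 16 : ℝ) * (K ^ 4 * X ^ 2) :=
      mul_le_mul hcard hCD (by positivity) (by positivity)
    have h2 : X ^ (1 / 8 : ℝ) = X ^ (1 / 16 : ℝ) * X ^ (1 / 16 : ℝ) := by
      rw [← Real.rpow_add hXpos]
      norm_num
    have hX16 : 0 < X ^ (1 / 16 : ℝ) := by positivity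
    have h3 : 8 * K ^ 4 ≤ ε * X ^ (1 / 16 : ℝ) := by
      rw [div_le_iff₀ hε] at hXd
      linarith
    calc 4 * (S.card * (C * D) ^ 2 / X ^ (1 / 8 : ℝ))
        ≤ 4 * (X ^ (1 / 16 : ℝ) * (K ^ 4 * X ^ 2) / X ^ (1 / 8 : ℝ)) := by gcongr
      _ = 4 * K ^ 4 * X ^ 2 / X ^ (1 / 16 : ℝ) := by
          rw [h2]
          field_simp
      _ ≤ ε / 2 * X ^ 2 := by
          rw [div_le_iff₀ hX16]
          have h4 := mul_le_mul_of_nonneg_right h3 (by positivity : (0 : ℝ) ≤ X ^ 2)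
          nlinarith
  linarith

end Pool.Agent.SplB
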