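import Pool.Agent.Lib_MP_92ef0c_lb.ArcB

/-!
# Block B: the interface theorems, proofs
-/

set_option autoImplicit false

namespace Pool.Agent.SplB

open Finset Pool.Agent.Spl Pool.Agent.SplI MeasureTheory Filter

variable {Q : ℕ}

theorem mz_mf (q : ℕ) (hq : 0 < q) (hQ : 0 < Q) {z1 z2 : ℂ} (hz1 : z1 ^ q = 1) (hz2 : z2 ^ q = 1)
    {f g : ℝ → ℕ → ℂ} (hf : FS Q z1 f) (hg : FS Q z2 g) :
    Tendsto (fun Y => mz Q z1 f Y * mz Q z2 g Y - mf Q f Y * mf Q g Y) atTop (nhds 0) := by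
  by_cases h1 : z1 = 1
  · by_cases h2 : z2 = 1
    · have : (fun Y => mz Q z1 f Y * mz Q z2 g Y - mf Q f Y * mf Q g Y) = fun _ => 0 := by
        funext Y
        unfold mz
        rw [if_pos h1, if_pos h2, sub_self]
      rw [this]
      exact tendsto_const_nhds
    · have h3 := mf_zero' q hq hQ hz2 h2 hg
      have h4 : Tendsto (fun Y => mf Q f Y * mf Q g Y) atTop (nhds 0) := by
        rw [tendsto_zero_iff_norm_tendsto_zero] at h3 ⊢
        refine squeeze_zero (fun Y => norm_nonneg _) (fun Y => ?_) h3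
        rw [norm_mul]
        exact mul_le_of_le_one_left (norm_nonneg _) (mf_le_one hf Y)
      have h5 := h4.neg
      rw [neg_zero] at h5
      refine h5.congr fun Y => ?_
      unfold mz
      rw [if_neg h2, mul_zero, zero_sub]
  · have h3 := mf_zero' q hq hQ hz1 h1 hf
    have h4 : Tendsto (fun Y => mf Q f Y * mf Q g Y) atTop (nhds 0) := by
      rw [tendsto_zero_iff_norm_tendsto_zero] at h3 ⊢
      refine squeeze_zero (fun Y => norm_nonneg _) (fun Y => ?_) h3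
      rw [norm_mul]
      exact mul_le_of_le_one_right (norm_nonneg _) (mf_le_one hg Y)
    have h5 := h4.neg
    rw [neg_zero] at h5
    refine h5.congr fun Y => ?_
    unfold mz
    rw [if_neg h1, zero_mul, zero_sub]

/-- Matomaki-Radziwill in arcs of bounded length for pairs of families -/
theorem mrb' (q : ℕ) (hq : 0 < q) (hQ : 0 < Q) {z1 z2 : ℂ} (hz1 : z1 ^ q = 1) (hz2 : z2 ^ q = 1)
    {f g : ℝ → ℕ → ℂ} (hf : FS Q z1 f) (hg : FS Q z2 g) (μ : ℝ → ℂ)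
    (hμ : Tendsto (fun Y => mf Q f Y * mf Q g Y - μ Y) atTop (nhds 0)) : MRB Q f g μ := by
  intro m hm b K hK ε hε
  obtain ⟨H0, hH0, h⟩ := mrb_m q hq hQ hz1 hz2 hf hg m hm b K hK (ε / 4) (by positivity)
  obtain ⟨A, hA, htriv⟩ := triv_arc K hK
  have h1 := (mz_mf q hq hQ hz1 hz2 hf hg).add hμ
  rw [add_zero] at h1
  have h2 : Tendsto (fun Y => mz Q z1 f Y * mz Q z2 g Y - μ Y) atTop (nhds 0) := h1.congr fun Y => by ring
  obtain ⟨η, hη⟩ : ∃ η, η = min 1 (ε / (4 * A)) := ⟨_, rfl⟩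
  have hη0 : 0 < η := by rw [hη]; exact lt_min one_pos (by positivity)
  have hη1 : η ≤ 1 := by rw [hη]; exact min_le_left _ _
  have hη2 : η * (4 * A) ≤ ε := by
    have : η ≤ ε / (4 * A) := by rw [hη]; exact min_le_right _ _
    rwa [le_div_iff₀ (by positivity)] at this
  refine ⟨max H0 1, lt_max_of_lt_left hH0, fun H hH a ha => ?_⟩
  have hHH0 : H0 ≤ H := (le_max_left _ _).trans hH
  have hH1 : 1 ≤ H := (le_max_right _ _).trans hH
  have hT : Tendsto (fun X : ℝ => a * X) atTop atTop := tendsto_id.const_mul_atTop ha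
  filter_upwards [h H hHH0 a ha, hT.eventually ((tendsto_zero_iff_norm_tendsto_zero.1 h2).eventually (gt_mem_nhds hη0)),
    eventually_ge_atTop 1, sqrt_atTop.eventually (eventually_ge_atTop 1)] with X hX h3 hX1 hs1
  obtain ⟨F, hF⟩ : ∃ F : ℕ × ℕ → ℂ, F = fun z => pf (f (a * X)) (g (a * X)) z -
      mz Q z1 f (a * X) * mz Q z2 g (a * X) * pf (f00 Q) (f00 Q) z := ⟨_, rfl⟩
  obtain ⟨G, hG⟩ : ∃ G : ℕ × ℕ → ℂ, G = fun z => if z.1 ≡ b.1 [MOD m] ∧ z.2 ≡ b.2 [MOD m] then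
      pf (f00 Q) (f00 Q) z else 0 := ⟨_, rfl⟩
  obtain ⟨e, he⟩ : ∃ e, e = mz Q z1 f (a * X) * mz Q z2 g (a * X) - μ (a * X) := ⟨_, rfl⟩
  have hX' : ∫ τ, ‖S2 F m b (Real.sqrt X) (K * Real.sqrt X) (H / X) τ‖ ^ 2 ≤ ε / 4 * H ^ 2 := by
    rw [hF]
    exact hX
  have h3' : ‖e‖ < η := by rw [he]; exact h3
  have hG1 : ∀ z, ‖G z‖ ≤ 1 := by
    intro z
    rw [hG]
    simp only
    split_ifs
    · unfold pf
      rw [norm_mul]
      exact mul_le_one₀ ((cf_f00 Q).le _) (norm_nonneg _) ((cf_f00 Q).le _)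
    · simp
  have h4 := htriv X hX1 G hG1 (Real.sqrt X) (K * Real.sqrt X) hs1 (le_mul_of_one_le_left (by linarith) hK)
    (by nlinarith) le_rfl H hH1
  have h5 : ∀ τ : ℝ, S2 (fun z => pf (f (a * X)) (g (a * X)) z - μ (a * X) * pf (f00 Q) (f00 Q) z) m b
      (Real.sqrt X) (K * Real.sqrt X) (H / X) τ = S2 F m b (Real.sqrt X) (K * Real.sqrt X) (H / X) τ +
      e * SgF G (Real.sqrt X) (K * Real.sqrt X) (H / X) τ := by
    intro τ
    rw [hG, ← s2_eq, hF, he]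
    unfold S2
    rw [mul_sum, ← sum_add_distrib]
    refine sum_congr rfl fun z _ => ?_
    ring
  have h6 : ∀ τ : ℝ, ‖S2 (fun z => pf (f (a * X)) (g (a * X)) z - μ (a * X) * pf (f00 Q) (f00 Q) z) m b
      (Real.sqrt X) (K * Real.sqrt X) (H / X) τ‖ ^ 2 ≤ 2 * ‖S2 F m b (Real.sqrt X) (K * Real.sqrt X) (H / X) τ‖ ^ 2 +
      2 * η * ‖SgF G (Real.sqrt X) (K * Real.sqrt X) (H / X) τ‖ ^ 2 := by
    intro τ
    rw [h5]
    have e1 := norm_add_le (S2 F m b (Real.sqrt X) (K * Real.sqrt X) (H / X) τ)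
      (e * SgF G (Real.sqrt X) (K * Real.sqrt X) (H / X) τ)
    rw [norm_mul] at e1
    have e2 := pow_le_pow_left₀ (norm_nonneg _) e1 2
    have e3 : ‖e‖ ^ 2 ≤ η := by
      have := norm_nonneg e
      nlinarith
    refine e2.trans ?_
    generalize ‖S2 F m b (Real.sqrt X) (K * Real.sqrt X) (H / X) τ‖ = u
    generalize ‖SgF G (Real.sqrt X) (K * Real.sqrt X) (H / X) τ‖ = v
    generalize ‖e‖ = w at e3 ⊢
    have e4 : (w * v) ^ 2 ≤ η * v ^ 2 := by
      rw [mul_pow]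
      exact mul_le_mul_of_nonneg_right e3 (sq_nonneg _)
    nlinarith [sq_nonneg (u - w * v)]
  have i1 := (s2_int F m b (Real.sqrt X) (K * Real.sqrt X) (H / X)).const_mul 2
  have i2 := (sgF_int G (Real.sqrt X) (K * Real.sqrt X) (H / X)).const_mul (2 * η)
  calc ∫ τ, ‖S2 (fun z => pf (f (a * X)) (g (a * X)) z - μ (a * X) * pf (f00 Q) (f00 Q) z) m b
          (Real.sqrt X) (K * Real.sqrt X) (H / X) τ‖ ^ 2
      ≤ ∫ τ, (2 * ‖S2 F m b (Real.sqrt X) (K * Real.sqrt X) (H / X) τ‖ ^ 2 +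
        2 * η * ‖SgF G (Real.sqrt X) (K * Real.sqrt X) (H / X) τ‖ ^ 2) := by
        refine integral_mono_of_nonneg (ae_of_all _ fun τ => sq_nonneg _) ?_ (ae_of_all _ h6)
        exact i1.add i2
    _ = 2 * (∫ τ, ‖S2 F m b (Real.sqrt X) (K * Real.sqrt X) (H / X) τ‖ ^ 2) +
        2 * η * (∫ τ, ‖SgF G (Real.sqrt X) (K * Real.sqrt X) (H / X) τ‖ ^ 2) := by
        rw [integral_add i1 i2, integral_const_mul, integral_const_mul]
    _ ≤ 2 * (ε / 4 * H ^ 2) + 2 * η * (A * H ^ 2) := by gcongr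
    _ = (ε / 2 + (η * (4 * A)) / 2) * H ^ 2 := by ring
    _ ≤ (ε / 2 + ε / 2) * H ^ 2 := by gcongr
    _ = ε * H ^ 2 := by ring

end Pool.Agent.SplB
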