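import Pool.Agent.Lib_MP_92ef0c_lb.ConvH

/-!
# Block B: rough numbers have density zero
-/

set_option autoImplicit false

namespace Pool.Agent.SplB

open Finset Pool.Agent.SplI Filter

private theorem rc_exists (η : ℝ) (hη : 0 < η) : ∃ n : ℕ,
    ∏ p ∈ (range n).filter Nat.Prime, (1 - 1 / (p : ℝ)) ≤ η := by
  have h1 := not_summable_one_div_on_primes
  have h2 := (not_summable_iff_tendsto_nat_atTop_of_nonneg (fun n => by
    unfold Set.indicator
    split_ifs <;> positivity)).1 h1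
  obtain ⟨n, hn⟩ := (h2.eventually (eventually_ge_atTop (-Real.log η))).exists
  refine ⟨n, ?_⟩
  have h3 : ∑ i ∈ range n, Set.indicator {p : ℕ | p.Prime} (fun n : ℕ => (1 : ℝ) / n) i =
      ∑ p ∈ (range n).filter Nat.Prime, 1 / (p : ℝ) := by
    rw [sum_filter]
    refine sum_congr rfl fun i _ => ?_
    rw [Set.indicator_apply]
    rfl
  rw [h3] at hn
  calc ∏ p ∈ (range n).filter Nat.Prime, (1 - 1 / (p : ℝ))
      ≤ ∏ p ∈ (range n).filter Nat.Prime, Real.exp (-(1 / (p : ℝ))) := by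
        refine prod_le_prod (fun p hp => ?_) fun p _ => ?_
        · have hp1 := (mem_filter.1 hp).2.one_lt
          have : (1 : ℝ) ≤ p := by exact_mod_cast hp1.le
          rw [sub_nonneg, div_le_one (by linarith)]
          exact this
        · have := Real.add_one_le_exp (-(1 / (p : ℝ)))
          linarith
    _ = Real.exp (-∑ p ∈ (range n).filter Nat.Prime, 1 / (p : ℝ)) := by
        rw [← Real.exp_sum, sum_neg_distrib]
    _ ≤ Real.exp (Real.log η) := Real.exp_le_exp.2 (by linarith)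
    _ = η := Real.exp_log hη

open Classical in
theorem rough_count (η : ℝ) (hη : 0 < η) : ∃ P u0 : ℝ, 0 < P ∧ 0 < u0 ∧ ∀ u : ℝ, u0 ≤ u → ∀ R : ℝ, P ≤ R →
    (((Icc 1 ⌊u⌋₊).filter (fun n : ℕ => ∀ p : ℕ, p.Prime → p ∣ n → R < (p : ℝ))).card : ℝ) ≤ η * u := by
  obtain ⟨n, hn⟩ := rc_exists (η / 2) (by positivity)
  set s := (range n).filter Nat.Prime with hs
  set W : ℕ := ∏ p ∈ s, p with hW
  have hsp : ∀ p ∈ s, p.Prime := fun p hp => (mem_filter.1 hp).2
  have hW0 : W ≠ 0 := by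
    rw [hW]
    exact prod_ne_zero_iff.2 fun p hp => (hsp p hp).ne_zero
  have hWf : W.primeFactors = s := Nat.primeFactors_prod hsp
  have htot : (W.totient : ℝ) = W * ∏ p ∈ s, (1 - 1 / (p : ℝ)) := by
    have h := Nat.totient_eq_mul_prod_factors W
    rw [hWf] at h
    have h2 : ((W.totient : ℚ) : ℝ) = ((W * ∏ p ∈ s, (1 - (p : ℚ)⁻¹) : ℚ) : ℝ) := by rw [h]
    push_cast at h2
    rw [h2]
    congr 1
    refine prod_congr rfl fun p _ => by rw [one_div]
  have hWr : (0 : ℝ) < W := by exact_mod_cast Nat.pos_of_ne_zero hW0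
  refine ⟨n + 1, 2 * W / η + 1, by positivity, by positivity, fun u hu R hR => ?_⟩
  have hu0 : 0 ≤ u := le_trans (by positivity) hu
  have hsub : (Icc 1 ⌊u⌋₊).filter (fun n : ℕ => ∀ p : ℕ, p.Prime → p ∣ n → R < (p : ℝ)) ⊆
      (Ico 1 (1 + ⌊u⌋₊)).filter (fun x => W.Coprime x) := by
    intro x hx
    rw [mem_filter, mem_Icc] at hx
    rw [mem_filter, mem_Ico]
    refine ⟨⟨hx.1.1, by omega⟩, ?_⟩
    rw [hW]
    refine Nat.Coprime.prod_left fun p hp => ?_
    rw [Nat.Prime.coprime_iff_not_dvd (hsp p hp)]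
    intro hpx
    have h1 := hx.2 p (hsp p hp) hpx
    have h2 : p < n := mem_range.1 (mem_filter.1 hp).1
    have h3 : (p : ℝ) < n := by exact_mod_cast h2
    linarith
  have h1 : ((Icc 1 ⌊u⌋₊).filter (fun n : ℕ => ∀ p : ℕ, p.Prime → p ∣ n → R < (p : ℝ))).card ≤
      W.totient * (⌊u⌋₊ / W + 1) := (card_le_card hsub).trans (Nat.Ico_filter_coprime_le 1 ⌊u⌋₊ hW0)
  have h2 : (((Icc 1 ⌊u⌋₊).filter (fun n : ℕ => ∀ p : ℕ, p.Prime → p ∣ n → R < (p : ℝ))).card : ℝ) ≤
      W.totient * (u / W + 1) := by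
    refine le_trans (by exact_mod_cast h1 : _ ≤ ((W.totient * (⌊u⌋₊ / W + 1) : ℕ) : ℝ)) ?_
    push_cast
    refine mul_le_mul_of_nonneg_left ?_ (Nat.cast_nonneg _)
    have h3 : (((⌊u⌋₊ / W : ℕ)) : ℝ) ≤ (⌊u⌋₊ : ℝ) / W := Nat.cast_div_le
    have h4 : (⌊u⌋₊ : ℝ) / W ≤ u / W := div_le_div_of_nonneg_right (Nat.floor_le hu0) hWr.le
    linarith
  refine h2.trans ?_
  have h5 : (W.totient : ℝ) ≤ W * (η / 2) := by
    rw [htot]
    exact mul_le_mul_of_nonneg_left hn hWr.le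
  have h6 : (W.totient : ℝ) ≤ W := by exact_mod_cast Nat.totient_le W
  have h7 : 2 * W / η ≤ u := by linarith
  rw [div_le_iff₀ hη] at h7
  have h8 : (W.totient : ℝ) * (u / W) ≤ W * (η / 2) * (u / W) :=
    mul_le_mul_of_nonneg_right h5 (by positivity)
  have h9 : W * (η / 2) * (u / W) = η / 2 * u := by field_simp
  calc (W.totient : ℝ) * (u / W + 1) = W.totient * (u / W) + W.totient := by ring
    _ ≤ η / 2 * u + W := by linarith
    _ ≤ η * u := by linarith

end Pool.Agent.SplB
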