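import Pool.Agent.Lib_MP_92ef0c_lb.PerS
import Pool.Agent.Lib_MP_92ef0c_lb.RoughC

/-!
# Block B: mean values of the families, twisted by characters
-/

set_option autoImplicit false

namespace Pool.Agent.SplB

open Finset Pool.Agent.Spl Pool.Agent.SplI MeasureTheory Filter

/-- `∑ |h|` -/
noncomputable def HS (Q : ℕ) (f : ℕ → ℂ) (N : ℕ) : ℝ := ∑ d ∈ Icc 1 N, ‖hA f (f00 Q) d‖

/-- `∑ h χ / d` -/
noncomputable def HX (Q : ℕ) (f : ℕ → ℂ) {W : ℕ} (χ : DirichletCharacter ℂ W) (N : ℕ) : ℂ :=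
  ∑ d ∈ Icc 1 N, χ (d : ZMod W) * hA f (f00 Q) d / d

theorem HS_nonneg (Q : ℕ) (f : ℕ → ℂ) (N : ℕ) : 0 ≤ HS Q f N := sum_nonneg fun _ _ => norm_nonneg _

private theorem cf_chi {W : ℕ} (χ : DirichletCharacter ℂ W) : CF (fun n => χ (n : ZMod W)) := by
  refine ⟨?_, fun m n _ _ => ?_, fun n => χ.norm_le_one _⟩
  · simp
  · simp only [Nat.cast_mul, map_mul]

/-- the main formula -/
theorem mv_main {Q W : ℕ} [NeZero W] (hQW : Q ∣ W) {f : ℕ → ℂ} (χ : DirichletCharacter ℂ W) (N : ℕ) :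
    ‖∑ n ∈ Icc 1 N, tw f χ n - cW χ * N * HX Q f χ N‖ ≤ 5 * W * HS Q f N := by
  have hW : 0 < W := NeZero.pos W
  have hW1 : (1 : ℝ) ≤ W := by exact_mod_cast hW
  have h1 : ∑ n ∈ Icc 1 N, tw f χ n = ∑ d ∈ Icc 1 N, χ (d : ZMod W) * hA f (f00 Q) d *
      ∑ e ∈ Icc 1 (N / d), χ (e : ZMod W) := by
    have h2 := conv_sum (f := tw f χ) (f0 := tw (f00 Q) χ) (cf_tw (cf_f00 Q) χ) N
    rw [h2]
    refine sum_congr rfl fun d hd => ?_
    rw [mem_Icc] at hd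
    have hd0 : d ≠ 0 := by omega
    have h3 : hA (tw f χ) (tw (f00 Q) χ) d = χ (d : ZMod W) * hA f (f00 Q) d :=
      hA_twist (f := f) (f0 := f00 Q) (cf_chi χ) hd0
    rw [h3]
    congr 1
    refine sum_congr rfl fun e he => ?_
    rw [mem_Icc] at he
    exact tw_f00 hQW χ (by omega)
  have h2 : cW χ * N * HX Q f χ N = ∑ d ∈ Icc 1 N, χ (d : ZMod W) * hA f (f00 Q) d * (cW χ * ((N : ℂ) / d)) := by
    unfold HX
    rw [mul_sum]
    refine sum_congr rfl fun d _ => ?_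
    ring
  rw [h1, h2, ← sum_sub_distrib]
  refine (norm_sum_le _ _).trans ?_
  unfold HS
  rw [mul_sum]
  refine sum_le_sum fun d hd => ?_
  rw [mem_Icc] at hd
  have hd0 : (0 : ℝ) < d := by
    have : 0 < d := by omega
    exact_mod_cast this
  rw [← mul_sub, norm_mul, norm_mul]
  have h3 : ‖χ (d : ZMod W)‖ ≤ 1 := χ.norm_le_one _
  have h4 : ‖∑ e ∈ Icc 1 (N / d), χ (e : ZMod W) - cW χ * ((N : ℂ) / d)‖ ≤ 5 * W := by
    have h5 := chi_sum χ (N / d)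
    have h6 : ‖(((N / d : ℕ) : ℂ) - (N : ℂ) / d)‖ ≤ 1 := by
      have h7 : (((N / d : ℕ) : ℂ) - (N : ℂ) / d) = ((((N / d : ℕ) : ℝ) - (N : ℝ) / d : ℝ) : ℂ) := by
        push_cast
        ring
      rw [h7, Complex.norm_real, Real.norm_eq_abs, abs_le]
      have h8 : ((N / d : ℕ) : ℝ) ≤ (N : ℝ) / d := Nat.cast_div_le
      have h9 : (N : ℝ) / d < ((N / d : ℕ) : ℝ) + 1 := by
        rw [div_lt_iff₀ hd0]
        have h10 : N < (N / d + 1) * d := by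
          have := Nat.lt_succ_self (N / d)
          exact (Nat.div_lt_iff_lt_mul (by omega)).1 this
        exact_mod_cast h10
      constructor <;> linarith
    have h7 : ∑ e ∈ Icc 1 (N / d), χ (e : ZMod W) - cW χ * ((N : ℂ) / d) =
        (∑ e ∈ Icc 1 (N / d), χ (e : ZMod W) - ((N / d : ℕ) : ℂ) * cW χ) +
          cW χ * (((N / d : ℕ) : ℂ) - (N : ℂ) / d) := by ring
    rw [h7]
    refine (norm_add_le _ _).trans ?_
    rw [norm_mul]
    have h8 : ‖cW χ‖ * ‖(((N / d : ℕ) : ℂ) - (N : ℂ) / d)‖ ≤ 1 * 1 :=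
      mul_le_mul (cW_le hW χ) h6 (norm_nonneg _) zero_le_one
    linarith
  calc ‖χ (d : ZMod W)‖ * ‖hA f (f00 Q) d‖ * ‖∑ e ∈ Icc 1 (N / d), χ (e : ZMod W) - cW χ * ((N : ℂ) / d)‖
      ≤ 1 * ‖hA f (f00 Q) d‖ * (5 * W) := by gcongr
    _ = 5 * W * ‖hA f (f00 Q) d‖ := by ring

/-- a non-zero coefficient of the quotient -/
theorem hA_rough {Q : ℕ} {f : ℕ → ℂ} (hf : CF f) (hfQ : ∀ p : ℕ, p.Prime → p ∣ Q → f p = 0) {R : ℝ}
    (hR : ∀ p : ℕ, p.Prime → ¬ p ∣ Q → (p : ℝ) ≤ R → f p = 1) {n : ℕ} (hn : n ≠ 0)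
    (h : hA f (f00 Q) n ≠ 0) : ∀ p : ℕ, p.Prime → p ∣ n → R < (p : ℝ) := by
  intro p hp hpn
  by_contra hpR
  apply h
  refine hA_supp hf (cf_f00 Q) hp hpn hn ?_
  by_cases hpQ : p ∣ Q
  · rw [hfQ p hp hpQ, f00_not]
    rw [Nat.Prime.coprime_iff_not_dvd hp]
    exact fun h' => h' hpQ
  · rw [hR p hp hpQ (not_lt.1 hpR), f00_coprime hp.ne_zero ((Nat.Prime.coprime_iff_not_dvd hp).2 hpQ)]

private theorem rough_pow {R : ℝ} (hR : 0 ≤ R) {n : ℕ} (hn : n ≠ 0) (hr : ∀ p : ℕ, p.Prime → p ∣ n → R < (p : ℝ)) :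
    R ^ ArithmeticFunction.cardFactors n ≤ (n : ℝ) := by
  have hp : ∀ p ∈ n.primeFactorsList, R ≤ (p : ℝ) := by
    intro p hp
    exact (hr p (Nat.prime_of_mem_primeFactorsList hp) (Nat.dvd_of_mem_primeFactorsList hp)).le
  have hgen : ∀ l : List ℕ, (∀ p ∈ l, R ≤ (p : ℝ)) → R ^ l.length ≤ ((l.prod : ℕ) : ℝ) := by
    intro l
    induction l with
    | nil => intro _; simp
    | cons q l ih =>
      intro hq
      rw [List.length_cons, List.prod_cons, pow_succ, Nat.cast_mul, mul_comm]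
      exact mul_le_mul (hq q (by simp)) (ih fun p hp => hq p (by simp [hp])) (by positivity) (by positivity)
  have h := hgen _ hp
  rwa [Nat.prod_primeFactorsList hn] at h

/-- the sum of the absolute values is small -/
theorem HS_small (A η : ℝ) (hη : 0 < η) : ∃ P V0 : ℝ, 1 < P ∧ 0 < V0 ∧ ∀ Q : ℕ, ∀ V : ℝ, V0 ≤ V → ∀ R : ℝ, P ≤ R →
    V ≤ R ^ A → ∀ f : ℕ → ℂ, CF f → (∀ p : ℕ, p.Prime → p ∣ Q → f p = 0) →
    (∀ p : ℕ, p.Prime → ¬ p ∣ Q → (p : ℝ) ≤ R → f p = 1) → ∀ N : ℕ, (N : ℝ) ≤ V → HS Q f N ≤ η * V := by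
  classical
  obtain ⟨P, u0, hP, hu0, h⟩ := rough_count (η / 2 ^ |A|) (by positivity)
  refine ⟨max P 2, u0, lt_max_of_lt_right (by norm_num), hu0, fun Q V hV R hR hVR f hf hfQ hfR N hN => ?_⟩
  have hPR : P ≤ R := (le_max_left _ _).trans hR
  have hR2 : 2 ≤ R := (le_max_right _ _).trans hR
  have h1 := h V hV R hPR
  have hsub : HS Q f N ≤ ∑ n ∈ (Icc 1 ⌊V⌋₊).filter (fun n : ℕ => ∀ p : ℕ, p.Prime → p ∣ n → R < (p : ℝ)), (2 : ℝ) ^ |A| := by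
    unfold HS
    rw [← sum_filter_add_sum_filter_not (Icc 1 N) (fun n : ℕ => ∀ p : ℕ, p.Prime → p ∣ n → R < (p : ℝ))]
    have hz : ∑ d ∈ (Icc 1 N).filter (fun n : ℕ => ¬ ∀ p : ℕ, p.Prime → p ∣ n → R < (p : ℝ)), ‖hA f (f00 Q) d‖ = 0 := by
      refine sum_eq_zero fun d hd => ?_
      rw [mem_filter, mem_Icc] at hd
      by_contra hne
      exact hd.2 (hA_rough hf hfQ hfR (by omega) (fun h0 => hne (by rw [h0, norm_zero])))
    rw [hz, add_zero]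
    have hsub2 : (Icc 1 N).filter (fun n : ℕ => ∀ p : ℕ, p.Prime → p ∣ n → R < (p : ℝ)) ⊆
        (Icc 1 ⌊V⌋₊).filter (fun n : ℕ => ∀ p : ℕ, p.Prime → p ∣ n → R < (p : ℝ)) := by
      intro n hn
      rw [mem_filter, mem_Icc] at hn ⊢
      refine ⟨⟨hn.1.1, ?_⟩, hn.2⟩
      refine Nat.le_floor (le_trans ?_ hN)
      exact_mod_cast hn.1.2
    refine le_trans (sum_le_sum fun d hd => ?_) (sum_le_sum_of_subset_of_nonneg hsub2 fun _ _ _ => by positivity)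
    rw [mem_filter, mem_Icc] at hd
    have hd0 : d ≠ 0 := by omega
    refine (hA_le hf (cf_f00 Q) hd0).trans ?_
    have h2 := rough_pow (by linarith) hd0 hd.2
    have h3 : (d : ℝ) ≤ R ^ A := by
      refine le_trans ?_ (hN.trans hVR)
      exact_mod_cast hd.1.2
    have h4 : R ^ (ArithmeticFunction.cardFactors d : ℝ) ≤ R ^ A := by
      rw [Real.rpow_natCast]
      exact h2.trans h3
    have h5 : (ArithmeticFunction.cardFactors d : ℝ) ≤ A := (Real.rpow_le_rpow_left_iff (by linarith)).1 h4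
    rw [← Real.rpow_natCast]
    exact Real.rpow_le_rpow_of_exponent_le (by norm_num) (h5.trans (le_abs_self A))
  refine hsub.trans ?_
  rw [sum_const, nsmul_eq_mul]
  have h6 : (0 : ℝ) < 2 ^ |A| := by positivity
  calc _ ≤ η / 2 ^ |A| * V * 2 ^ |A| := mul_le_mul_of_nonneg_right h1 h6.le
    _ = η * V := by field_simp

/-- slow variation -/
theorem HX_slow (Q : ℕ) (f : ℕ → ℂ) {W : ℕ} (χ : DirichletCharacter ℂ W) {N N' : ℕ} (h1 : 1 ≤ N') (h2 : N' ≤ N) :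
    ‖HX Q f χ N - HX Q f χ N'‖ ≤ HS Q f N / N' := by
  have hN' : (0 : ℝ) < N' := by exact_mod_cast h1
  have h3 : HX Q f χ N - HX Q f χ N' = ∑ d ∈ Icc 1 N \ Icc 1 N', χ (d : ZMod W) * hA f (f00 Q) d / d := by
    unfold HX
    rw [← sum_sdiff (Icc_subset_Icc_right h2 : Icc 1 N' ⊆ Icc 1 N)]
    ring
  rw [h3]
  refine (norm_sum_le _ _).trans ?_
  calc ∑ d ∈ Icc 1 N \ Icc 1 N', ‖χ (d : ZMod W) * hA f (f00 Q) d / d‖
      ≤ ∑ d ∈ Icc 1 N \ Icc 1 N', ‖hA f (f00 Q) d‖ / N' := by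
        refine sum_le_sum fun d hd => ?_
        rw [Finset.mem_sdiff, mem_Icc, mem_Icc] at hd
        have hd1 : N' ≤ d := by omega
        have hd2 : (N' : ℝ) ≤ d := by exact_mod_cast hd1
        rw [norm_div, norm_mul, Complex.norm_natCast]
        have h4 : ‖χ (d : ZMod W)‖ * ‖hA f (f00 Q) d‖ ≤ 1 * ‖hA f (f00 Q) d‖ :=
          mul_le_mul_of_nonneg_right (χ.norm_le_one _) (norm_nonneg _)
        rw [one_mul] at h4
        exact div_le_div₀ (norm_nonneg _) h4 hN' hd2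
    _ ≤ ∑ d ∈ Icc 1 N, ‖hA f (f00 Q) d‖ / N' :=
        sum_le_sum_of_subset_of_nonneg sdiff_subset fun _ _ _ => by positivity
    _ = HS Q f N / N' := by rw [← sum_div]; rfl

/-- principal characters -/
theorem HX_one {Q W : ℕ} [NeZero W] [NeZero Q] {f : ℕ → ℂ} (hf : CF f) (hfQ : ∀ p : ℕ, p.Prime → p ∣ Q → f p = 0) {R : ℝ}
    (hR : ∀ p : ℕ, p.Prime → ¬ p ∣ Q → (p : ℝ) ≤ R → f p = 1) (hRW : (W : ℝ) ≤ R) (hRQ : (Q : ℝ) ≤ R) (N : ℕ) :
    HX Q f (1 : DirichletCharacter ℂ W) N = HX Q f (1 : DirichletCharacter ℂ Q) N := by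
  unfold HX
  refine sum_congr rfl fun d hd => ?_
  rw [mem_Icc] at hd
  have hd0 : d ≠ 0 := by omega
  by_cases h : hA f (f00 Q) d = 0
  · rw [h, mul_zero, mul_zero]
  · have h1 := hA_rough hf hfQ hR hd0 h
    have key : ∀ M : ℕ, 0 < M → (M : ℝ) ≤ R → d.Coprime M := by
      intro M hM hMR
      by_contra hc
      obtain ⟨p, hp, hpd, hpM⟩ := Nat.Prime.not_coprime_iff_dvd.1 hc
      have h2 := h1 p hp hpd
      have h3 : (p : ℝ) ≤ M := by exact_mod_cast Nat.le_of_dvd hM hpM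
      linarith
    rw [MulChar.one_apply ((ZMod.isUnit_iff_coprime d W).2 (key W (NeZero.pos W) hRW)),
      MulChar.one_apply ((ZMod.isUnit_iff_coprime d Q).2 (key Q (NeZero.pos Q) hRQ))]

end Pool.Agent.SplB
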