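import Pool.Agent.Lib_MP_92ef0c_lb.CHyp
import Pool.Agent.Lib_MP_92ef0c_lb.MVal2
import Pool.Agent.Lib_MP_92ef0c_lb.PtwF

/-!
# Block B: mean values for all roots of unity, low frequencies
-/

set_option autoImplicit false

namespace Pool.Agent.SplB

open Finset Pool.Agent.Spl Pool.Agent.SplI MeasureTheory Filter

variable {Q : ℕ} {f : ℝ → ℕ → ℂ}

/-- mean values with characters, `z ≠ 1` -/
theorem mv_ne (q : ℕ) (hq : 0 < q) (hQ : 0 < Q) {z : ℂ} (hz : z ^ q = 1) (hz1 : z ≠ 1) (hf : FS Q z f) {W : ℕ} [NeZero W]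
    (χ : DirichletCharacter ℂ W) (K η : ℝ)
    (hK : 1 ≤ K) (hη : 0 < η) : ∀ᶠ Y : ℝ in atTop, ∀ N : ℕ, Real.sqrt Y / K ≤ N → (N : ℝ) ≤ K * Real.sqrt Y →
    ‖∑ n ∈ Icc 1 N, tw (f Y) χ n‖ ≤ η * Real.sqrt Y := by
  have hK0 : 0 < K := by linarith
  obtain ⟨κ, hκ, hκ1, hcls⟩ := hf.cls hQ
  obtain ⟨N0, T1, hN0, hT1, h⟩ := ptw_u q hq z hz W χ Q κ hκ (η / K) (by positivity)
  filter_upwards [eventually_ge_atTop 1, sqrt_atTop.eventually (eventually_ge_atTop (max K (K * N0)))] with Y hY1 hY2 N hN1 hN2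
  have hY0 : 0 < Y := by linarith
  have ha : K ≤ Real.sqrt Y := (le_max_left _ _).trans hY2
  have hb : K * N0 ≤ Real.sqrt Y := (le_max_right _ _).trans hY2
  have hNN0 : N0 ≤ N := by
    refine le_trans ?_ hN1
    rw [le_div_iff₀ hK0]
    linarith
  have hNY : (N : ℝ) ≤ Y := by
    refine hN2.trans ?_
    have := Real.mul_self_sqrt hY0.le
    nlinarith
  have h1 := h N hNN0 (f Y) ((hcls Y hY1).2 N (by linarith) hNY) 0 (by rw [abs_zero]; positivity) (fun h => absurd h hz1)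
  rw [Nat.floor_natCast] at h1
  have h2 : ∑ n ∈ Icc 1 N, tw (f Y) χ n * et 0 n = ∑ n ∈ Icc 1 N, tw (f Y) χ n := by
    refine sum_congr rfl fun n _ => ?_
    unfold et
    simp
  rw [h2] at h1
  refine h1.trans ?_
  calc η / K * N ≤ η / K * (K * Real.sqrt Y) := mul_le_mul_of_nonneg_left hN2 (by positivity)
    _ = η * Real.sqrt Y := by field_simp

/-- the mean values tend to zero if `z ≠ 1` -/
theorem mf_zero' (q : ℕ) (hq : 0 < q) (hQ : 0 < Q) {z : ℂ} (hz : z ^ q = 1) (hz1 : z ≠ 1) (hf : FS Q z f) :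
    Tendsto (mf Q f) atTop (nhds 0) := by
  have hQn : NeZero Q := ⟨hQ.ne'⟩
  rw [Metric.tendsto_atTop']
  intro ε hε
  obtain ⟨c, hc, hlow⟩ := f00_low hQ
  have h := mv_ne q hq hQ hz hz1 hf (1 : DirichletCharacter ℂ Q) 2 (c * ε / 2) (by norm_num) (by positivity)
  obtain ⟨Y0, hY0⟩ := eventually_atTop.1 (hlow.and (h.and (sqrt_atTop.eventually (eventually_ge_atTop 2))))
  refine ⟨Y0, fun Y hY => ?_⟩
  obtain ⟨h1, h2, h3⟩ := hY0 Y hY.le
  rw [dist_zero_right]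
  have hfl := Nat.floor_le (show 0 ≤ Real.sqrt Y by linarith)
  have hfl2 := Nat.lt_floor_add_one (Real.sqrt Y)
  have h4 := h2 ⌊Real.sqrt Y⌋₊ (by linarith) (by linarith)
  have hf1 : ∑ n ∈ Icc 1 ⌊Real.sqrt Y⌋₊, tw (f Y) (1 : DirichletCharacter ℂ Q) n = ∑ n ∈ Icc 1 ⌊Real.sqrt Y⌋₊, f Y n :=
    sum_congr rfl fun n _ => tw_one hf Y n
  rw [hf1] at h4
  have hp : 0 < c * Real.sqrt Y := by positivity
  unfold mf
  rw [norm_div, div_lt_iff₀ (lt_of_lt_of_le hp h1)]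
  refine lt_of_le_of_lt h4 ?_
  have h5 : ε * (c * Real.sqrt Y) ≤ ε * ‖∑ n ∈ Icc 1 ⌊Real.sqrt Y⌋₊, f00 Q n‖ := mul_le_mul_of_nonneg_left h1 hε.le
  nlinarith

theorem mz_le {z : ℂ} (hf : FS Q z f) (Y : ℝ) : ‖mz Q z f Y‖ ≤ 1 := by
  unfold mz
  split_ifs
  · exact mf_le_one hf Y
  · simp

/-- centred mean values with characters -/
theorem mv_all (q : ℕ) (hq : 0 < q) (hQ : 0 < Q) {z : ℂ} (hz : z ^ q = 1) (hf : FS Q z f) {W : ℕ} [NeZero W]
    (hQW : Q ∣ W) (χ : DirichletCharacter ℂ W) (K η : ℝ)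
    (hK : 1 ≤ K) (hη : 0 < η) : ∀ᶠ Y : ℝ in atTop, ∀ N : ℕ, Real.sqrt Y / K ≤ N → (N : ℝ) ≤ K * Real.sqrt Y →
    ‖∑ n ∈ Icc 1 N, (tw (f Y) χ n - mz Q z f Y * χ (n : ZMod W))‖ ≤ η * Real.sqrt Y := by
  by_cases h : z = 1
  · subst h
    filter_upwards [mv_one hQ hf hQW χ K η hK hη] with Y hY N hN1 hN2
    have h1 : mz Q 1 f Y = mf Q f Y := by
      unfold mz
      rw [if_pos rfl]
    rw [h1]
    exact hY N hN1 hN2
  · filter_upwards [mv_ne q hq hQ hz h hf χ K η hK hη] with Y hY N hN1 hN2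
    have h1 : mz Q z f Y = 0 := by
      unfold mz
      rw [if_neg h]
    simp only [h1, zero_mul, sub_zero]
    exact hY N hN1 hN2

/-! ### partial summation -/

private theorem ps_et (t : ℝ) {n : ℕ} (hn : 1 ≤ n) : ‖et t (n + 1) - et t n‖ ≤ |t| / n := by
  have hn0 : (0 : ℝ) < n := by exact_mod_cast hn
  unfold et
  have e1 : Complex.exp (-((t * Real.log ((n + 1 : ℕ) : ℝ) : ℝ) : ℂ) * Complex.I) -
      Complex.exp (-((t * Real.log n : ℝ) : ℂ) * Complex.I) =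
      Complex.exp (((-(t * Real.log n) : ℝ) : ℂ) * Complex.I) *
        (Complex.exp (Complex.I * ((-(t * (Real.log ((n + 1 : ℕ) : ℝ) - Real.log n)) : ℝ) : ℂ)) - 1) := by
    rw [mul_sub, mul_one, ← Complex.exp_add]
    congr 2
    · push_cast
      ring
    · push_cast
      ring
  rw [e1, norm_mul, Complex.norm_exp_ofReal_mul_I, one_mul]
  refine (Real.norm_exp_I_mul_ofReal_sub_one_le).trans ?_
  rw [Real.norm_eq_abs, abs_neg, abs_mul, div_eq_mul_inv]
  refine mul_le_mul_of_nonneg_left ?_ (abs_nonneg _)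
  have h1 : Real.log ((n + 1 : ℕ) : ℝ) - Real.log n = Real.log (1 + (n : ℝ)⁻¹) := by
    rw [← Real.log_div (by positivity) hn0.ne']
    congr 1
    push_cast
    field_simp
  rw [h1]
  have h2 : 0 ≤ (n : ℝ)⁻¹ := by positivity
  have h3 := Real.log_le_sub_one_of_pos (show 0 < 1 + (n : ℝ)⁻¹ by positivity)
  have h4 := Real.log_nonneg (show 1 ≤ 1 + (n : ℝ)⁻¹ by linarith)
  rw [abs_of_nonneg h4]
  linarith

private theorem ps_abel (a : ℕ → ℂ) (t : ℝ) (N : ℕ) :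
    ∑ n ∈ Icc 1 (N + 1), a n * et t n = (∑ n ∈ Icc 1 (N + 1), a n) * et t (N + 1) -
      ∑ n ∈ Icc 1 N, (∑ k ∈ Icc 1 n, a k) * (et t (n + 1) - et t n) := by
  induction N with
  | zero => simp
  | succ N ih =>
    rw [sum_Icc_succ_top (by omega), ih, sum_Icc_succ_top (show 1 ≤ N + 1 + 1 by omega) a,
      sum_Icc_succ_top (show 1 ≤ N + 1 by omega) (fun n => (∑ k ∈ Icc 1 n, a k) * (et t (n + 1) - et t n))]
    ring

/-- partial summation -/
theorem abel (a : ℕ → ℂ) (ha : ∀ n, 1 ≤ n → ‖a n‖ ≤ 2) (V η β : ℝ) (hV : 0 < V) (hη : 0 < η) (hβ : 0 ≤ β)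
    (hA : ∀ n : ℕ, η * V ≤ n → (n : ℝ) ≤ V → ‖∑ k ∈ Icc 1 n, a k‖ ≤ β * V) (N : ℕ) (hN1 : η * V ≤ N) (hN2 : (N : ℝ) ≤ V)
    (t : ℝ) : ‖∑ n ∈ Icc 1 N, a n * et t n‖ ≤ (β + |t| * (2 * η + β / η)) * V := by
  have hNp : (0 : ℝ) < N := lt_of_lt_of_le (by positivity) hN1
  obtain ⟨M, rfl⟩ : ∃ M, N = M + 1 := ⟨N - 1, by
    have : 0 < N := by exact_mod_cast hNp
    omega⟩
  rw [ps_abel]
  refine (norm_sub_le _ _).trans ?_
  rw [norm_mul, norm_et, mul_one]
  have h1 := hA (M + 1) hN1 hN2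
  have hAt : ∀ n : ℕ, ‖∑ k ∈ Icc 1 n, a k‖ ≤ 2 * n := by
    intro n
    refine (norm_sum_le _ _).trans ?_
    calc ∑ k ∈ Icc 1 n, ‖a k‖ ≤ ∑ _k ∈ Icc 1 n, (2 : ℝ) := sum_le_sum fun k hk => ha k (mem_Icc.1 hk).1
      _ = 2 * n := by simp [mul_comm]
  have h2 : ‖∑ n ∈ Icc 1 M, (∑ k ∈ Icc 1 n, a k) * (et t (n + 1) - et t n)‖ ≤ |t| * (2 * η + β / η) * V := by
    refine (norm_sum_le _ _).trans ?_
    have h3 : ∀ n ∈ Icc 1 M, ‖(∑ k ∈ Icc 1 n, a k) * (et t (n + 1) - et t n)‖ ≤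
        (if (n : ℝ) < η * V then |t| * 2 else 0) + |t| * (β / η) * (V / V) * 1 := by
      intro n hn
      rw [mem_Icc] at hn
      have hn0 : (0 : ℝ) < n := by exact_mod_cast hn.1
      rw [norm_mul]
      have h4 := ps_et t hn.1
      have hVV : V / V = 1 := div_self hV.ne'
      rw [hVV]
      split_ifs with h5
      · have h6 : ‖∑ k ∈ Icc 1 n, a k‖ * ‖et t (n + 1) - et t n‖ ≤ 2 * n * (|t| / n) :=
          mul_le_mul (hAt n) h4 (norm_nonneg _) (by positivity)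
        have h7 : 2 * (n : ℝ) * (|t| / n) = |t| * 2 := by field_simp
        have h8 : 0 ≤ |t| * (β / η) * 1 * 1 := by positivity
        linarith
      · have h6 := hA n (not_lt.1 h5) (by
          have : (n : ℝ) ≤ M + 1 := by
            have : n ≤ M + 1 := by omega
            exact_mod_cast this
          push_cast at hN2
          linarith)
        have h7 : ‖∑ k ∈ Icc 1 n, a k‖ * ‖et t (n + 1) - et t n‖ ≤ β * V * (|t| / n) :=
          mul_le_mul h6 h4 (norm_nonneg _) (by positivity)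
        have h8 : β * V * (|t| / n) ≤ |t| * (β / η) * 1 * 1 := by
          rw [mul_one, mul_one]
          have h9 : V / n ≤ 1 / η := by
            rw [div_le_div_iff₀ hn0 hη]
            have := not_lt.1 h5
            linarith
          calc β * V * (|t| / n) = β * |t| * (V / n) := by ring
            _ ≤ β * |t| * (1 / η) := mul_le_mul_of_nonneg_left h9 (by positivity)
            _ = |t| * (β / η) := by ring
        linarith
    refine (sum_le_sum h3).trans ?_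
    rw [sum_add_distrib, ← sum_filter, sum_const, sum_const, nsmul_eq_mul, nsmul_eq_mul, Nat.card_Icc]
    have h4 : (((Icc 1 M).filter (fun n : ℕ => (n : ℝ) < η * V)).card : ℝ) ≤ η * V := by
      have h5 : (Icc 1 M).filter (fun n : ℕ => (n : ℝ) < η * V) ⊆ Icc 1 ⌊η * V⌋₊ := by
        intro n hn
        rw [mem_filter, mem_Icc] at hn
        rw [mem_Icc]
        exact ⟨hn.1.1, Nat.le_floor hn.2.le⟩
      have h6 := card_le_card h5
      rw [Nat.card_Icc] at h6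
      have h7 : (((Icc 1 M).filter (fun n : ℕ => (n : ℝ) < η * V)).card : ℝ) ≤ ⌊η * V⌋₊ := by
        exact_mod_cast (by omega : ((Icc 1 M).filter (fun n : ℕ => (n : ℝ) < η * V)).card ≤ ⌊η * V⌋₊)
      exact h7.trans (Nat.floor_le (by positivity))
    have h8 : ((M + 1 - 1 : ℕ) : ℝ) ≤ V := by
      have : ((M + 1 - 1 : ℕ) : ℝ) ≤ ((M + 1 : ℕ) : ℝ) := by exact_mod_cast Nat.sub_le _ _
      exact this.trans hN2
    have hVV : V / V = 1 := div_self hV.ne'
    rw [hVV, mul_one, mul_one]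
    have h9 : (((Icc 1 M).filter (fun n : ℕ => (n : ℝ) < η * V)).card : ℝ) * (|t| * 2) ≤ η * V * (|t| * 2) :=
      mul_le_mul_of_nonneg_right h4 (by positivity)
    have h10 : ((M + 1 - 1 : ℕ) : ℝ) * (|t| * (β / η)) ≤ V * (|t| * (β / η)) :=
      mul_le_mul_of_nonneg_right h8 (by positivity)
    calc _ ≤ η * V * (|t| * 2) + V * (|t| * (β / η)) := add_le_add h9 h10
      _ = |t| * (2 * η + β / η) * V := by ring
  calc _ ≤ β * V + |t| * (2 * η + β / η) * V := add_le_add h1 h2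
    _ = _ := by ring

/-- low frequencies, one variable -/
theorem low_one (q : ℕ) (hq : 0 < q) (hQ : 0 < Q) {z : ℂ} (hz : z ^ q = 1) (hf : FS Q z f) {W : ℕ} [NeZero W]
    (hQW : Q ∣ W) (χ : DirichletCharacter ℂ W) (K T2 ε : ℝ) (hT2 : 0 ≤ T2)
    (hK : 1 ≤ K) (hε : 0 < ε) : ∀ᶠ Y : ℝ in atTop, ∀ N : ℕ, Real.sqrt Y / K ≤ N → (N : ℝ) ≤ K * Real.sqrt Y →
    ∀ t : ℝ, |t| ≤ T2 →
    ‖∑ n ∈ Icc 1 N, (tw (f Y) χ n - mz Q z f Y * χ (n : ZMod W)) * et t n‖ ≤ ε * Real.sqrt Y := by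
  have hK0 : 0 < K := by linarith
  obtain ⟨η, hη⟩ : ∃ η, η = min (ε / (8 * K * (T2 + 1))) (1 / K ^ 2) := ⟨_, rfl⟩
  have hη0 : 0 < η := by
    rw [hη]
    exact lt_min (by positivity) (by positivity)
  have hη1 : η * (8 * K * (T2 + 1)) ≤ ε := by
    have : η ≤ ε / (8 * K * (T2 + 1)) := by rw [hη]; exact min_le_left _ _
    rwa [le_div_iff₀ (by positivity)] at this
  have hη2 : η * K ^ 2 ≤ 1 := by
    have : η ≤ 1 / K ^ 2 := by rw [hη]; exact min_le_right _ _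
    rwa [le_div_iff₀ (by positivity)] at this
  obtain ⟨β, hβ⟩ : ∃ β, β = min (ε / (4 * K)) (ε * η / (4 * K * (T2 + 1))) := ⟨_, rfl⟩
  have hβ0 : 0 < β := by
    rw [hβ]
    exact lt_min (by positivity) (by positivity)
  have hβ1 : β * (4 * K) ≤ ε := by
    have : β ≤ ε / (4 * K) := by rw [hβ]; exact min_le_left _ _
    rwa [le_div_iff₀ (by positivity)] at this
  have hβ2 : β * (4 * K * (T2 + 1)) ≤ ε * η := by
    have : β ≤ ε * η / (4 * K * (T2 + 1)) := by rw [hβ]; exact min_le_right _ _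
    rwa [le_div_iff₀ (by positivity)] at this
  obtain ⟨K', hK'⟩ : ∃ K', K' = max K (1 / (η * K)) := ⟨_, rfl⟩
  have hKK' : K ≤ K' := by rw [hK']; exact le_max_left _ _
  have hK'2 : 1 / (η * K) ≤ K' := by rw [hK']; exact le_max_right _ _
  have hK'1 : 1 ≤ K' := hK.trans hKK'
  filter_upwards [mv_all q hq hQ hz hf hQW χ K' (β * K) hK'1 (by positivity),
    sqrt_atTop.eventually (eventually_ge_atTop 1)] with Y hY hs N hN1 hN2 t ht
  have hV : 0 < K * Real.sqrt Y := by positivity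
  have h1 := abel (fun n => tw (f Y) χ n - mz Q z f Y * χ (n : ZMod W)) (fun n _ => by
    refine (norm_sub_le _ _).trans ?_
    rw [norm_mul]
    have h2 := (cf_tw (hf.cf Y) χ).le n
    have h3 : ‖mz Q z f Y‖ * ‖χ (n : ZMod W)‖ ≤ 1 * 1 :=
      mul_le_mul (mz_le hf Y) (χ.norm_le_one _) (norm_nonneg _) zero_le_one
    linarith) (K * Real.sqrt Y) η β hV hη0 hβ0.le (fun n hn1 hn2 => by
    have h2 : Real.sqrt Y / K' ≤ n := by
      refine le_trans ?_ hn1
      rw [div_le_iff₀ (by linarith)]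
      rw [div_le_iff₀ (by positivity)] at hK'2
      calc Real.sqrt Y = 1 * Real.sqrt Y := (one_mul _).symm
        _ ≤ (K' * (η * K)) * Real.sqrt Y := mul_le_mul_of_nonneg_right hK'2 (by linarith)
        _ = η * (K * Real.sqrt Y) * K' := by ring
    have h3 : (n : ℝ) ≤ K' * Real.sqrt Y := hn2.trans (mul_le_mul_of_nonneg_right hKK' (by linarith))
    have h4 := hY n h2 h3
    refine h4.trans (le_of_eq (by ring))) N (by
      refine le_trans ?_ hN1
      rw [le_div_iff₀ hK0]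
      calc η * (K * Real.sqrt Y) * K = (η * K ^ 2) * Real.sqrt Y := by ring
        _ ≤ 1 * Real.sqrt Y := mul_le_mul_of_nonneg_right hη2 (by linarith)
        _ = Real.sqrt Y := one_mul _) hN2 t
  refine h1.trans ?_
  have h5 : (β + |t| * (2 * η + β / η)) * (K * Real.sqrt Y) ≤ (β + T2 * (2 * η + β / η)) * (K * Real.sqrt Y) := by
    gcongr
  refine h5.trans ?_
  have h6 : (β + T2 * (2 * η + β / η)) * K ≤ ε := by
    have e1 : β * K ≤ ε / 4 := by linarith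
    have e2 : T2 * (2 * η) * K ≤ ε / 4 := by
      have : T2 * (2 * η) * K ≤ (T2 + 1) * (2 * η) * K := by gcongr; linarith
      nlinarith
    have e3 : T2 * (β / η) * K ≤ ε / 4 := by
      have : T2 * (β / η) * K ≤ (T2 + 1) * (β / η) * K := by gcongr; linarith
      refine this.trans ?_
      have e4 : (T2 + 1) * (β / η) * K = (β * (4 * K * (T2 + 1))) / (4 * η) := by field_simp
      rw [e4, div_le_iff₀ (by positivity)]
      linarith
    nlinarith
  calc (β + T2 * (2 * η + β / η)) * (K * Real.sqrt Y) = ((β + T2 * (2 * η + β / η)) * K) * Real.sqrt Y := by ring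
    _ ≤ ε * Real.sqrt Y := mul_le_mul_of_nonneg_right h6 (by linarith)

end Pool.Agent.SplB
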