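import Pool.Agent.Lib_MP_92ef0c_lb.BDefs
import Pool.Agent.Lib_MP_92ef0c_spi.Hal
import Pool.Agent.Lib_MP_92ef0c_spi.NonPretI

/-!
# Block B: non-pretentiousness and Halasz, uniform in the class
-/

set_option autoImplicit false

namespace Pool.Agent.SplB

open Finset Pool.Agent.Spl Pool.Agent.SplI MeasureTheory

private theorem npu_pow (u : ℂ) (hu : ‖u‖ = 1) (n : ℕ) :
    1 - (u ^ n).re ≤ (n : ℝ) ^ 2 * (1 - u.re) := by
  have h := Pool.Agent.ECM.one_sub_prod_le (List.replicate n u) (by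
    intro z hz
    rw [List.eq_of_mem_replicate hz]
    exact hu)
  rw [List.prod_replicate, List.length_replicate, List.map_replicate, List.sum_replicate,
    nsmul_eq_mul] at h
  calc 1 - (u ^ n).re ≤ (n : ℝ) * ((n : ℝ) * (1 - u.re)) := h
    _ = (n : ℝ) ^ 2 * (1 - u.re) := by ring

private theorem npu_et_pow (t : ℝ) (p n : ℕ) : (et t p) ^ n = et (n * t) p := by
  unfold et
  rw [← Complex.exp_nat_mul]
  congr 1
  push_cast
  ring

private theorem npu_prime (z : ℂ) (M : ℕ) (χ : DirichletCharacter ℂ M) {p : ℕ} (hp : p.Prime) :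
    fzc z M χ p = z * χ ((p : ℕ) : ZMod M) := by
  unfold fzc
  rw [ArithmeticFunction.cardFactors_apply_prime hp, pow_one]

private theorem npu_chi (M : ℕ) [NeZero M] (χ : DirichletCharacter ℂ M) {p : ℕ} (hp : p.Prime)
    (hM : M < p) : (χ ((p : ℕ) : ZMod M)) ^ M.totient = 1 := by
  have hc : Nat.Coprime p M := by
    rw [Nat.Prime.coprime_iff_not_dvd hp]
    intro h
    have := Nat.le_of_dvd (NeZero.pos M) h
    omega
  have hu : IsUnit ((p : ℕ) : ZMod M) := (ZMod.isUnit_iff_coprime p M).2 hc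
  obtain ⟨v, hv⟩ := hu
  rw [← hv, ← map_pow, ← Units.val_pow_eq_pow_val, ZMod.pow_totient, Units.val_one, map_one]

private theorem npu_Lr_nonneg (P Q : ℝ) : 0 ≤ Lr P Q := by
  unfold Lr
  exact sum_nonneg fun p _ => by positivity

/-- `z χ(p)` is not close to `p ^ (i t)`, `|t| ≥ 1`, any root of unity `z` -/
theorem nonpret_big (hZS : ZsLogS) (q : ℕ) (hq : 0 < q) (z : ℂ) (hz : z ^ q = 1) (M : ℕ) [NeZero M] (χ : DirichletCharacter ℂ M) :
    ∃ c0 L0 : ℝ, 0 < c0 ∧ ∀ e' e : ℝ, 0 < e' → e' < e → e ≤ 1 → L0 ≤ Real.log (e / e') → ∃ S0 : ℝ, 0 < S0 ∧ ∀ S : ℝ, S0 ≤ S → ∀ t : ℝ,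
    1 ≤ |t| → |t| ≤ Real.exp (4 * S) → c0 * Lr (Real.exp (e' * S)) (Real.exp (e * S)) ≤
      ∑ p ∈ PrI (Real.exp (e' * S)) (Real.exp (e * S)), (1 - (fzc z M χ p * et t p).re) / (p : ℝ) := by
  classical
  have hznorm : ‖z‖ = 1 := Complex.norm_eq_one_of_pow_eq_one hz hq.ne'
  obtain ⟨c1, L1, hc1, hL1, hdef⟩ := def_range_i hZS
  set n : ℕ := q * M.totient with hn
  have hn0 : 0 < n := Nat.mul_pos hq (Nat.totient_pos.2 (NeZero.pos M))
  have hnr : (1 : ℝ) ≤ (n : ℝ) := by exact_mod_cast hn0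
  have hn2 : (0 : ℝ) < (n : ℝ) ^ 2 := by positivity
  refine ⟨c1 / (n : ℝ) ^ 2, L1, by positivity, fun e' e he' hee he1 hL => ?_⟩
  have he : 0 < e := he'.trans hee
  obtain ⟨S1, hS1, hdefS⟩ := hdef e' e he' hee he1 hL 5 (by norm_num)
  refine ⟨max S1 (max (2 / e') (max (Real.log n) (((M : ℝ) + 1) / e'))), ?_, fun S hS t ht1 ht => ?_⟩
  · exact lt_max_of_lt_left hS1
  have hSS1 : S1 ≤ S := (le_max_left _ _).trans hS
  have hS2 : 2 / e' ≤ S := (le_max_left _ _).trans ((le_max_right _ _).trans hS)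
  have hS3 : Real.log n ≤ S :=
    (le_max_left _ _).trans ((le_max_right _ _).trans ((le_max_right _ _).trans hS))
  have hS4 : ((M : ℝ) + 1) / e' ≤ S :=
    (le_max_right _ _).trans ((le_max_right _ _).trans ((le_max_right _ _).trans hS))
  have hS0 : 0 < S := hS1.trans_le hSS1
  have hPM : (M : ℝ) < Real.exp (e' * S) := by
    rw [div_le_iff₀ he'] at hS4
    have := Real.add_one_le_exp (e' * S)
    nlinarith
  set P := Real.exp (e' * S) with hP
  set Q := Real.exp (e * S) with hQ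
  have hτ1 : 1 ≤ |(n : ℝ) * t| := by
    rw [abs_mul, abs_of_nonneg (by linarith)]
    nlinarith
  have hτ2 : |(n : ℝ) * t| ≤ Real.exp (5 * S) := by
    rw [abs_mul, abs_of_nonneg (by linarith)]
    have h1 : (n : ℝ) ≤ Real.exp S := by
      rw [← Real.exp_log (show (0 : ℝ) < n by linarith)]
      exact Real.exp_le_exp.2 hS3
    calc (n : ℝ) * |t| ≤ Real.exp S * Real.exp (4 * S) :=
          mul_le_mul h1 ht (abs_nonneg _) (Real.exp_pos _).le
      _ = Real.exp (5 * S) := by rw [← Real.exp_add]; congr 1; ring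
  have h1 := hdefS S hSS1 ((n : ℝ) * t) hτ1 hτ2
  rw [← hP, ← hQ] at h1
  have h2 : ∑ p ∈ PrI P Q, (1 - (et ((n : ℝ) * t) p).re) / (p : ℝ) ≤
      (n : ℝ) ^ 2 * ∑ p ∈ PrI P Q, (1 - (fzc z M χ p * et t p).re) / (p : ℝ) := by
    rw [mul_sum]
    refine sum_le_sum fun p hp => ?_
    obtain ⟨hpp, hpP, -⟩ := mem_PrI.1 hp
    have hMp : M < p := by
      have : (M : ℝ) < (p : ℝ) := hPM.trans hpP
      exact_mod_cast this
    have hp0 : (0 : ℝ) < (p : ℝ) := by exact_mod_cast hpp.pos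
    have hchi := npu_chi M χ hpp hMp
    have hu1 : ‖fzc z M χ p * et t p‖ = 1 := by
      rw [npu_prime z M χ hpp, norm_mul, norm_mul, hznorm, norm_et, one_mul, mul_one]
      exact Complex.norm_eq_one_of_pow_eq_one hchi (Nat.totient_pos.2 (NeZero.pos M)).ne'
    have hu2 : (fzc z M χ p * et t p) ^ n = et ((n : ℝ) * t) p := by
      rw [mul_pow, npu_et_pow, npu_prime z M χ hpp, mul_pow, hn, pow_mul z q, hz, one_pow,
        one_mul, mul_comm q, pow_mul, hchi, one_pow, one_mul]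
    have h3 := npu_pow _ hu1 n
    rw [hu2] at h3
    rw [← mul_div_assoc]
    exact div_le_div_of_nonneg_right h3 hp0.le
  have h5 : c1 / (n : ℝ) ^ 2 * Lr P Q =
      (c1 * Lr P Q) / (n : ℝ) ^ 2 := by ring
  have h6 : (c1 * Lr P Q) / (n : ℝ) ^ 2 ≤
      ∑ p ∈ PrI P Q, (1 - (fzc z M χ p * et t p).re) / (p : ℝ) := by
    rw [div_le_iff₀ hn2]
    linarith
  linarith


theorem nonpret_any (hZS : ZsLogS) (q : ℕ) (hq : 0 < q) (z : ℂ) (hz : z ^ q = 1) (M : ℕ) [NeZero M] (χ : DirichletCharacter ℂ M) :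
    ∃ c0 L0 : ℝ, 0 < c0 ∧ ∀ e' e : ℝ, 0 < e' → e' < e → e ≤ 1 → L0 ≤ Real.log (e / e') → ∃ S0 : ℝ, 0 < S0 ∧ ∀ S : ℝ, S0 ≤ S → ∀ t : ℝ,
    (z = 1 → 1 ≤ |t|) → |t| ≤ Real.exp (4 * S) → c0 * Lr (Real.exp (e' * S)) (Real.exp (e * S)) ≤
      ∑ p ∈ PrI (Real.exp (e' * S)) (Real.exp (e * S)), (1 - (fzc z M χ p * et t p).re) / (p : ℝ) := by
  by_cases h : z = 1
  · obtain ⟨c0, L0, hc0, H⟩ := nonpret_big hZS q hq z hz M χ
    refine ⟨c0, L0, hc0, fun e' e h1 h2 h3 h4 => ?_⟩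
    obtain ⟨S0, hS0, H2⟩ := H e' e h1 h2 h3 h4
    exact ⟨S0, hS0, fun S hS t ht1 ht2 => H2 S hS t (ht1 h) ht2⟩
  · obtain ⟨c0, L0, hc0, H⟩ := nonpret_i hZS q hq z hz h M χ
    refine ⟨c0, L0, hc0, fun e' e h1 h2 h3 h4 => ?_⟩
    obtain ⟨S0, hS0, H2⟩ := H e' e h1 h2 h3 h4
    exact ⟨S0, hS0, fun S hS t _ ht2 => H2 S hS t ht2⟩

private theorem npu_term {f : ℕ → ℂ} (hf : ∀ n, ‖f n‖ ≤ 1) (t : ℝ) (p : ℕ) :
    0 ≤ (1 - (f p * et t p).re) / (p : ℝ) := by
  refine div_nonneg ?_ (Nat.cast_nonneg _)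
  have h1 : ‖f p * et t p‖ ≤ 1 := by
    rw [norm_mul, norm_et, mul_one]
    exact hf p
  have h2 := (Complex.abs_re_le_norm (f p * et t p)).trans h1
  have h3 := (abs_le.1 h2).2
  linarith

/-- the version uniform in the class -/
theorem nonpret_cls (hZS : ZsLogS) (q : ℕ) (hq : 0 < q) (z : ℂ) (hz : z ^ q = 1) (M : ℕ) [NeZero M] (χ : DirichletCharacter ℂ M)
    (P0 κ : ℝ) (hκ : 0 < κ) :
    ∃ c0 L0 : ℝ, 0 < c0 ∧ ∀ e' e : ℝ, 0 < e' → e' < e → e ≤ 1 → L0 ≤ Real.log (e / e') → ∃ S0 : ℝ, 0 < S0 ∧ ∀ S : ℝ, S0 ≤ S →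
    ∀ f : ℕ → ℂ, Cls z P0 κ (Real.exp S) f → ∀ t : ℝ,
    (z = 1 → 1 ≤ |t|) → |t| ≤ Real.exp (4 * S) → c0 * Lr (Real.exp (e' * S)) (Real.exp (e * S)) ≤
      ∑ p ∈ PrI (Real.exp (e' * S)) (Real.exp (e * S)), (1 - (tw f χ p * et t p).re) / (p : ℝ) := by
  classical
  obtain ⟨c0, L0, hc0, H⟩ := nonpret_any hZS q hq z hz M χ
  obtain ⟨C, hC, hLr⟩ := Lr_bounds
  set κ' : ℝ := min κ 1 with hκ'
  have hκ'0 : 0 < κ' := lt_min hκ one_pos
  have hκ'1 : κ' ≤ 1 := min_le_right _ _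
  have hκ'κ : κ' ≤ κ := min_le_left _ _
  set c : ℝ := -Real.log κ' with hc
  have hcn : 0 ≤ c := by
    rw [hc]
    have := Real.log_nonpos hκ'0.le hκ'1
    linarith
  refine ⟨c0 / 4, max (L0 + c) (max (2 * c + 2 * C) (c + 1)), by positivity, fun e' e he' hee he1 hL => ?_⟩
  have hL1 : L0 + c ≤ Real.log (e / e') := (le_max_left _ _).trans hL
  have hL2 : 2 * c + 2 * C ≤ Real.log (e / e') := ((le_max_left _ _).trans (le_max_right _ _)).trans hL
  have hL3 : c + 1 ≤ Real.log (e / e') := ((le_max_right _ _).trans (le_max_right _ _)).trans hL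
  have he : 0 < e := he'.trans hee
  set e2 : ℝ := e * κ' with he2
  have he20 : 0 < e2 := by positivity
  have he2e : e2 ≤ e := by rw [he2]; nlinarith
  have he2κ : e2 ≤ κ := by
    rw [he2]
    have : e * κ' ≤ 1 * κ' := mul_le_mul_of_nonneg_right he1 hκ'0.le
    linarith
  have hlog2 : Real.log (e2 / e') = Real.log (e / e') - c := by
    rw [he2, hc, Real.log_div (by positivity) he'.ne', Real.log_div he.ne' he'.ne',
      Real.log_mul he.ne' hκ'0.ne']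
    ring
  have hee2 : e' < e2 := by
    have h1 : 0 < Real.log (e2 / e') := by rw [hlog2]; linarith
    have h2 : 1 < e2 / e' := by
      by_contra h
      push Not at h
      have := Real.log_nonpos (by positivity) h
      linarith
    rwa [lt_div_iff₀ he', one_mul] at h2
  obtain ⟨S1, hS1, H2⟩ := H e' e2 he' hee2 (he2e.trans he1) (by rw [hlog2]; linarith)
  refine ⟨max S1 (max (1 / e') (|P0| / e')), lt_max_of_lt_left hS1, fun S hS f hf t ht1 ht2 => ?_⟩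
  have hSS1 : S1 ≤ S := (le_max_left _ _).trans hS
  have hS2 : 1 / e' ≤ S := ((le_max_left _ _).trans (le_max_right _ _)).trans hS
  have hS3 : |P0| / e' ≤ S := ((le_max_right _ _).trans (le_max_right _ _)).trans hS
  have hS0 : 0 < S := hS1.trans_le hSS1
  rw [div_le_iff₀ he'] at hS2 hS3
  have hexp := Real.add_one_le_exp (e' * S)
  have hP2 : 2 ≤ Real.exp (e' * S) := by nlinarith
  have hP0 : P0 ≤ Real.exp (e' * S) := by
    have := le_abs_self P0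
    nlinarith
  have hPQ : Real.exp (e' * S) ≤ Real.exp (e * S) :=
    Real.exp_le_exp.2 (mul_le_mul_of_nonneg_right hee.le hS0.le)
  have hPQ2 : Real.exp (e' * S) ≤ Real.exp (e2 * S) :=
    Real.exp_le_exp.2 (mul_le_mul_of_nonneg_right hee2.le hS0.le)
  have hQ2Q : Real.exp (e2 * S) ≤ Real.exp (e * S) :=
    Real.exp_le_exp.2 (mul_le_mul_of_nonneg_right he2e hS0.le)
  have hQκ : Real.exp (e2 * S) ≤ Real.exp S ^ κ := by
    rw [← Real.exp_mul, mul_comm S κ]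
    exact Real.exp_le_exp.2 (mul_le_mul_of_nonneg_right he2κ hS0.le)
  have hlog : ∀ a : ℝ, 0 < a → Real.log (Real.log (Real.exp (a * S))) - Real.log (Real.log (Real.exp (e' * S)))
      = Real.log (a / e') := by
    intro a ha
    rw [Real.log_exp, Real.log_exp, Real.log_mul ha.ne' hS0.ne',
      Real.log_mul he'.ne' hS0.ne', Real.log_div ha.ne' he'.ne']
    ring
  have hb1 := (abs_le.1 (hLr _ _ hP2 hPQ)).2
  have hb2 := (abs_le.1 (hLr _ _ hP2 hPQ2)).1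
  rw [hlog e he] at hb1
  rw [hlog e2 he20, hlog2] at hb2
  have h1 := H2 S hSS1 t ht1 ht2
  have h2 : ∑ p ∈ PrI (Real.exp (e' * S)) (Real.exp (e2 * S)), (1 - (fzc z M χ p * et t p).re) / (p : ℝ) =
      ∑ p ∈ PrI (Real.exp (e' * S)) (Real.exp (e2 * S)), (1 - (tw f χ p * et t p).re) / (p : ℝ) := by
    refine sum_congr rfl fun p hp => ?_
    obtain ⟨hpp, h3, h4⟩ := mem_PrI.1 hp
    rw [npu_prime z M χ hpp]
    unfold tw
    rw [hf.pr p hpp (hP0.trans_lt h3) (h4.trans hQκ)]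
  have h3 : ∑ p ∈ PrI (Real.exp (e' * S)) (Real.exp (e2 * S)), (1 - (tw f χ p * et t p).re) / (p : ℝ) ≤
      ∑ p ∈ PrI (Real.exp (e' * S)) (Real.exp (e * S)), (1 - (tw f χ p * et t p).re) / (p : ℝ) := by
    refine sum_le_sum_of_subset_of_nonneg ?_ fun p _ _ => npu_term (cf_tw hf.cf χ).le t p
    intro p hp
    rw [mem_PrI] at hp ⊢
    exact ⟨hp.1, hp.2.1, hp.2.2.trans hQ2Q⟩
  have h4 : Lr (Real.exp (e' * S)) (Real.exp (e * S)) / 4 ≤ Lr (Real.exp (e' * S)) (Real.exp (e2 * S)) := by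
    linarith
  calc c0 / 4 * Lr (Real.exp (e' * S)) (Real.exp (e * S)) =
        c0 * (Lr (Real.exp (e' * S)) (Real.exp (e * S)) / 4) := by ring
    _ ≤ c0 * Lr (Real.exp (e' * S)) (Real.exp (e2 * S)) := mul_le_mul_of_nonneg_left h4 hc0.le
    _ ≤ _ := h1
    _ = _ := h2
    _ ≤ _ := h3

/-- pointwise bound, uniform in the class -/
theorem ptw_u' (hZS : ZsLogS) (q : ℕ) (hq : 0 < q) (z : ℂ) (hz : z ^ q = 1) (M : ℕ) [NeZero M] (χ : DirichletCharacter ℂ M)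
    (P0 κ : ℝ) (hκ : 0 < κ) (ε : ℝ) (hε : 0 < ε) :
    ∃ N0 T1 : ℝ, 1 < N0 ∧ 0 < T1 ∧ ∀ N : ℝ, N0 ≤ N → ∀ f : ℕ → ℂ, Cls z P0 κ N f → ∀ t : ℝ, |t| ≤ N ^ 3 →
      (z = 1 → T1 ≤ |t|) → ‖∑ n ∈ Icc 1 ⌊N⌋₊, tw f χ n * et t n‖ ≤ ε * N := by
  obtain ⟨c0, L0, hc0, H⟩ := nonpret_cls hZS q hq z hz M χ P0 κ hκ
  obtain ⟨T0, e, e', S0, hT0, he', hee, he4, hL, hS0, K⟩ := halasz_i c0 ε L0 hc0 hε
  obtain ⟨S1, hS1, H1⟩ := H e' e he' hee (by linarith) hL
  refine ⟨max (2 + T0) (max (Real.exp S0) (Real.exp S1)), T0 + 1, lt_max_of_lt_left (by linarith), by linarith,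
    fun N hN f hf t ht ht1 => ?_⟩
  have hN1 : 2 + T0 ≤ N := (le_max_left _ _).trans hN
  have hN2 : Real.exp S0 ≤ N := (le_max_left _ _).trans ((le_max_right _ _).trans hN)
  have hN3 : Real.exp S1 ≤ N := (le_max_right _ _).trans ((le_max_right _ _).trans hN)
  have hN0 : 0 < N := by linarith
  have hS0N : S0 ≤ Real.log N := (Real.le_log_iff_exp_le hN0).2 hN2
  have hS1N : S1 ≤ Real.log N := (Real.le_log_iff_exp_le hN0).2 hN3
  have hexp4 : Real.exp (4 * Real.log N) = N ^ 4 := by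
    rw [show (4 : ℝ) * Real.log N = Real.log (N ^ 4) by rw [Real.log_pow]; norm_num]
    exact Real.exp_log (by positivity)
  have hN34 : N ^ 3 + T0 ≤ N ^ 4 := by
    have h1 : (1 : ℝ) ≤ N ^ 3 := one_le_pow₀ (by linarith)
    have h2 : N ^ 4 - N ^ 3 = N ^ 3 * (N - 1) := by ring
    nlinarith
  have h := K (Real.log N) hS0N (fun n => tw f χ n * et t n) (cf_et (cf_tw hf.cf χ) t) (by
    intro y hy
    have hty : |t + y| ≤ Real.exp (4 * Real.log N) := by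
      rw [hexp4]
      exact (abs_add_le t y).trans (by linarith)
    have h1 := H1 (Real.log N) hS1N f (by rw [Real.exp_log hN0]; exact hf) (t + y) (by
      intro hz1
      have h3 := ht1 hz1
      have h4 : |t| ≤ |t + y| + |y| := by
        have := abs_sub (t + y) y
        rwa [add_sub_cancel_right] at this
      linarith) hty
    refine h1.trans (le_of_eq (sum_congr rfl fun p _ => ?_))
    rw [et_add, mul_assoc])
  unfold Ai Sf at h
  rw [Real.exp_log hN0, norm_mul, Complex.norm_real, Real.norm_of_nonneg (Real.exp_pos _).le,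
    Real.exp_neg, Real.exp_log hN0] at h
  rw [inv_mul_le_iff₀ hN0] at h
  linarith

end Pool.Agent.SplB
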