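import Pool.Agent.Lib_MP_92ef0c_lb.BDefs

/-!
# Block B: sums of Dirichlet characters, families
-/

set_option autoImplicit false

namespace Pool.Agent.SplB

open Finset Pool.Agent.Spl Pool.Agent.SplI MeasureTheory Filter

/-! ### periodic functions -/

private theorem per_add (ρ : ℕ → ℂ) (W : ℕ) (hp : ∀ n, ρ (n + W) = ρ n) (N : ℕ) :
    ∑ n ∈ range (N + W), ρ n = ∑ n ∈ range N, ρ n + ∑ n ∈ range W, ρ n := by
  induction N with
  | zero => simp
  | succ N ih =>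
    rw [show N + 1 + W = (N + W) + 1 by ring, sum_range_succ, ih, hp, sum_range_succ]
    ring

/-- sums of periodic functions -/
theorem per_sum (ρ : ℕ → ℂ) (W : ℕ) (hW : 0 < W) (hp : ∀ n, ρ (n + W) = ρ n) (hb : ∀ n, ‖ρ n‖ ≤ 1) (N : ℕ) :
    ‖∑ n ∈ range N, ρ n - N * ((∑ n ∈ range W, ρ n) / W)‖ ≤ 2 * W := by
  have hWr : (0 : ℝ) < W := by exact_mod_cast hW
  have hWc : (W : ℂ) ≠ 0 := by exact_mod_cast hW.ne'
  have hsum : ∀ M : ℕ, ‖∑ n ∈ range M, ρ n‖ ≤ M := by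
    intro M
    refine (norm_sum_le _ _).trans ?_
    calc ∑ n ∈ range M, ‖ρ n‖ ≤ ∑ _n ∈ range M, (1 : ℝ) := sum_le_sum fun n _ => hb n
      _ = M := by simp
  have hc : ‖(∑ n ∈ range W, ρ n) / W‖ ≤ 1 := by
    rw [norm_div, Complex.norm_natCast, div_le_one hWr]
    exact hsum W
  induction N using Nat.strong_induction_on with
  | _ N ih =>
    by_cases h : N < W
    · have h1 : (N : ℝ) ≤ W := by exact_mod_cast h.le
      refine (norm_sub_le _ _).trans ?_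
      rw [norm_mul, Complex.norm_natCast]
      have h2 := hsum N
      have h3 : (N : ℝ) * ‖(∑ n ∈ range W, ρ n) / W‖ ≤ N * 1 :=
        mul_le_mul_of_nonneg_left hc (Nat.cast_nonneg _)
      linarith
    · obtain ⟨M, rfl⟩ : ∃ M, N = M + W := ⟨N - W, by omega⟩
      have h1 := ih M (by omega)
      rw [per_add ρ W hp]
      have h2 : ∑ n ∈ range M, ρ n + ∑ n ∈ range W, ρ n - ((M + W : ℕ) : ℂ) * ((∑ n ∈ range W, ρ n) / W) =
          ∑ n ∈ range M, ρ n - M * ((∑ n ∈ range W, ρ n) / W) := by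
        push_cast
        field_simp
        ring
      rw [h2]
      exact h1

theorem sum_zmod {W : ℕ} [NeZero W] (F : ZMod W → ℂ) : ∑ a ∈ range W, F (a : ZMod W) = ∑ x : ZMod W, F x := by
  refine sum_nbij' (fun a => (a : ZMod W)) (fun x => x.val) ?_ ?_ ?_ ?_ ?_
  · intro a _
    exact mem_univ _
  · intro x _
    rw [mem_range]
    exact ZMod.val_lt x
  · intro a ha
    rw [mem_range] at ha
    exact ZMod.val_cast_of_lt ha
  · intro x _
    exact ZMod.natCast_zmod_val x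
  · intro a _
    rfl

/-- the density of a character -/
noncomputable def cW {W : ℕ} (χ : DirichletCharacter ℂ W) : ℂ := (∑ a ∈ range W, χ (a : ZMod W)) / W

theorem cW_le {W : ℕ} (hW : 0 < W) (χ : DirichletCharacter ℂ W) : ‖cW χ‖ ≤ 1 := by
  unfold cW
  have hWr : (0 : ℝ) < W := by exact_mod_cast hW
  rw [norm_div, Complex.norm_natCast, div_le_one hWr]
  refine (norm_sum_le _ _).trans ?_
  calc ∑ a ∈ range W, ‖χ (a : ZMod W)‖ ≤ ∑ _a ∈ range W, (1 : ℝ) := sum_le_sum fun n _ => χ.norm_le_one _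
    _ = W := by simp

theorem cW_zero {W : ℕ} [NeZero W] (χ : DirichletCharacter ℂ W) (h : χ ≠ 1) : cW χ = 0 := by
  unfold cW
  rw [sum_zmod (fun x => χ x), MulChar.sum_eq_zero_of_ne_one h, zero_div]

theorem cW_one {W : ℕ} [NeZero W] : cW (1 : DirichletCharacter ℂ W) = (W.totient : ℂ) / W := by
  unfold cW
  congr 1
  have h1 : ∀ a ∈ range W, (1 : DirichletCharacter ℂ W) (a : ZMod W) = if W.Coprime a then 1 else 0 := by
    intro a _
    by_cases h : a.Coprime W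
    · rw [if_pos h.symm, MulChar.one_apply ((ZMod.isUnit_iff_coprime a W).2 h)]
    · rw [if_neg (fun h' => h h'.symm), MulChar.map_nonunit]
      rw [ZMod.isUnit_iff_coprime]
      exact h
  rw [sum_congr rfl h1, Nat.totient_eq_card_coprime, sum_boole]

/-- sums of a character -/
theorem chi_sum {W : ℕ} [NeZero W] (χ : DirichletCharacter ℂ W) (N : ℕ) :
    ‖∑ n ∈ Icc 1 N, χ (n : ZMod W) - N * cW χ‖ ≤ 4 * W := by
  have hW : 0 < W := NeZero.pos W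
  have hW1 : (1 : ℝ) ≤ W := by exact_mod_cast hW
  have h1 := per_sum (fun n => χ (n : ZMod W)) W hW (fun n => by simp) (fun n => χ.norm_le_one _) (N + 1)
  have h2 : ∑ n ∈ range (N + 1), χ (n : ZMod W) = χ ((0 : ℕ) : ZMod W) + ∑ n ∈ Icc 1 N, χ (n : ZMod W) := by
    rw [range_eq_Ico, sum_eq_sum_Ico_succ_bot (by omega)]
    congr 1
  have h3 := cW_le hW χ
  have h4 : ‖χ ((0 : ℕ) : ZMod W)‖ ≤ 1 := χ.norm_le_one _
  have h5 : ∑ n ∈ Icc 1 N, χ (n : ZMod W) - N * cW χ =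
      (∑ n ∈ range (N + 1), χ (n : ZMod W) - ((N + 1 : ℕ) : ℂ) * cW χ) + cW χ - χ ((0 : ℕ) : ZMod W) := by
    rw [h2]
    push_cast
    ring
  rw [h5]
  refine (norm_sub_le _ _).trans ?_
  have h6 := norm_add_le (∑ n ∈ range (N + 1), χ (n : ZMod W) - ((N + 1 : ℕ) : ℂ) * cW χ) (cW χ)
  have h7 : ‖∑ n ∈ range (N + 1), χ (n : ZMod W) - ((N + 1 : ℕ) : ℂ) * cW χ‖ ≤ 2 * W := h1
  linarith

/-! ### families -/

theorem FS.cf {Q : ℕ} {z : ℂ} {f : ℝ → ℕ → ℂ} (hf : FS Q z f) (Y : ℝ) : CF (f Y) :=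
  ⟨hf.one Y, fun m n _ _ => hf.mul Y m n, hf.bd Y⟩

theorem FS.zero {Q : ℕ} {z : ℂ} {f : ℝ → ℕ → ℂ} (hf : FS Q z f) (Y : ℝ) {n : ℕ} (hn : ¬ n.Coprime Q) : f Y n = 0 := by
  obtain ⟨p, hp, h1, h2⟩ := Nat.Prime.not_coprime_iff_dvd.1 hn
  obtain ⟨m, rfl⟩ := h1
  rw [hf.mul, hf.zr Y p hp h2, zero_mul]

theorem f00_coprime {Q n : ℕ} (hn : n ≠ 0) (h : n.Coprime Q) : f00 Q n = 1 := by
  unfold f00
  rw [if_neg (by tauto)]

theorem f00_not {Q n : ℕ} (h : ¬ n.Coprime Q) : f00 Q n = 0 := by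
  unfold f00
  rw [if_pos (Or.inr h)]

theorem cf_f00 (Q : ℕ) : CF (f00 Q) := by
  refine ⟨f00_coprime one_ne_zero (Nat.coprime_one_left Q), fun m n hm hn => ?_, fun n => ?_⟩
  · by_cases h1 : m.Coprime Q
    · by_cases h2 : n.Coprime Q
      · rw [f00_coprime hm h1, f00_coprime hn h2, f00_coprime (mul_ne_zero hm hn) (Nat.Coprime.mul_left h1 h2), one_mul]
      · rw [f00_not h2, f00_not (fun h => h2 (Nat.Coprime.coprime_mul_left h)), mul_zero]
    · rw [f00_not h1, f00_not (fun h => h1 (Nat.Coprime.coprime_mul_right h)), zero_mul]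
  · unfold f00
    split_ifs
    · simp
    · simp

/-- `f00 χ = χ` if `Q ∣ W` -/
theorem tw_f00 {Q W : ℕ} (hQW : Q ∣ W) (χ : DirichletCharacter ℂ W) {n : ℕ} (hn : n ≠ 0) :
    tw (f00 Q) χ n = χ (n : ZMod W) := by
  unfold tw
  by_cases h : n.Coprime Q
  · rw [f00_coprime hn h, one_mul]
  · rw [f00_not h, zero_mul, MulChar.map_nonunit]
    rw [ZMod.isUnit_iff_coprime]
    exact fun h' => h (Nat.Coprime.coprime_dvd_right hQW h')

/-- `f 1 = f` if `f` vanishes off the numbers coprime to `Q` -/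
theorem tw_one {Q : ℕ} {z : ℂ} {f : ℝ → ℕ → ℂ} (hf : FS Q z f) (Y : ℝ) (n : ℕ) :
    tw (f Y) (1 : DirichletCharacter ℂ Q) n = f Y n := by
  unfold tw
  by_cases h : n.Coprime Q
  · rw [MulChar.one_apply ((ZMod.isUnit_iff_coprime n Q).2 h), mul_one]
  · rw [hf.zero Y h, zero_mul]

/-- members of the class -/
theorem FS.cls {Q : ℕ} {z : ℂ} {f : ℝ → ℕ → ℂ} (hQ : 0 < Q) (hf : FS Q z f) : ∃ κ : ℝ, 0 < κ ∧ κ ≤ 1 ∧
    ∀ Y : ℝ, 1 ≤ Y → (∀ p : ℕ, p.Prime → ¬ p ∣ Q → (p : ℝ) ≤ Y ^ κ → f Y p = z) ∧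
    ∀ N : ℝ, 0 ≤ N → N ≤ Y → Cls z Q κ N (f Y) := by
  obtain ⟨κ, hκ, h⟩ := hf.pr
  refine ⟨min κ 1, lt_min hκ one_pos, min_le_right _ _, fun Y hY => ?_⟩
  have hle : Y ^ (min κ 1) ≤ Y ^ κ := Real.rpow_le_rpow_of_exponent_le hY (min_le_left _ _)
  refine ⟨fun p hp hpQ h1 => h Y hY p hp hpQ (h1.trans hle), fun N hN hNY => ?_⟩
  refine ⟨hf.cf Y, fun p hp h1 h2 => h Y hY p hp ?_ ?_⟩
  · intro hpQ
    have := Nat.le_of_dvd hQ hpQ
    have h3 : Q < p := by exact_mod_cast h1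
    omega
  · have h3 : N ^ (min κ 1) ≤ Y ^ (min κ 1) :=
      Real.rpow_le_rpow hN hNY (le_min hκ.le zero_le_one)
    exact (h2.trans h3).trans hle

end Pool.Agent.SplB
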